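import Pool.Agent.Helper19.Fano.Canonical

/-!
# The alpha-invariant and the stability threshold of a toric variety
-/

set_option autoImplicit false
set_option linter.unusedSectionVars false
set_option linter.style.haveILetI false

open AlgebraicGeometry CategoryTheory AddMonoidAlgebra WithZero DirectSum
open scoped ENNReal NNReal

namespace Pool.Agent.Helper19.Fano

/-- The polytope is small. -/
def IsSmall {n : ℕ} {J : Type} (u : J → (Fin n → ℤ) →+ ℤ) : Prop :=
  ∀ (w : Fin n → ℤ) (d : ℕ), (∀ j, 0 ≤ u j w + d) → ∀ i, 2 * n * |w i| ≤ d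

section

variable {n : ℕ} {J : Type} [Finite J] {u : J → (Fin n → ℤ) →+ ℤ} (hb : IsBdd u)
  (hF : IsFacets u) (hs : IsSmall u)

include hs in
/-- The fundamental estimate for the order of a section. -/
lemma ord_section_le (E : DivVal (toricV u hb).FF) (N : ℕ) (r : LP n)
    (hr : ∀ w ∈ r.coeff.support, ∀ j, 0 ≤ u j w + N) (w : Fin n → ℤ)
    (hw : w ∈ r.coeff.support) :
    E.ord ((tor hb).Φ r) ≤ E.ord ((tor hb).chi w) + N * (1 + (tor hb).κ E) := by
  rcases Nat.eq_zero_or_pos n with hn | hn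
  · subst hn
    apply (tor hb).ord_Φ_le E r 0 N (fun w _ i => Fin.elim0 i) (by omega) w hw
  · apply (tor hb).ord_Φ_le E r (N / (2 * n)) N _ (by
      rw [mul_comm]
      exact Nat.div_mul_le_self N (2 * n)) w hw
    intro w' hw' i
    have h1 := hs w' N (hr w' hw') i
    have h2 : |w' i| ≤ (N : ℤ) / (2 * n : ℕ) := by
      rw [Int.le_ediv_iff_mul_le (by positivity)]
      push_cast
      linarith
    exact_mod_cast h2

lemma ordDiv_eq (N : ℕ) (φ : (toricV u hb).FF) (E : DivVal (toricV u hb).FF)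
    (y : (toricV u hb).X) : (canon hb hF).ordDiv N φ E y = (E.ord φ : ℝ) / N -
      (E.ord ((tor hb).chi (cV hb y).1.1) : ℝ) / mV hb := rfl

include hs in
/-- The pair `(V, t D)` is log canonical for `t = q / (p + q)`. -/
lemma isLC_of_height (p q : ℕ) (hq : 0 < q)
    (hh : ∀ (w : Fin n → ℤ) (d : ℕ), (∀ j, 0 ≤ u j w + d) → ∀ j, q * u j w ≤ p * d)
    (N : ℕ) (hN : 0 < N) (φ : (toricV u hb).FF) (hφ : φ ∈ (canon hb hF).H0 N) (hφ0 : φ ≠ 0) :
    (canon hb hF).IsLC N φ ((q : ℝ≥0) / (p + q)) := by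
  intro E y hy
  obtain ⟨r, rfl, hr⟩ := (mem_H0_iff hb hF N φ).mp hφ
  have hr0 : r ≠ 0 := by
    rintro rfl
    exact hφ0 (map_zero _)
  obtain ⟨w, hw⟩ : r.coeff.support.Nonempty := by
    rw [Finsupp.support_nonempty_iff]
    simpa using hr0
  have h1 := ord_section_le hb hs E N r hr w hw
  set A : ℤ := 1 + (tor hb).κ E with hA
  have hA0 : 0 ≤ A := by have := (tor hb).neg_one_le_κ E; linarith
  set ν : ℤ := - E.ord ((tor hb).chi (cV hb y).1.1) with hν
  have hν0 : 0 ≤ ν := by have := center_nonpos hb hy; linarith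
  have hm : (0 : ℝ) < mV hb := by exact_mod_cast mV_pos hb
  have hNQ : (0 : ℝ) < N := by exact_mod_cast hN
  have hqQ : (0 : ℝ) < q := by exact_mod_cast hq
  have hpQ : (0 : ℝ) ≤ p := by positivity
  -- the estimate for the monomial
  have hc : (-(q • w), p * N) ∈ cone u := by
    intro j
    have h2 := hh w N (hr w hw) j
    change 0 ≤ u j (-(q • w)) + ((p * N : ℕ) : ℤ)
    rw [map_neg, map_nsmul, nsmul_eq_mul]
    push_cast
    linarith
  have h3 := center_le hb hy ⟨_, hc⟩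
  have h4 : E.ord ((tor hb).chi (-(q • w))) = -(q * E.ord ((tor hb).chi w)) := by
    rw [TorusField.chi_neg, E.ord_inv, TorusField.chi_nsmul, E.ord_pow]
  simp only at h3
  rw [h4] at h3
  have h5 : (mV hb : ℤ) * (q * E.ord ((tor hb).chi w)) ≤ p * N * ν := by
    push_cast at h3
    rw [hν]
    linarith
  have h6 : (E.ord ((tor hb).chi w) : ℝ) / N ≤ (p / q) * (ν / mV hb) := by
    rw [div_le_iff₀ hNQ]
    have h7 : ((mV hb : ℝ)) * (q * E.ord ((tor hb).chi w)) ≤ p * N * ν := by exact_mod_cast h5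
    have h8 : (p / q : ℝ) * (ν / mV hb) * N = (p * N * ν) / (mV hb * q) := by
      field_simp
    rw [h8, le_div_iff₀ (mul_pos hm hqQ)]
    linarith
  have h9 : (canon hb hF).ordDiv N ((tor hb).Φ r) E y ≤
      (1 + p / q) * (canon hb hF).logDisc E y := by
    rw [ordDiv_eq, logDisc_eq]
    have h10 : (E.ord ((tor hb).Φ r) : ℝ) / N ≤ (E.ord ((tor hb).chi w) : ℝ) / N + A := by
      rw [div_le_iff₀ hNQ, add_mul, div_mul_cancel₀ _ hNQ.ne']
      have : (E.ord ((tor hb).Φ r) : ℝ) ≤ E.ord ((tor hb).chi w) + N * A := by exact_mod_cast h1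
      linarith
    have h11 : (E.ord ((tor hb).chi (cV hb y).1.1) : ℝ) = -ν := by
      rw [hν]; push_cast; ring
    rw [h11, neg_div, sub_neg_eq_add, sub_neg_eq_add]
    have h12 : (0 : ℝ) ≤ p / q * A := by
      apply mul_nonneg (div_nonneg hpQ hqQ.le)
      exact_mod_cast hA0
    have h13 : (1 + (p : ℝ) / q) * ((A : ℝ) + ν / mV hb) =
        (A + ν / mV hb) + (p / q * A + p / q * (ν / mV hb)) := by ring
    rw [h13]
    linarith
  have h14 : ((((q : ℝ≥0) / (p + q) : ℝ≥0)) : ℝ) = (((q / (p + q) : ℝ)) : ℝ) := by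
    push_cast
    rfl
  rw [h14]
  calc (q / (p + q) : ℝ) * (canon hb hF).ordDiv N ((tor hb).Φ r) E y
      ≤ (q / (p + q) : ℝ) * ((1 + p / q) * (canon hb hF).logDisc E y) := by
        apply mul_le_mul_of_nonneg_left h9
        positivity
    _ = (canon hb hF).logDisc E y := by
        have : (p + q : ℝ) ≠ 0 := by positivity
        field_simp
        ring

include hs in
/-- Lower bound for the alpha-invariant. -/
theorem le_alpha (p q : ℕ) (hq : 0 < q)
    (hh : ∀ (w : Fin n → ℤ) (d : ℕ), (∀ j, 0 ≤ u j w + d) → ∀ j, q * u j w ≤ p * d) :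
    (((q : ℝ≥0) / (p + q) : ℝ≥0) : ℝ≥0∞) ≤ (canon hb hF).alpha := by
  rw [Variety.CanonicalData.alpha]
  refine le_iInf fun N => le_iInf fun φ => le_iInf fun ⟨hN, hφ, hφ0⟩ => ?_
  rw [Variety.CanonicalData.lct]
  exact le_iSup₂_of_le _ (isLC_of_height hb hF hs p q hq hh N hN φ hφ hφ0) le_rfl

/-- A prime divisor on `V` has its generic point as center. -/
lemma isCenter_of_isOn {V : Variety} {E : DivVal V.FF} {x : V.X} (h : V.IsOn E x) :
    V.IsCenter E x := by
  intro f hf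
  have h1 : E.v f ≤ 1 := (h f).mpr hf
  refine ⟨h1, fun hs => lt_of_le_of_ne h1 fun heq => hs ?_⟩
  rw [← h f⁻¹, map_inv₀, heq, inv_one]

/-- Upper bound for the alpha-invariant. -/
theorem alpha_le (j : J) (w : Fin n → ℤ) (d : ℕ) (hd : 0 < d) (hw : ∀ i, 0 ≤ u i w + d)
    (hpos : 0 < u j w + d) (t : ℝ≥0) (ht : (d : ℝ) / (u j w + d) ≤ t) :
    (canon hb hF).alpha ≤ t := by
  rw [Variety.CanonicalData.alpha]
  have hφ := chi_mem_H0 hb hF ⟨(w, d), hw⟩
  simp only at hφ
  refine iInf_le_of_le d (iInf_le_of_le _ (iInf_le_of_le ⟨hd, hφ, (tor hb).chi_ne_zero w⟩ ?_))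
  rw [Variety.CanonicalData.lct]
  refine iSup₂_le fun t' ht' => ?_
  rw [ENNReal.coe_le_coe, ← NNReal.coe_le_coe]
  refine le_trans ?_ ht
  obtain ⟨x, hx⟩ := isOn_divU hb hF j
  have h1 := ht' _ x (isCenter_of_isOn hx)
  have h2 := (canon hb hF).local_eq x x _ hx specializes_rfl
  have h3 : (divJ hb hF j).ordForm (canon hb hF).form = -1 :=
    ((tor hb).ordForm_ωF _).trans (κ_divJ hb hF j)
  have h4 : ((canon hb hF).eqn x) = (tor hb).chi (cV hb x).1.1 := rfl
  have h5 : (canon hb hF).m = mV hb := rfl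
  rw [h3, h4, h5] at h2
  have hm : (0 : ℝ) < mV hb := by exact_mod_cast mV_pos hb
  have h6 : ((divJ hb hF j).ord ((tor hb).chi (cV hb x).1.1) : ℝ) / mV hb = -1 := by
    rw [h2]
    push_cast
    field_simp
  have h7 : (tor hb).κ (divJ hb hF j) = -1 := κ_divJ hb hF j
  rw [ordDiv_eq, logDisc_eq, h6, h7, ord_divJ_chi] at h1
  have hdR : (0 : ℝ) < d := by exact_mod_cast hd
  have hposR : (0 : ℝ) < u j w + d := by exact_mod_cast hpos
  push_cast at h1
  rw [le_div_iff₀ hposR]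
  have h8 : (t' : ℝ) * (((u j w : ℤ) : ℝ) / d - -1) = (t' : ℝ) * (u j w + d) / d := by
    field_simp
    ring
  rw [h8, div_le_iff₀ hdR] at h1
  linarith

end

end Pool.Agent.Helper19.Fano
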