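import Pool.Agent.Helper19.Fano.OrdForm

/-!
# Comparing the order of a Laurent polynomial with the order of its monomials
-/

set_option autoImplicit false
set_option linter.unusedSectionVars false

open WithZero

namespace Pool.Agent.Helper19.Fano

namespace TorusField

variable {n : ℕ} {K : Type} [Field K] [Algebra ℂ K] (T : TorusField n K) (E : DivVal K)

lemma v_θ_sub_le (i : Fin n) (k : ℤ) (f : K) :
    E.v (T.θ i f - (k : K) * f) ≤ E.v f * exp (1 + T.κ E) := by
  have h1 := T.v_θ_le E i f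
  have h2 : E.v ((k : K) * f) ≤ E.v f * exp (1 + T.κ E) := by
    rw [map_mul, mul_comm]
    apply mul_le_mul_right
    have h3 : E.v ((k : K)) ≤ 1 := by
      have := E.le_one (k : ℂ)
      simpa using this
    refine h3.trans ?_
    rw [← exp_zero, exp_le_exp]
    have := T.neg_one_le_κ E
    linarith
  exact (E.v.map_sub _ _).trans (max_le h1 h2)

/-- A Laurent polynomial with modified coefficients. -/
noncomputable def modSum (a : LP n) (g : (Fin n → ℤ) → ℂ) : K :=
  ∑ w ∈ a.coeff.support, algebraMap ℂ K (g w * a.coeff w) * T.chi w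

lemma modSum_one (a : LP n) : T.modSum a (fun _ => 1) = T.Φ a := by
  rw [modSum, Φ_eq_sum]
  simp

lemma θ_modSum (a : LP n) (g : (Fin n → ℤ) → ℂ) (i : Fin n) (k : ℤ) :
    T.θ i (T.modSum a g) - (k : K) * T.modSum a g =
      T.modSum a (fun w => ((w i - k : ℤ) : ℂ) * g w) := by
  rw [modSum, modSum, map_sum, Finset.mul_sum, ← Finset.sum_sub_distrib]
  refine Finset.sum_congr rfl fun w _ => ?_
  rw [← Algebra.smul_def, Derivation.map_smul, θ_chi]
  simp only [Algebra.smul_def, map_mul, map_intCast]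
  push_cast
  ring

lemma v_modSum_le (a : LP n) (s : Finset (Σ _ : Fin n, ℤ)) :
    E.v (T.modSum a (fun w => ∏ p ∈ s, ((w p.1 - p.2 : ℤ) : ℂ))) ≤
      E.v (T.Φ a) * exp (s.card * (1 + T.κ E)) := by
  classical
  induction s using Finset.induction_on with
  | empty => simp [modSum_one]
  | insert p s hp ih =>
    have h1 := T.v_θ_sub_le E p.1 p.2 (T.modSum a (fun w => ∏ p ∈ s, ((w p.1 - p.2 : ℤ) : ℂ)))
    rw [θ_modSum] at h1
    have h2 : (fun w : Fin n → ℤ => ∏ q ∈ insert p s, ((w q.1 - q.2 : ℤ) : ℂ)) =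
        fun w => ((w p.1 - p.2 : ℤ) : ℂ) * ∏ p ∈ s, ((w p.1 - p.2 : ℤ) : ℂ) := by
      ext w
      rw [Finset.prod_insert hp]
    rw [h2]
    refine h1.trans ?_
    rw [Finset.card_insert_of_notMem hp]
    calc E.v (T.modSum a fun w => ∏ p ∈ s, ((w p.1 - p.2 : ℤ) : ℂ)) * exp (1 + T.κ E)
        ≤ (E.v (T.Φ a) * exp (s.card * (1 + T.κ E))) * exp (1 + T.κ E) :=
          mul_le_mul_left ih _
      _ = E.v (T.Φ a) * exp (((s.card + 1 : ℕ) : ℤ) * (1 + T.κ E)) := by
          rw [mul_assoc, ← exp_add]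
          congr 2
          push_cast
          ring

/-- The order of a Laurent polynomial is at most the order of any of its monomials, up to a multiple
of the log discrepancy. -/
theorem v_chi_le (a : LP n) (c : ℕ) (hc : ∀ w ∈ a.coeff.support, ∀ i, |w i| ≤ c)
    (w₀ : Fin n → ℤ) (hw₀ : w₀ ∈ a.coeff.support) :
    E.v (T.chi w₀) ≤ E.v (T.Φ a) * exp ((2 * n * c : ℕ) * (1 + T.κ E)) := by
  classical
  set s : Finset (Σ _ : Fin n, ℤ) :=
    Finset.univ.sigma fun i => (Finset.Icc (-(c : ℤ)) c).erase (w₀ i) with hs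
  have hcard : s.card = 2 * n * c := by
    rw [hs, Finset.card_sigma]
    have h1 : ∀ i ∈ (Finset.univ : Finset (Fin n)),
        ((Finset.Icc (-(c : ℤ)) c).erase (w₀ i)).card = 2 * c := by
      intro i _
      have h2 : w₀ i ∈ Finset.Icc (-(c : ℤ)) c := by
        rw [Finset.mem_Icc]
        exact abs_le.mp (hc w₀ hw₀ i)
      rw [Finset.card_erase_of_mem h2, Int.card_Icc]
      omega
    rw [Finset.sum_congr rfl h1, Finset.sum_const, Finset.card_univ, Fintype.card_fin]
    simp only [smul_eq_mul]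
    ring
  have h1 := T.v_modSum_le E a s
  rw [hcard] at h1
  refine le_trans (le_of_eq ?_) h1
  set g : (Fin n → ℤ) → ℂ := fun w => ∏ p ∈ s, ((w p.1 - p.2 : ℤ) : ℂ) with hg
  have h2 : ∀ w ∈ a.coeff.support, w ≠ w₀ → g w = 0 := by
    intro w hw hne
    obtain ⟨i, hi⟩ := Function.ne_iff.mp hne
    rw [hg]
    simp only
    apply Finset.prod_eq_zero (i := (⟨i, w i⟩ : Σ _ : Fin n, ℤ))
    · rw [hs, Finset.mem_sigma]
      refine ⟨Finset.mem_univ i, ?_⟩
      rw [Finset.mem_erase, Finset.mem_Icc]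
      exact ⟨hi, abs_le.mp (hc w hw i)⟩
    · simp
  have h3 : g w₀ ≠ 0 := by
    rw [hg]
    simp only
    rw [Finset.prod_ne_zero_iff]
    intro p hp
    rw [hs, Finset.mem_sigma, Finset.mem_erase] at hp
    rw [Int.cast_ne_zero, sub_ne_zero]
    exact fun h => hp.2.1 h.symm
  have h4 : T.modSum a g = algebraMap ℂ K (g w₀ * a.coeff w₀) * T.chi w₀ := by
    rw [modSum]
    apply Finset.sum_eq_single_of_mem _ hw₀
    intro w hw hne
    rw [h2 w hw hne]
    simp
  rw [h4, map_mul, E.v_const (mul_ne_zero h3 (Finsupp.mem_support_iff.mp hw₀)), one_mul]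

/-- The additive form. -/
theorem ord_Φ_le (a : LP n) (c N : ℕ) (hc : ∀ w ∈ a.coeff.support, ∀ i, |w i| ≤ c)
    (hN : 2 * n * c ≤ N) (w₀ : Fin n → ℤ) (hw₀ : w₀ ∈ a.coeff.support) :
    E.ord (T.Φ a) ≤ E.ord (T.chi w₀) + N * (1 + T.κ E) := by
  have ha : a ≠ 0 := by
    rintro rfl
    simp at hw₀
  have h1 := T.v_chi_le E a c hc w₀ hw₀
  rw [E.v_eq_exp (T.chi_ne_zero w₀), E.v_eq_exp (T.Φ_ne_zero ha), ← exp_add, exp_le_exp] at h1
  have h2 := T.neg_one_le_κ E
  have h3 : ((2 * n * c : ℕ) : ℤ) * (1 + T.κ E) ≤ N * (1 + T.κ E) := by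
    apply mul_le_mul_of_nonneg_right _ (by linarith)
    exact_mod_cast hN
  linarith

end TorusField

end Pool.Agent.Helper19.Fano
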