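import Pool.Agent.Helper19.Fano.Divisors
import Pool.Agent.Helper19.Fano.Isolate

/-!
# The canonical divisor of a toric variety
-/

set_option autoImplicit false
set_option linter.unusedSectionVars false
set_option linter.style.haveILetI false

open AlgebraicGeometry CategoryTheory AddMonoidAlgebra WithZero DirectSum

namespace Pool.Agent.Helper19.Fano

section

variable {n : ℕ} {J : Type} [Finite J] {u : J → (Fin n → ℤ) →+ ℤ} (hb : IsBdd u)
  (hF : IsFacets u)

/-- A common degree. -/
noncomputable def mV : ℕ := (exists_uniform_degree hb).choose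

lemma mV_pos : 0 < mV hb := (exists_uniform_degree hb).choose_spec.1

/-- A nonvanishing monomial. -/
noncomputable def cV (x : (toricV u hb).X) : cone u :=
  ((exists_uniform_degree hb).choose_spec.2 x).choose

lemma cV_deg (x : (toricV u hb).X) : (cV hb x).1.2 = mV hb :=
  ((exists_uniform_degree hb).choose_spec.2 x).choose_spec.1

lemma cV_not_mem (x : (toricV u hb).X) : (single (cV hb x) 1 : coneAlg u) ∉ pt hb x :=
  ((exists_uniform_degree hb).choose_spec.2 x).choose_spec.2

lemma single_mem_gr (c : cone u) {d : ℕ} (hd : c.1.2 = d) :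
    (single c 1 : coneAlg u) ∈ coneGr u d := by
  have := single_mem_gradeBy (degHom u) c (1 : ℂ)
  rwa [degHom_apply, hd] at this

lemma κ_divJ (j : J) : (tor hb).κ (divJ hb hF j) = -1 := (tor hb).κ_divU (u j) (hF.prim j)

lemma ord_divJ_chi (j : J) (w : Fin n → ℤ) :
    (divJ hb hF j).ord ((tor hb).chi w) = u j w := (tor hb).ord_divU_chi (u j) (hF.prim j) w

/-- The canonical divisor of the toric variety. -/
noncomputable def canon : (toricV u hb).CanonicalData n where
  form := (tor hb).ωF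
  form_ne_zero := (tor hb).ωF_ne_zero
  m := mV hb
  m_pos := mV_pos hb
  eqn y := (tor hb).chi (cV hb y).1.1
  eqn_ne_zero y := (tor hb).chi_ne_zero _
  local_eq := by
    intro y x E hE hxy
    rcases IsOn.cases hb hF hE with ⟨h1, h2⟩ | ⟨j, rfl, hj⟩
    · have h3 : E.ordForm (tor hb).ωF = 0 := ((tor hb).ordForm_ωF E).trans h2
      rw [h3, mul_zero, ← E.v_eq_one_iff ((tor hb).chi_ne_zero _)]
      exact h1 _
    · have h3 : (divJ hb hF j).ordForm (tor hb).ωF = -1 :=
        ((tor hb).ordForm_ωF _).trans (κ_divJ hb hF j)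
      have h4 : (single (cV hb y) 1 : coneAlg u) ∉ pt hb x :=
        fun h => cV_not_mem hb y (specializes_V hb hxy h)
      have h5 := hj _ h4
      rw [h3, ord_divJ_chi]
      rw [cV_deg] at h5
      linarith

lemma center_stalk {V : Variety} {E : DivVal V.FF} {y : V.X} (h : V.IsCenter E y)
    (s : V.X.presheaf.stalk y) : E.v (algebraMap _ V.FF s) ≤ 1 ∧
      (¬ IsUnit s → E.v (algebraMap _ V.FF s) < 1) := by
  refine ⟨(h _ ⟨s, rfl⟩).1, fun hs => ?_⟩
  by_cases h0 : algebraMap (V.X.presheaf.stalk y) V.FF s = 0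
  · rw [h0, map_zero]
    exact zero_lt_one
  refine (h _ ⟨s, rfl⟩).2 ?_
  rintro ⟨s', hs'⟩
  apply hs
  apply IsUnit.of_mul_eq_one s'
  apply IsFractionRing.injective (V.X.presheaf.stalk y) V.FF
  have h1 : algebraMap (V.X.presheaf.stalk y) V.FF s' =
      (algebraMap (V.X.presheaf.stalk y) V.FF s)⁻¹ := hs'
  rw [map_mul, h1, mul_inv_cancel₀ h0, map_one]

/-- Sections in terms of valuations. -/
lemma mem_H0_iff_v {V : Variety} {n : ℕ} (C : V.CanonicalData n) (N : ℕ) (φ : V.FF) :
    φ ∈ C.H0 N ↔ ∀ (E : DivVal V.FF) (x : V.X), V.IsOn E x →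
      E.v φ ≤ exp (-(N * E.ordForm C.form)) := by
  constructor
  · intro h E x hx
    by_cases h0 : φ = 0
    · rw [h0, map_zero]
      exact zero_le
    · rw [E.v_le_exp_iff h0, neg_neg]
      exact h h0 E x hx
  · intro h h0 E x hx
    have h1 := h E x hx
    rwa [E.v_le_exp_iff h0, neg_neg] at h1

/-- Orders of characters in terms of the order of the local generator at the center. -/
lemma center_le {E : DivVal (toricV u hb).FF} {y : (toricV u hb).X}
    (h : (toricV u hb).IsCenter E y) (c : cone u) :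
    (c.1.2 : ℤ) * E.ord ((tor hb).chi (cV hb y).1.1) ≤ mV hb * E.ord ((tor hb).chi c.1.1) := by
  have h1 : (single (mV hb • c) 1 : coneAlg u) ∈ coneGr u (mV hb * c.1.2) :=
    single_mem_gr _ (by simp)
  have h2 : (single (c.1.2 • cV hb y) 1 : coneAlg u) ∈ coneGr u (mV hb * c.1.2) :=
    single_mem_gr _ (by
      have : (c.1.2 • cV hb y : cone u).1.2 = c.1.2 * (cV hb y).1.2 := by simp
      rw [this, cV_deg, mul_comm])
  obtain ⟨s, hs, -⟩ := exists_stalk_V hb y h1 h2 (single_nsmul_not_mem hb _ (cV_not_mem hb y))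
  have h3 := (center_stalk h s).1
  rw [hs, bt_single, bt_single] at h3
  have e1 : (mV hb • c : cone u).1.1 = mV hb • c.1.1 := by simp
  have e2 : (c.1.2 • cV hb y : cone u).1.1 = c.1.2 • (cV hb y).1.1 := by simp
  rw [e1, e2, TorusField.chi_nsmul, TorusField.chi_nsmul] at h3
  have n1 := pow_ne_zero (mV hb) ((tor hb).chi_ne_zero c.1.1)
  have n2 := pow_ne_zero c.1.2 ((tor hb).chi_ne_zero (cV hb y).1.1)
  rw [E.v_le_one_iff (div_ne_zero n1 n2), E.ord_div n1 n2, E.ord_pow, E.ord_pow] at h3
  linarith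

lemma center_nonpos {E : DivVal (toricV u hb).FF} {y : (toricV u hb).X}
    (h : (toricV u hb).IsCenter E y) : E.ord ((tor hb).chi (cV hb y).1.1) ≤ 0 := by
  have h1 := center_le hb h (oneDeg u)
  have e1 : (oneDeg u).1.2 = 1 := rfl
  have e2 : (oneDeg u).1.1 = 0 := rfl
  rw [e1, e2, TorusField.chi_zero, E.ord_one] at h1
  simpa using h1

lemma logDisc_eq (E : DivVal (toricV u hb).FF) (y : (toricV u hb).X) :
    (canon hb hF).logDisc E y = (((1 + (tor hb).κ E : ℤ)) : ℝ) -
      (E.ord ((tor hb).chi (cV hb y).1.1) : ℝ) / mV hb := by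
  have h1 : E.ordForm (canon hb hF).form = (tor hb).κ E := (tor hb).ordForm_ωF E
  rw [Variety.CanonicalData.logDisc, h1]
  push_cast
  rfl

/-- If the monomial of exponent `0` does not vanish at the center, then all characters are
units. -/
lemma torus_center {E : DivVal (toricV u hb).FF} {y : (toricV u hb).X}
    (h : (toricV u hb).IsCenter E y) (h0 : (single (oneDeg u) 1 : coneAlg u) ∉ pt hb y)
    (w : Fin n → ℤ) : E.v ((tor hb).chi w) = 1 := by
  -- all monomials are nonzero at `y`
  have hall : ∀ c : cone u, (single c 1 : coneAlg u) ∉ pt hb y := by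
    intro c
    obtain ⟨d, hd⟩ := exists_bound u {-c.1.1}
    have hd' : (-c.1.1, d) ∈ cone u :=
      fun j => hd d le_rfl _ (Finset.mem_singleton_self _) j
    have hsum : (⟨_, hd'⟩ : cone u) + c = (d + c.1.2) • oneDeg u := by
      apply Subtype.ext
      apply Prod.ext
      · simp [oneDeg]
      · simp [oneDeg]
    have h1 := single_nsmul_not_mem hb (d + c.1.2) h0
    rw [← hsum, single_add_not_mem] at h1
    exact h1.2
  obtain ⟨d, hd⟩ := exists_bound u {w}
  have hc : (w, d) ∈ cone u := fun j => hd d le_rfl w (Finset.mem_singleton_self w) j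
  have hc0 : ((0 : Fin n → ℤ), d) ∈ cone u := fun j => by simp
  have h1 : (single (⟨(w, d), hc⟩ : cone u) 1 : coneAlg u) ∈ coneGr u d := single_mem_gr _ rfl
  have h2 : (single (⟨(0, d), hc0⟩ : cone u) 1 : coneAlg u) ∈ coneGr u d := single_mem_gr _ rfl
  obtain ⟨s, hs, -⟩ := exists_stalk_V hb y h1 h2 (hall _)
  obtain ⟨s', hs', -⟩ := exists_stalk_V hb y h2 h1 (hall _)
  have h3 := (center_stalk h s).1
  have h4 := (center_stalk h s').1
  rw [hs, bt_single, bt_single, TorusField.chi_zero, div_one] at h3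
  rw [hs', bt_single, bt_single, TorusField.chi_zero, one_div, map_inv₀,
    inv_le_one₀ (zero_lt_iff.mpr (E.v_ne_zero ((tor hb).chi_ne_zero _)))] at h4
  exact le_antisymm h3 h4

/-- The toric variety is klt. -/
theorem toric_klt : (canon hb hF).IsKlt := by
  intro E y hy
  rw [logDisc_eq]
  have h1 := (tor hb).neg_one_le_κ E
  have h2 := center_nonpos hb hy
  have hm : (0 : ℝ) < mV hb := by exact_mod_cast mV_pos hb
  have h3 : (E.ord ((tor hb).chi (cV hb y).1.1) : ℝ) / mV hb ≤ 0 := by
    apply div_nonpos_of_nonpos_of_nonneg _ hm.le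
    exact_mod_cast h2
  have h4 : (0 : ℝ) ≤ ((1 + (tor hb).κ E : ℤ) : ℝ) := by
    have : (0 : ℤ) ≤ 1 + (tor hb).κ E := by linarith
    exact_mod_cast this
  by_contra hcon
  rw [not_lt] at hcon
  have h5 : (E.ord ((tor hb).chi (cV hb y).1.1) : ℝ) / mV hb = 0 := by linarith
  have h6 : ((1 + (tor hb).κ E : ℤ) : ℝ) = 0 := by linarith
  have h7 : E.ord ((tor hb).chi (cV hb y).1.1) = 0 := by
    rcases div_eq_zero_iff.mp h5 with h | h
    · exact_mod_cast h
    · exact absurd h hm.ne'
  have h8 : 1 + (tor hb).κ E = 0 := by exact_mod_cast h6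
  -- the monomial of exponent `0` does not vanish
  have h9 : (single (mV hb • oneDeg u) 1 : coneAlg u) ∈ coneGr u (mV hb) :=
    single_mem_gr _ (by simp [oneDeg])
  obtain ⟨s, hs, hs'⟩ := exists_stalk_V hb y h9 (single_mem_gr _ (cV_deg hb y)) (cV_not_mem hb y)
  have h10 : (single (mV hb • oneDeg u) 1 : coneAlg u) ∉ pt hb y := by
    rw [← hs']
    by_contra hnu
    have h11 := (center_stalk hy s).2 hnu
    rw [hs, bt_single, bt_single] at h11
    have e : (mV hb • oneDeg u : cone u).1.1 = 0 := by simp [oneDeg]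
    rw [e, TorusField.chi_zero, one_div, map_inv₀,
      (E.v_eq_one_iff ((tor hb).chi_ne_zero _)).mpr h7, inv_one] at h11
    exact lt_irrefl _ h11
  have h12 : (single (oneDeg u) 1 : coneAlg u) ∉ pt hb y := by
    obtain ⟨k, hk⟩ : ∃ k, mV hb = k + 1 := ⟨mV hb - 1, by have := mV_pos hb; omega⟩
    rw [hk, succ_nsmul, single_add_not_mem] at h10
    exact h10.2
  have h13 := (tor hb).κ_nonneg E fun i => torus_center hb hy h12 _
  linarith

/-- Global sections of multiples of the anticanonical divisor. -/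
theorem mem_H0_iff (N : ℕ) (φ : (toricV u hb).FF) : φ ∈ (canon hb hF).H0 N ↔
    ∃ r : LP n, φ = (tor hb).Φ r ∧ ∀ w ∈ r.coeff.support, ∀ j, 0 ≤ u j w + N := by
  rw [mem_H0_iff_v]
  constructor
  · intro h
    obtain ⟨r, rfl⟩ := (tor hb).exists_of_v_le φ (fun E q _ hE => by
      obtain ⟨x, hx⟩ := isOn_of_isHyp hb hE
      have h1 := h E x hx
      have h2 : E.ordForm (canon hb hF).form = 0 := ((tor hb).ordForm_ωF E).trans hE.κ_eq
      rw [h2, mul_zero, neg_zero, exp_zero] at h1
      exact h1)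
    refine ⟨r, rfl, fun w hw j => ?_⟩
    obtain ⟨x, hx⟩ := isOn_divU hb hF j
    have h1 := h _ x hx
    have h2 : (divJ hb hF j).ordForm (canon hb hF).form = -1 :=
      ((tor hb).ordForm_ωF _).trans (κ_divJ hb hF j)
    have h3 : (divJ hb hF j).v = (tor hb).vU (u j) := rfl
    rw [h2, h3, show -((N : ℤ) * -1) = -(-(N : ℤ)) by ring, TorusField.vU_le_iff] at h1
    have := h1 w hw
    linarith
  · rintro ⟨r, rfl, hr⟩
    intro E x hx
    rcases IsOn.cases hb hF hx with ⟨h1, h2⟩ | ⟨j, rfl, hj⟩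
    · have h3 : E.ordForm (canon hb hF).form = 0 := ((tor hb).ordForm_ωF E).trans h2
      rw [h3, mul_zero, neg_zero, exp_zero, TorusField.Φ_eq_sum]
      apply Valuation.map_sum_le
      intro w _
      rw [map_mul, h1, mul_one]
      exact E.le_one _
    · have h2 : (divJ hb hF j).ordForm (canon hb hF).form = -1 :=
      ((tor hb).ordForm_ωF _).trans (κ_divJ hb hF j)
      have h3 : (divJ hb hF j).v = (tor hb).vU (u j) := rfl
      rw [h2, h3, show -((N : ℤ) * -1) = -(-(N : ℤ)) by ring, TorusField.vU_le_iff]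
      intro w hw
      have := hr w hw j
      linarith

lemma chi_mem_H0 (c : cone u) : (tor hb).chi c.1.1 ∈ (canon hb hF).H0 c.1.2 := by
  rw [mem_H0_iff]
  refine ⟨single c.1.1 1, rfl, fun w hw j => ?_⟩
  have : w = c.1.1 := by
    have := Finsupp.support_single_subset hw
    simpa using this
  rw [this]
  exact c.2 j

/-- The anticanonical divisor is ample. -/
theorem toric_ample : (canon hb hF).IsAmple := by
  intro y
  obtain ⟨U, hU, hU'⟩ := exists_affine hb (mV_pos hb) (single_mem_gr _ (cV_deg hb y))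
  refine ⟨1, one_pos, (tor hb).chi (cV hb y).1.1, ?_, U, hU, ?_, fun z => ?_⟩
  · have h1 := chi_mem_H0 hb hF (cV hb y)
    rw [cV_deg] at h1
    rw [one_mul]
    exact h1
  · rw [hU']
    exact cV_not_mem hb y
  · have hz0 := (tor hb).chi_ne_zero (cV hb z).1.1
    obtain ⟨s, hs, hs'⟩ := exists_stalk_V hb z (single_mem_gr _ (cV_deg hb y))
      (single_mem_gr _ (cV_deg hb z)) (cV_not_mem hb z)
    rw [bt_single, bt_single] at hs
    rw [hU', ← hs']
    have hfz : (canon hb hF).eqn z = (tor hb).chi (cV hb z).1.1 := rfl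
    constructor
    · intro h
      obtain ⟨v, rfl⟩ := h
      refine ⟨algebraMap _ (toricV u hb).FF (v : (toricV u hb).X.presheaf.stalk z), ⟨_, rfl⟩,
        ?_, ⟨((v⁻¹ : ((toricV u hb).X.presheaf.stalk z)ˣ) : (toricV u hb).X.presheaf.stalk z),
          ?_⟩, ?_⟩
      · rw [hs]
        exact div_ne_zero ((tor hb).chi_ne_zero _) hz0
      · apply eq_inv_of_mul_eq_one_left
        exact (map_mul (algebraMap ((toricV u hb).X.presheaf.stalk z) (toricV u hb).FF) _ _).symm.trans
          ((congrArg _ (Units.inv_mul v)).trans (map_one _))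
      · rw [hs, hfz, pow_one, div_mul_cancel₀ _ hz0]
    · rintro ⟨g, ⟨s', rfl⟩, hg0, ⟨s'', hs''⟩, h⟩
      have h1 : algebraMap _ (toricV u hb).FF s =
          algebraMap ((toricV u hb).X.presheaf.stalk z) (toricV u hb).FF s' := by
        rw [hs, h, hfz, pow_one, mul_div_cancel_right₀ _ hz0]
      have h2 : s = s' := IsFractionRing.injective ((toricV u hb).X.presheaf.stalk z)
        (toricV u hb).FF h1
      rw [h2]
      apply IsUnit.of_mul_eq_one s''
      apply IsFractionRing.injective ((toricV u hb).X.presheaf.stalk z) (toricV u hb).FF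
      have h3 : algebraMap ((toricV u hb).X.presheaf.stalk z) (toricV u hb).FF s'' =
        (algebraMap ((toricV u hb).X.presheaf.stalk z) (toricV u hb).FF s')⁻¹ := hs''
      rw [map_mul, h3, mul_inv_cancel₀ hg0, map_one]

end

end Pool.Agent.Helper19.Fano
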