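import Mathlib

/-!
# The graded monoid algebra of a rational cone
-/

set_option autoImplicit false
set_option linter.unusedSectionVars false

open AddMonoidAlgebra

namespace Pool.Agent.Helper19.Fano

/-- Laurent polynomials in `n` variables. -/
abbrev LP (n : ℕ) : Type := AddMonoidAlgebra ℂ (Fin n → ℤ)

/-- Laurent polynomials in `n` variables, with one more polynomial variable. -/
abbrev LPT (n : ℕ) : Type := AddMonoidAlgebra ℂ ((Fin n → ℤ) × ℕ)

lemma eq_sum_single {M : Type} (a : AddMonoidAlgebra ℂ M) :
    a = ∑ m ∈ a.coeff.support, single m (a.coeff m) := by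
  classical
  ext m
  rw [coeff_sum, Finsupp.finsetSum_apply]
  simp only [coeff_single, Finsupp.single_apply]
  rw [Finset.sum_ite_eq' a.coeff.support m]
  simp +contextual

section cone

variable {n : ℕ} {J : Type} (u : J → (Fin n → ℤ) →+ ℤ)

/-- The cone over the polytope `{w | u j w ≥ -1 for all j}`. -/
def cone : AddSubmonoid ((Fin n → ℤ) × ℕ) where
  carrier := {c | ∀ j, 0 ≤ u j c.1 + c.2}
  add_mem' := by
    intro a b ha hb j
    have h1 := ha j
    have h2 := hb j
    simp only [Prod.fst_add, map_add, Prod.snd_add, Nat.cast_add]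
    linarith
  zero_mem' := by
    intro j
    simp

lemma mem_cone {c : (Fin n → ℤ) × ℕ} : c ∈ cone u ↔ ∀ j, 0 ≤ u j c.1 + c.2 := Iff.rfl

/-- The cone is a finitely generated monoid (Gordan). -/
lemma cone_fg [Finite J] : (cone u).FG := by
  let M := (Fin n → ℕ) × (Fin n → ℕ) × ℕ × (J → ℕ)
  let castF : (Fin n → ℕ) →+ (Fin n → ℤ) :=
    { toFun := fun p i => (p i : ℤ), map_zero' := by ext; simp, map_add' := by intros; ext; simp }
  let castJ : (J → ℕ) →+ (J → ℤ) :=
    { toFun := fun p i => (p i : ℤ), map_zero' := by ext; simp, map_add' := by intros; ext; simp }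
  let π₁ : M →+ (Fin n → ℕ) := AddMonoidHom.fst _ _
  let π₂ : M →+ (Fin n → ℕ) := (AddMonoidHom.fst _ _).comp (AddMonoidHom.snd _ _)
  let π₃ : M →+ ℕ := (AddMonoidHom.fst _ _).comp ((AddMonoidHom.snd _ _).comp (AddMonoidHom.snd _ _))
  let π₄ : M →+ (J → ℕ) :=
    (AddMonoidHom.snd _ _).comp ((AddMonoidHom.snd _ _).comp (AddMonoidHom.snd _ _))
  let w : M →+ (Fin n → ℤ) := castF.comp π₁ - castF.comp π₂
  let f : M →+ (J → ℤ) :=
    { toFun := fun m j => u j (w m) + (π₃ m : ℤ)
      map_zero' := by ext; simp
      map_add' := by intros; ext; simp; ring }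
  let g : M →+ (J → ℤ) := castJ.comp π₄
  have h1 := AddSubmonoid.fg_eqLocusM f g
  let p : M →+ (Fin n → ℤ) × ℕ := w.prod π₃
  have h2 : cone u = (f.eqLocusM g).map p := by
    ext c
    constructor
    · intro hc
      refine ⟨(fun i => (c.1 i).toNat, fun i => (-c.1 i).toNat, c.2,
        fun j => (u j c.1 + c.2).toNat), ?_, ?_⟩
      · have hw : w (fun i => (c.1 i).toNat, fun i => (-c.1 i).toNat, c.2,
            fun j => (u j c.1 + c.2).toNat) = c.1 := by
          ext i
          change (((c.1 i).toNat : ℤ)) - (((-c.1 i).toNat : ℤ)) = c.1 i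
          exact Int.toNat_sub_toNat_neg _
        change f _ = g _
        ext j
        change u j (w _) + (c.2 : ℤ) = ((u j c.1 + c.2).toNat : ℤ)
        rw [hw]
        have := hc j
        omega
      · ext i
        · change (((c.1 i).toNat : ℤ)) - (((-c.1 i).toNat : ℤ)) = c.1 i
          exact Int.toNat_sub_toNat_neg _
        · rfl
    · rintro ⟨m, hm, rfl⟩ j
      have h3 : f m = g m := hm
      have h4 := congrFun h3 j
      change u j (w m) + (π₃ m : ℤ) = ((π₄ m j : ℕ) : ℤ) at h4
      change 0 ≤ u j (w m) + (π₃ m : ℤ)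
      rw [h4]
      positivity
  rw [h2]
  exact h1.map p

instance [Finite J] : AddMonoid.FG (cone u) := (AddMonoid.fg_iff_addSubmonoid_fg _).mpr (cone_fg u)

/-- The homogeneous coordinate ring of a toric variety. -/
abbrev coneAlg : Type := AddMonoidAlgebra ℂ (cone u)

/-- The degree. -/
def degHom : cone u →+ ℕ := (AddMonoidHom.snd _ _).comp (cone u).subtype

lemma degHom_apply (c : cone u) : degHom u c = c.1.2 := rfl

/-- The grading of the homogeneous coordinate ring. -/
abbrev coneGr : ℕ → Submodule ℂ (coneAlg u) := gradeBy ℂ (degHom u)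

/-- The inclusion of the homogeneous coordinate ring in the ring of Laurent polynomials. -/
noncomputable def incl : coneAlg u →ₐ[ℂ] LPT n := mapDomainAlgHom ℂ ℂ (cone u).subtype

lemma incl_single (c : cone u) (r : ℂ) : incl u (single c r) = single c.1 r := by
  simp [incl]

lemma incl_injective : Function.Injective (incl u) := by
  have := mapDomain_injective (R := ℂ) (f := (cone u).subtype) Subtype.val_injective
  exact this

instance : IsDomain (coneAlg u) := (incl_injective u).isDomain (incl u).toRingHom

/-- Dehomogenization. -/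
noncomputable def deh : coneAlg u →ₐ[ℂ] LP n :=
  mapDomainAlgHom ℂ ℂ ((AddMonoidHom.fst _ _).comp (cone u).subtype)

lemma deh_single (c : cone u) (r : ℂ) : deh u (single c r) = single c.1.1 r := by
  simp [deh]

/-- Laurent polynomials as polynomials of degree `0` in the additional variable. -/
noncomputable def lpIncl (n : ℕ) : LP n →ₐ[ℂ] LPT n :=
  mapDomainAlgHom ℂ ℂ (AddMonoidHom.inl (Fin n → ℤ) ℕ)

lemma lpIncl_single (w : Fin n → ℤ) (r : ℂ) : lpIncl n (single w r) = single (w, 0) r := by
  simp [lpIncl]

lemma lpIncl_injective : Function.Injective (lpIncl n) := by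
  have := mapDomain_injective (R := ℂ) (f := AddMonoidHom.inl (Fin n → ℤ) ℕ) (by
    intro a b h
    simpa using h)
  exact this

lemma incl_eq (d : ℕ) (a : coneAlg u) (ha : a ∈ coneGr u d) :
    incl u a = lpIncl n (deh u a) * single (0, d) 1 := by
  have h1 := eq_sum_single a
  conv_lhs => rw [h1]
  conv_rhs => rw [h1]
  rw [map_sum, map_sum, map_sum, Finset.sum_mul]
  refine Finset.sum_congr rfl fun c hc => ?_
  rw [incl_single, deh_single, lpIncl_single, single_mul_single]
  have h2 : degHom u c = d := ha c hc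
  rw [degHom_apply] at h2
  simp only [Prod.mk_add_mk, add_zero, zero_add, mul_one, ← h2]

/-- Homogenization of a Laurent polynomial all of whose exponents have the required bound. -/
lemma exists_homog (d : ℕ) (r : LP n) (hr : ∀ w ∈ r.coeff.support, ∀ j, 0 ≤ u j w + d) :
    ∃ a ∈ coneGr u d, deh u a = r := by
  classical
  refine ⟨∑ w ∈ r.coeff.support.attach, single (⟨(w.1, d), hr w.1 w.2⟩ : cone u) (r.coeff w.1),
    ?_, ?_⟩
  · refine Submodule.sum_mem _ fun w _ => ?_
    exact single_mem_gradeBy (degHom u) _ _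
  · rw [map_sum]
    conv_rhs => rw [eq_sum_single r, ← Finset.sum_attach]
    refine Finset.sum_congr rfl fun w _ => ?_
    rw [deh_single]

/-- The exponents of the dehomogenization. -/
lemma deh_support (d : ℕ) (a : coneAlg u) (ha : a ∈ coneGr u d) (w : Fin n → ℤ)
    (hw : w ∈ (deh u a).coeff.support) : ∀ j, 0 ≤ u j w + d := by
  classical
  intro j
  have h1 : (deh u a).coeff = Finsupp.mapDomain ((AddMonoidHom.fst _ _).comp (cone u).subtype)
    a.coeff := rfl
  rw [h1] at hw
  have h2 := Finsupp.mapDomain_support hw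
  rw [Finset.mem_image] at h2
  obtain ⟨c, hc, rfl⟩ := h2
  have h3 : degHom u c = d := ha c hc
  rw [degHom_apply] at h3
  have h4 := c.2 j
  rw [h3] at h4
  exact h4

/-- Dehomogenization is injective in each degree. -/
lemma deh_injOn (d : ℕ) (a : coneAlg u) (ha : a ∈ coneGr u d) (h : deh u a = 0) : a = 0 := by
  apply incl_injective u
  rw [incl_eq u d a ha, h]
  simp

/-- The coefficient of the dehomogenization. -/
lemma deh_coeff (d : ℕ) (a : coneAlg u) (ha : a ∈ coneGr u d) (c : cone u) (hc : c.1.2 = d) :
    (deh u a).coeff c.1.1 = a.coeff c := by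
  classical
  conv_lhs => rw [eq_sum_single a]
  rw [map_sum, coeff_sum, Finsupp.finsetSum_apply]
  have : ∀ m ∈ a.coeff.support, (deh u (single m (a.coeff m))).coeff c.1.1 =
      if m = c then a.coeff m else 0 := by
    intro m hm
    have h3 : degHom u m = d := ha m hm
    rw [degHom_apply] at h3
    rw [deh_single, coeff_single, Finsupp.single_apply]
    congr 1
    rw [eq_iff_iff]
    constructor
    · intro h
      exact Subtype.ext (Prod.ext h (h3.trans hc.symm))
    · rintro rfl
      rfl
  rw [Finset.sum_congr rfl this, Finset.sum_ite_eq']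
  simp +contextual

end cone

end Pool.Agent.Helper19.Fano
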