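import Pool.Agent.Helper19.Fano.Delta

/-!
# A combinatorial criterion for the existence of K-semistable Fano varieties
-/

set_option autoImplicit false
set_option linter.unusedSectionVars false
set_option linter.style.haveILetI false

open AlgebraicGeometry CategoryTheory AddMonoidAlgebra WithZero
open scoped ENNReal NNReal

namespace Pool.Agent.Helper19.Fano

lemma TorusField.trdeg_eq {n : ℕ} {K : Type} [Field K] [Algebra ℂ K] (T : TorusField n K) :
    Algebra.trdeg ℂ K = n := by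
  letI := T.polyAlg
  haveI := T.polyAlg_tower
  haveI := T.polyAlg_isFractionRing
  haveI : FaithfulSMul (MvPolynomial (Fin n) ℂ) K := by
    rw [faithfulSMul_iff_algebraMap_injective]
    exact T.polyHom_injective
  have h1 := trdeg_add_eq ℂ (MvPolynomial (Fin n) ℂ) (A := K)
  haveI : Algebra.IsAlgebraic (MvPolynomial (Fin n) ℂ) K :=
    IsLocalization.isAlgebraic _ (nonZeroDivisors (MvPolynomial (Fin n) ℂ))
  have h2 : Algebra.trdeg (MvPolynomial (Fin n) ℂ) K = 0 := trdeg_eq_zero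
  have h3 : Algebra.trdeg ℂ (MvPolynomial (Fin n) ℂ) = n := by
    rw [MvPolynomial.trdeg_of_isDomain]
    simp
  rw [← h1, h2, h3, add_zero]

/-- A combinatorial criterion. -/
theorem exists_kssFano {n : ℕ} {J : Type} [Finite J] {u : J → (Fin n → ℤ) →+ ℤ} (hb : IsBdd u)
    (hF : IsFacets u) (hs : IsSmall u) (hc : IsCentered u) (p q : ℕ) (hq : 0 < q)
    (hh : ∀ (w : Fin n → ℤ) (d : ℕ), (∀ j, 0 ≤ u j w + d) → ∀ j, q * u j w ≤ p * d)
    (j : J) (w : Fin n → ℤ) (d : ℕ) (hd : 0 < d) (hw : ∀ i, 0 ≤ u i w + d)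
    (hpos : 0 < u j w + d) :
    ∃ a ∈ alphaSet n, (q : ℝ) / (p + q) ≤ a ∧ a ≤ (d : ℝ) / (u j w + d) := by
  have h1 := le_alpha hb hF hs p q hq hh
  have hdR : (0 : ℝ) < d := by exact_mod_cast hd
  have hposR : (0 : ℝ) < u j w + d := by exact_mod_cast hpos
  let t : ℝ≥0 := ⟨(d : ℝ) / (u j w + d), (div_pos hdR hposR).le⟩
  have h2 := alpha_le hb hF j w d hd hw hpos t le_rfl
  have hne : (canon hb hF).alpha ≠ ⊤ := ne_top_of_le_ne_top ENNReal.coe_ne_top h2
  refine ⟨(canon hb hF).alpha.toReal, ⟨toricV u hb, (tor hb).trdeg_eq, canon hb hF,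
    toric_klt hb hF, toric_ample hb hF, one_le_delta hb hF hs hc, ?_, ENNReal.toReal_nonneg⟩,
    ?_, ?_⟩
  · rw [ENNReal.ofReal_toReal hne]
  · have h3 := ENNReal.toReal_mono hne h1
    rw [ENNReal.coe_toReal] at h3
    push_cast at h3
    exact h3
  · have h3 := ENNReal.toReal_mono ENNReal.coe_ne_top h2
    exact h3

end Pool.Agent.Helper19.Fano
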