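import Mathlib

/-!
# K-semistable klt Fano varieties and their alpha-invariants: the definitions

Everything is over `ℂ`. A variety is given by a normal integral scheme, proper over `Spec ℂ`
(projectivity follows from ampleness of the anticanonical divisor). Divisors over a variety `X` are
given by the divisorial valuations of its function field.
-/

set_option autoImplicit false

open AlgebraicGeometry CategoryTheory WithZero Filter Topology
open scoped KaehlerDifferential ENNReal NNReal

namespace Pool.Agent.Helper19.Fano

/-! ## Divisorial valuations of a function field and orders of top forms -/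

section fieldLevel

variable (K : Type) [Field K] [Algebra ℂ K]

/-- The valuation ring of a valuation which is `≤ 1` on `ℂ`, as a `ℂ`-subalgebra of `K`. -/
def valRing {K : Type} [Field K] [Algebra ℂ K] (w : Valuation K ℤᵐ⁰)
    (h : ∀ c : ℂ, w (algebraMap ℂ K c) ≤ 1) : Subalgebra ℂ K :=
  { w.integer.toSubsemiring with algebraMap_mem' := h }

/-- A divisorial valuation of `K`, i.e. a prime divisor on some normal model of `K`: a normalized
discrete valuation `v` of `K`, trivial on `ℂ`, whose valuation ring is essentially of finite type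
over `ℂ`. (Multiplicative convention: `v f = exp (-ord f)`.) -/
structure DivVal where
  /-- The valuation. -/
  v : Valuation K ℤᵐ⁰
  surj : Function.Surjective v
  le_one : ∀ c : ℂ, v (algebraMap ℂ K c) ≤ 1
  eft : Algebra.EssFiniteType ℂ (valRing v le_one)

/-- The `K`-vector space of rational differentials. -/
def Om : Type := Ω[K⁄ℂ]

noncomputable instance : AddCommGroup (Om K) := instAddCommGroupKaehlerDifferential ℂ K

noncomputable instance : Module K (Om K) := instModuleKaehlerDifferentialOfSMulCommClass ℂ K

/-- The `K`-vector space of rational `n`-forms. -/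
def Forms (n : ℕ) : Type := ⋀[K]^n (Om K)

noncomputable instance (n : ℕ) : AddCommGroup (Forms K n) := Submodule.addCommGroup (⋀[K]^n (Om K))

noncomputable instance (n : ℕ) : Module K (Forms K n) := Submodule.module (⋀[K]^n (Om K))

variable {K}

/-- The wedge product of `n` differentials. -/
noncomputable def wedgeMap (n : ℕ) : (Om K) [⋀^Fin n]→ₗ[K] (Forms K n) :=
  exteriorPower.ιMulti K n

/-- The rational `n`-form `da₁ ∧ ⋯ ∧ daₙ`. -/
noncomputable def wedge {n : ℕ} (a : Fin n → K) : Forms K n :=
  wedgeMap n fun i => KaehlerDifferential.D ℂ K (a i)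

namespace DivVal

variable (E : DivVal K) {n : ℕ}

/-- The order of a nonzero rational function along a prime divisor. -/
noncomputable def ord (f : K) : ℤ := -WithZero.log (E.v f)

variable (n) in
/-- The rational `n`-forms that are regular along `E`: sums of forms `g da₁ ∧ ⋯ ∧ daₙ` with `g` and
all `aᵢ` in the valuation ring of `E`. -/
noncomputable def regForms : AddSubmonoid (Forms K n) :=
  AddSubmonoid.closure {ω | ∃ (g : K) (a : Fin n → K), E.v g ≤ 1 ∧ (∀ i, E.v (a i) ≤ 1) ∧
    ω = g • wedge a}

/-- The order of vanishing of a nonzero rational `n`-form `ω` along `E`: the largest `k` such that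
`ω = g • η` with `g` of order `k` and `η` regular along `E`. -/
noncomputable def ordForm (ω : Forms K n) : ℤ :=
  sSup {k : ℤ | ∃ g : K, g ≠ 0 ∧ E.ord g = k ∧ ∃ η ∈ E.regForms n, ω = g • η}

end DivVal

end fieldLevel

/-! ## Varieties -/

/-- A normal proper integral scheme over `Spec ℂ`. -/
structure Variety where
  /-- The underlying scheme. -/
  X : Scheme.{0}
  /-- The structure morphism. -/
  str : X ⟶ Spec (CommRingCat.of ℂ)
  integral : IsIntegral X
  proper : IsProper str
  normal : ∀ x : X, IsIntegrallyClosed (X.presheaf.stalk x)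

attribute [instance] Variety.integral

namespace Variety

variable (V : Variety)

/-- The points of the underlying scheme. -/
abbrev Pt : Type := V.X

/-- The function field. -/
noncomputable abbrev FF : Type := V.X.functionField

/-- The function field as an extension of `ℂ`, by the morphism from the spectrum of the function
field to `Spec ℂ`. -/
noncomputable instance : Algebra ℂ V.FF :=
  (Spec.preimage (V.X.fromSpecStalk (genericPoint V.X) ≫ V.str)).hom.toAlgebra

/-- The local ring of `V` at `x`. -/
noncomputable abbrev stalkAt (x : V.Pt) : CommRingCat := V.X.presheaf.stalk x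

/-- The local ring of `V` at `x`, as a subset of the function field. -/
def localRing (x : V.Pt) : Set V.FF := Set.range (algebraMap (V.stalkAt x) V.FF)

/-- `x` is the center of `E` on `V`: the local ring at `x` is dominated by the valuation ring
of `E`. -/
def IsCenter (E : DivVal V.FF) (x : V.Pt) : Prop :=
  ∀ f ∈ V.localRing x, E.v f ≤ 1 ∧ (f⁻¹ ∉ V.localRing x → E.v f < 1)

/-- `E` is a prime divisor on `V` itself, with generic point `x`: the valuation ring of `E` is the
local ring at `x`. -/
def IsOn (E : DivVal V.FF) (x : V.Pt) : Prop :=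
  ∀ f : V.FF, E.v f ≤ 1 ↔ f ∈ V.localRing x

/-- Data showing that the canonical divisor of `V` is `ℚ`-Cartier: a nonzero rational `n`-form
`form`, a positive integer `m` and, for every point `y`, a local equation `eqn y` of the divisor
`m * div form` near `y`. None of the notions below depends on the choice of these data. -/
structure CanonicalData (n : ℕ) where
  /-- A rational top form. -/
  form : Forms V.FF n
  form_ne_zero : form ≠ 0
  /-- A multiple making the canonical divisor Cartier. -/
  m : ℕ
  m_pos : 0 < m
  /-- Local equations. -/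
  eqn : V.Pt → V.FF
  eqn_ne_zero : ∀ y, eqn y ≠ 0
  local_eq : ∀ (y x : V.Pt) (E : DivVal V.FF), V.IsOn E x → x ⤳ y →
    E.ord (eqn y) = m * E.ordForm form

namespace CanonicalData

variable {V} {n : ℕ} (C : V.CanonicalData n)

/-- The log discrepancy `A_V(E) = 1 + ord_E (K_Y - π^* K_V)` of a prime divisor `E` over `V` whose
center on `V` is `y`. -/
noncomputable def logDisc (E : DivVal V.FF) (y : V.Pt) : ℝ :=
  1 + E.ordForm C.form - E.ord (C.eqn y) / C.m

/-- `V` has klt singularities. -/
def IsKlt : Prop := ∀ (E : DivVal V.FF) (y : V.Pt), V.IsCenter E y → 0 < C.logDisc E y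

/-- The space of global sections of `𝒪(-N K_V)`: rational functions `φ` with
`div φ - N div form ≥ 0` (together with `0`). -/
def H0 (N : ℕ) : Set V.FF :=
  {φ | φ ≠ 0 → ∀ (E : DivVal V.FF) (x : V.Pt), V.IsOn E x → N * E.ordForm C.form ≤ E.ord φ}

/-- The anticanonical divisor is ample: `𝒪(-m K_V)`, which has the local generators `eqn y`, is an
ample line bundle. That is, every point lies in an affine open subset of the form `V_φ`, the locus
where a global section `φ` of some power of this line bundle generates it. -/
def IsAmple : Prop :=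
  ∀ y : V.Pt, ∃ k : ℕ, 0 < k ∧ ∃ φ ∈ C.H0 (k * C.m), ∃ U : V.X.Opens, IsAffineOpen U ∧ y ∈ U ∧
    ∀ z : V.Pt, z ∈ U ↔
      ∃ u ∈ V.localRing z, u ≠ 0 ∧ u⁻¹ ∈ V.localRing z ∧ φ = u * C.eqn z ^ k

/-- The order along `E` (with center `y`) of the effective `ℚ`-divisor
`D = (1 / N) (div φ - N div form)`, where `φ` is a nonzero global section of `𝒪(-N K_V)`. These are
exactly the effective `ℚ`-divisors that are `ℚ`-linearly equivalent to `-K_V`. -/
noncomputable def ordDiv (N : ℕ) (φ : V.FF) (E : DivVal V.FF) (y : V.Pt) : ℝ :=
  E.ord φ / N - E.ord (C.eqn y) / C.m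

/-- The pair `(V, t D)` is log canonical, for `D = (1 / N) (div φ - N div form)`. -/
def IsLC (N : ℕ) (φ : V.FF) (t : ℝ≥0) : Prop :=
  ∀ (E : DivVal V.FF) (y : V.Pt), V.IsCenter E y → t * C.ordDiv N φ E y ≤ C.logDisc E y

/-- The log canonical threshold `lct(V; D)` for `D = (1 / N) (div φ - N div form)`. -/
noncomputable def lct (N : ℕ) (φ : V.FF) : ℝ≥0∞ :=
  ⨆ (t : ℝ≥0) (_ : C.IsLC N φ t), (t : ℝ≥0∞)

/-- The alpha-invariant: the infimum of `lct(V; D)` over all effective `ℚ`-divisors `D` that are
`ℚ`-linearly equivalent to `-K_V`. -/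
noncomputable def alpha : ℝ≥0∞ :=
  ⨅ (N : ℕ) (φ : V.FF) (_ : 0 < N ∧ φ ∈ C.H0 N ∧ φ ≠ 0), C.lct N φ

/-- `δ_N(V)`: the infimum of `lct(V; D)` over all divisors `D` of `N`-basis type, i.e.
`D = (1 / (N h)) (div s₁ + ⋯ + div s_h)` for a basis `s₁, …, s_h` of `H⁰(V, -N K_V)`. -/
noncomputable def deltaN (N : ℕ) : ℝ≥0∞ :=
  ⨅ (h : ℕ) (s : Fin h → V.FF)
    (_ : LinearIndependent ℂ s ∧ (Submodule.span ℂ (Set.range s) : Set V.FF) = C.H0 N),
    C.lct (N * h) (∏ i, s i)

/-- The stability threshold `δ(V) = limsup δ_N(V)`, over the `N` such that `N K_V` is a multiple of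
the Cartier divisor `m K_V`. -/
noncomputable def delta : ℝ≥0∞ := limsup (fun k : ℕ => C.deltaN (k * C.m)) atTop

end CanonicalData

/-- `V` is a K-semistable klt Fano variety of dimension `n` with alpha-invariant `a`. -/
def IsKssFano (n : ℕ) (a : ℝ) : Prop :=
  Algebra.trdeg ℂ V.FF = n ∧ ∃ C : V.CanonicalData n, C.IsKlt ∧ C.IsAmple ∧ 1 ≤ C.delta ∧
    C.alpha = ENNReal.ofReal a ∧ 0 ≤ a

end Variety

/-- The set `𝒜ₙ` of alpha-invariants of K-semistable klt Fano varieties of dimension `n`. -/
def alphaSet (n : ℕ) : Set ℝ := {a | ∃ V : Variety, V.IsKssFano n a}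

end Pool.Agent.Helper19.Fano
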