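import Pool.Agent.Helper19.Fano.Alpha

/-!
# K-semistability of toric varieties with centered polytope
-/

set_option autoImplicit false
set_option linter.unusedSectionVars false
set_option linter.style.haveILetI false

open AlgebraicGeometry CategoryTheory AddMonoidAlgebra WithZero DirectSum Filter
open scoped ENNReal NNReal

namespace Pool.Agent.Helper19.Fano

/-- The space of sections as a submodule. -/
def H0sub {V : Variety} {n : ℕ} (C : V.CanonicalData n) (N : ℕ) : Submodule ℂ V.FF where
  carrier := C.H0 N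
  zero_mem' := fun h => absurd rfl h
  add_mem' {a b} ha hb := by
    rw [mem_H0_iff_v] at ha hb ⊢
    intro E x hx
    exact (E.v.map_add a b).trans (max_le (ha E x hx) (hb E x hx))
  smul_mem' c a ha := by
    rw [mem_H0_iff_v] at ha ⊢
    intro E x hx
    have h1 := ha E x hx
    have h2 := E.le_one c
    rw [Algebra.smul_def, map_mul]
    exact (mul_le_mul' h2 h1).trans (by simp)

/-- The lattice points of all multiples of the polytope have sum zero. -/
def IsCentered {n : ℕ} {J : Type} (u : J → (Fin n → ℤ) →+ ℤ) : Prop :=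
  ∀ (N : ℕ) (L : Finset (Fin n → ℤ)), (∀ w, w ∈ L ↔ ∀ j, 0 ≤ u j w + N) → ∑ w ∈ L, w = 0

section

variable {n : ℕ} {J : Type} [Finite J] {u : J → (Fin n → ℤ) →+ ℤ} (hb : IsBdd u)
  (hF : IsFacets u) (hs : IsSmall u) (hc : IsCentered u)

lemma exists_LN (hs : IsSmall u) (N : ℕ) : ∃ L : Finset (Fin n → ℤ),
    ∀ w, w ∈ L ↔ ∀ j, 0 ≤ u j w + N := by
  classical
  refine ⟨(Fintype.piFinset fun _ => Finset.Icc (-(N : ℤ)) N).filter
    (fun w => ∀ j, 0 ≤ u j w + N), fun w => ?_⟩
  rw [Finset.mem_filter, Fintype.mem_piFinset]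
  constructor
  · exact fun h => h.2
  · intro h
    refine ⟨fun i => ?_, h⟩
    have h1 := hs w N h i
    have hn : (1 : ℤ) ≤ n := by
      have : 0 < n := i.pos
      exact_mod_cast this
    rw [Finset.mem_Icc, ← abs_le]
    have h2 : 0 ≤ |w i| := abs_nonneg _
    nlinarith

/-- The lattice points of a multiple of the polytope. -/
noncomputable def LN (hs : IsSmall u) (N : ℕ) : Finset (Fin n → ℤ) := (exists_LN hs N).choose

lemma mem_LN (N : ℕ) (w : Fin n → ℤ) : w ∈ LN hs N ↔ ∀ j, 0 ≤ u j w + N :=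
  (exists_LN hs N).choose_spec w

/-- Monomials as sections. -/
noncomputable def monV (N : ℕ) (w : LN hs N) : H0sub (canon hb hF) N :=
  ⟨(tor hb).chi w.1, chi_mem_H0 hb hF ⟨(w.1, N), (mem_LN hs N w.1).mp w.2⟩⟩

lemma Φ_sum_single {ι : Type} (s : Finset ι) (w : ι → (Fin n → ℤ)) (g : ι → ℂ) :
    (tor hb).Φ (∑ i ∈ s, single (w i) (g i)) = ∑ i ∈ s, g i • (tor hb).chi (w i) := by
  rw [map_sum]
  refine Finset.sum_congr rfl fun i _ => ?_
  rw [TorusField.Φ_single, Algebra.smul_def]

lemma monV_linearIndependent (N : ℕ) : LinearIndependent ℂ (monV hb hF hs N) := by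
  classical
  rw [linearIndependent_iff']
  intro s g hg i hi
  have h1 : (tor hb).Φ (∑ w ∈ s, single w.1 (g w)) = 0 := by
    rw [Φ_sum_single]
    have := congrArg Subtype.val hg
    simpa [monV] using this
  have h2 : (∑ w ∈ s, single w.1 (g w) : LP n) = 0 := (tor hb).inj (h1.trans (map_zero _).symm)
  have h3 := congrArg (fun a => a.coeff i.1) h2
  simp only [coeff_sum, coeff_single, Finsupp.finsetSum_apply, coeff_zero, Finsupp.coe_zero,
    Pi.zero_apply] at h3
  rw [Finset.sum_eq_single_of_mem i hi] at h3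
  · simpa using h3
  · intro w _ hne
    rw [Finsupp.single_apply, if_neg]
    intro h
    exact hne (Subtype.ext h)

lemma monV_span (N : ℕ) : ⊤ ≤ Submodule.span ℂ (Set.range (monV hb hF hs N)) := by
  rintro ⟨φ, hφ⟩ -
  obtain ⟨r, rfl, hr⟩ := (mem_H0_iff hb hF N φ).mp hφ
  have h1 : (⟨(tor hb).Φ r, hφ⟩ : H0sub (canon hb hF) N) =
      ∑ w ∈ r.coeff.support.attach, r.coeff w.1 • monV hb hF hs N
        ⟨w.1, (mem_LN hs N w.1).mpr (hr w.1 w.2)⟩ := by
    apply Subtype.ext
    rw [AddSubmonoidClass.coe_finsetSum]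
    change (tor hb).Φ r = ∑ w ∈ r.coeff.support.attach, r.coeff w.1 • (tor hb).chi w.1
    rw [Finset.sum_attach (s := r.coeff.support) (f := fun w => r.coeff w • (tor hb).chi w),
      TorusField.Φ_eq_sum]
    exact Finset.sum_congr rfl fun w _ => (Algebra.smul_def _ _).symm
  rw [h1]
  exact Submodule.sum_mem _ fun w _ => Submodule.smul_mem _ _ (Submodule.subset_span ⟨_, rfl⟩)

/-- The monomial basis. -/
noncomputable def monBasis (N : ℕ) : Module.Basis (LN hs N) ℂ (H0sub (canon hb hF) N) :=
  Module.Basis.mk (monV_linearIndependent hb hF hs N) (monV_span hb hF hs N)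

lemma monBasis_apply (N : ℕ) (w : LN hs N) : monBasis hb hF hs N w = monV hb hF hs N w := by
  rw [monBasis, Module.Basis.mk_apply]

lemma monBasis_repr (N : ℕ) (r : LP n) (h : (tor hb).Φ r ∈ H0sub (canon hb hF) N) (w : LN hs N) :
    (monBasis hb hF hs N).repr ⟨(tor hb).Φ r, h⟩ w = r.coeff w.1 := by
  classical
  set x : H0sub (canon hb hF) N := ⟨(tor hb).Φ r, h⟩ with hx
  have h1 := (monBasis hb hF hs N).sum_repr x
  have h2 : (tor hb).Φ r = (tor hb).Φ
      (∑ w : LN hs N, single w.1 ((monBasis hb hF hs N).repr x w)) := by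
    rw [Φ_sum_single]
    have h3 := congrArg Subtype.val h1
    rw [AddSubmonoidClass.coe_finsetSum] at h3
    rw [hx] at h3
    refine h3.symm.trans ?_
    refine Finset.sum_congr rfl fun w _ => ?_
    rw [monBasis_apply]
    rfl
  have h4 := (tor hb).inj h2
  rw [h4, coeff_sum, Finsupp.finsetSum_apply, Finset.sum_eq_single_of_mem w (Finset.mem_univ w)]
  · simp
  · intro w' _ hne
    rw [coeff_single, Finsupp.single_apply, if_neg]
    intro h
    exact hne (Subtype.ext h)

include hs hc in
/-- Divisors of basis type have log canonical threshold at least one. -/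
theorem isLC_basis (N : ℕ) (hN : 0 < N) (h : ℕ)
    (hh : h = Module.finrank ℂ (H0sub (canon hb hF) N))
    (s : Module.Basis (Fin h) ℂ (H0sub (canon hb hF) N)) :
    (canon hb hF).IsLC (N * h) (∏ i, (s i : (toricV u hb).FF)) 1 := by
  classical
  intro E y hy
  have hcard : Fintype.card (LN hs N) = h := by
    rw [hh, Module.finrank_eq_card_basis (monBasis hb hF hs N)]
  have hpos : 0 < h := by
    rw [← hcard, Fintype.card_pos_iff]
    exact ⟨⟨0, (mem_LN hs N 0).mpr fun j => by simp⟩⟩
  let e : LN hs N ≃ Fin h := Fintype.equivFinOfCardEq hcard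
  let b := (monBasis hb hF hs N).reindex e
  have hdet : (b.toMatrix s).det ≠ 0 := by
    have := b.isUnit_det s
    rw [Module.Basis.det_apply] at this
    exact this.ne_zero
  obtain ⟨σ, hσ⟩ : ∃ σ : Equiv.Perm (Fin h), ∀ i, b.toMatrix s (σ i) i ≠ 0 := by
    by_contra hcon
    push Not at hcon
    apply hdet
    rw [Matrix.det_apply]
    apply Finset.sum_eq_zero
    intro σ _
    obtain ⟨i, hi⟩ := hcon σ
    have h0 : ∏ i, b.toMatrix s (σ i) i = 0 :=
      Finset.prod_eq_zero (f := fun i => b.toMatrix s (σ i) i) (Finset.mem_univ i) hi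
    rw [h0, smul_zero]
  set A : ℤ := 1 + (tor hb).κ E with hA
  -- the estimate for each element of the basis
  have h1 : ∀ i, E.ord (s i : (toricV u hb).FF) ≤
      E.ord ((tor hb).chi (e.symm (σ i)).1) + N * A := by
    intro i
    obtain ⟨r, hr, hr'⟩ := (mem_H0_iff hb hF N (s i).1).mp (s i).2
    have h2 : (tor hb).Φ r ∈ H0sub (canon hb hF) N := hr ▸ (s i).2
    have h3 : s i = ⟨(tor hb).Φ r, h2⟩ := Subtype.ext hr
    have h4 := hσ i
    rw [Module.Basis.toMatrix_apply, Module.Basis.repr_reindex_apply, h3,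
      monBasis_repr] at h4
    rw [hr]
    exact ord_section_le hb hs E N r hr' _ (Finsupp.mem_support_iff.mpr h4)
  have hne : ∀ i, (s i : (toricV u hb).FF) ≠ 0 := by
    intro i h0
    exact s.ne_zero i (Subtype.ext h0)
  have h5 : E.ord (∏ i, (s i : (toricV u hb).FF)) = ∑ i, E.ord (s i : (toricV u hb).FF) := by
    have : ∀ t : Finset (Fin h), E.ord (∏ i ∈ t, (s i : (toricV u hb).FF)) =
        ∑ i ∈ t, E.ord (s i : (toricV u hb).FF) := by
      intro t
      induction t using Finset.induction_on with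
      | empty => simp [E.ord_one]
      | insert a t ha ih =>
        rw [Finset.prod_insert ha, Finset.sum_insert ha, E.ord_mul (hne a)
          (Finset.prod_ne_zero_iff.mpr fun i _ => hne i), ih]
    exact this Finset.univ
  have h6 : ∑ i, E.ord ((tor hb).chi (e.symm (σ i)).1) = 0 := by
    have h7 : ∑ i, E.ord ((tor hb).chi (e.symm (σ i)).1) =
        ∑ w : LN hs N, (tor hb).xi E w.1 :=
      Equiv.sum_comp (σ.trans e.symm) (fun w : LN hs N => (tor hb).xi E w.1)
    rw [h7, Finset.sum_coe_sort (LN hs N) (fun w => (tor hb).xi E w), ← map_sum,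
      hc N (LN hs N) (mem_LN hs N), map_zero]
  have h8 : E.ord (∏ i, (s i : (toricV u hb).FF)) ≤ h * (N * A) := by
    rw [h5]
    calc ∑ i, E.ord (s i : (toricV u hb).FF)
        ≤ ∑ i : Fin h, (E.ord ((tor hb).chi (e.symm (σ i)).1) + N * A) :=
          Finset.sum_le_sum fun i _ => h1 i
      _ = h * (N * A) := by
          rw [Finset.sum_add_distrib, h6, zero_add, Finset.sum_const, Finset.card_univ,
            Fintype.card_fin, nsmul_eq_mul]
  rw [NNReal.coe_one, one_mul, ordDiv_eq, logDisc_eq]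
  apply sub_le_sub_right
  have hNh : (0 : ℝ) < ((N * h : ℕ) : ℝ) := by
    exact_mod_cast Nat.mul_pos hN hpos
  rw [div_le_iff₀ hNh]
  have h9 : (E.ord (∏ i, (s i : (toricV u hb).FF)) : ℝ) ≤ h * (N * A) := by exact_mod_cast h8
  push_cast
  rw [hA] at h9
  push_cast at h9
  linarith

include hs hc in
theorem one_le_deltaN (N : ℕ) (hN : 0 < N) : 1 ≤ (canon hb hF).deltaN N := by
  rw [Variety.CanonicalData.deltaN]
  refine le_iInf fun h => le_iInf fun s => le_iInf fun ⟨hs1, hs2⟩ => ?_
  rw [Variety.CanonicalData.lct]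
  have e : Submodule.span ℂ (Set.range s) = H0sub (canon hb hF) N := SetLike.coe_injective hs2
  let b : Module.Basis (Fin h) ℂ (H0sub (canon hb hF) N) :=
    (Module.Basis.span hs1).map (LinearEquiv.ofEq _ _ e)
  have hbs : ∀ i, (b i : (toricV u hb).FF) = s i := fun i => by
    change (((Module.Basis.span hs1).map (LinearEquiv.ofEq _ _ e)) i : (toricV u hb).FF) = s i
    rw [Module.Basis.map_apply, LinearEquiv.coe_ofEq_apply, Module.Basis.span_apply]
  have hh : h = Module.finrank ℂ (H0sub (canon hb hF) N) := by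
    rw [Module.finrank_eq_card_basis b, Fintype.card_fin]
  have h1 := isLC_basis hb hF hs hc N hN h hh b
  simp only [hbs] at h1
  exact le_iSup₂_of_le (1 : ℝ≥0) h1 (by simp)

include hs hc in
/-- K-semistability. -/
theorem one_le_delta : 1 ≤ (canon hb hF).delta := by
  rw [Variety.CanonicalData.delta]
  apply Filter.le_limsup_of_frequently_le
  · apply Filter.Eventually.frequently
    filter_upwards [Filter.eventually_gt_atTop 0] with k hk
    exact one_le_deltaN hb hF hs hc _ (Nat.mul_pos hk (canon hb hF).m_pos)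
  · isBoundedDefault

end

end Pool.Agent.Helper19.Fano
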