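import Pool.Agent.Helper19.Fano.ToricV

/-!
# The prime divisors on a toric variety
-/

set_option autoImplicit false
set_option linter.unusedSectionVars false
set_option linter.style.haveILetI false

open AlgebraicGeometry CategoryTheory AddMonoidAlgebra WithZero DirectSum

namespace Pool.Agent.Helper19.Fano

/-- Every inequality `u j ≥ -1` defines a facet, and `u j` is a primitive functional. -/
structure IsFacets {n : ℕ} {J : Type} (u : J → (Fin n → ℤ) →+ ℤ) : Prop where
  prim : ∀ j, ∃ w, u j w = 1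
  facet : ∀ j, ∃ c ∈ cone u, 0 < c.2 ∧ u j c.1 + c.2 = 0 ∧ ∀ i, i ≠ j → 0 < u i c.1 + c.2

section

variable {n : ℕ} {J : Type} [Finite J] {u : J → (Fin n → ℤ) →+ ℤ} (hb : IsBdd u)

lemma bt_v_le_hyp {E : DivVal (toricV u hb).FF} {q : MvPolynomial (Fin n) ℂ}
    (hE : (tor hb).IsHyp E q) (a : coneAlg u) : E.v (bt hb a) ≤ 1 := IsHyp_v_Φ_le hE _

/-- Hypersurfaces of the torus are prime divisors on the toric variety. -/
theorem isOn_of_isHyp {E : DivVal (toricV u hb).FF} {q : MvPolynomial (Fin n) ℂ}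
    (hE : (tor hb).IsHyp E q) : ∃ x, (toricV u hb).IsOn E x := by
  obtain ⟨x, hx⟩ := exists_point_V hb E.v 0 (fun d a _ => by simpa using bt_v_le_hyp hb hE a)
    ⟨1, one_pos, single (oneDeg u) 1, single_mem_gradeBy (degHom u) _ _, by
      rw [bt_single]
      have : (oneDeg u).1.1 = 0 := rfl
      rw [this, TorusField.chi_zero]
      simp⟩
  refine ⟨x, fun g => ⟨fun hg => ?_, ?_⟩⟩
  · obtain ⟨p, s, hs, rfl⟩ := hE.frac g hg
    obtain ⟨d, hd⟩ := exists_bound u ((polyToLP n p).coeff.support ∪ (polyToLP n s).coeff.support)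
    obtain ⟨a, ha, hap⟩ := exists_homog u d (polyToLP n p)
      (fun w hw => hd d le_rfl w (Finset.mem_union_left _ hw))
    obtain ⟨b, hb', hbs⟩ := exists_homog u d (polyToLP n s)
      (fun w hw => hd d le_rfl w (Finset.mem_union_right _ hw))
    have hbx : b ∉ pt hb x := by
      rw [hx d b hb', not_lt, bt_apply, hbs]
      have : E.v ((tor hb).Φ (polyToLP n s)) = 1 := hE.eq_one hs
      rw [this]
      simp
    obtain ⟨σ, hσ, -⟩ := exists_stalk_V hb x ha hb' hbx
    refine ⟨σ, ?_⟩
    rw [hσ, bt_apply, bt_apply, hap, hbs]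
    rfl
  · rintro ⟨s, rfl⟩
    obtain ⟨d, a, b, ha, hb', hbx, hs, -⟩ := exists_frac_V hb x s
    rw [hs, map_div₀]
    rw [hx d b hb', not_lt] at hbx
    simp only [zero_mul, exp_zero] at hbx
    exact div_le_one_of_le₀ ((bt_v_le_hyp hb hE a).trans hbx) zero_le

lemma bt_v_le_divU (j : J) {d : ℕ} {a : coneAlg u} (ha : a ∈ coneGr u d) :
    (tor hb).vU (u j) (bt hb a) ≤ exp (d : ℤ) := by
  have h1 := ((tor hb).vU_le_iff (u j) (deh u a) (-(d : ℤ))).mpr (fun w hw => by
    have := deh_support u d a ha w hw j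
    linarith)
  rwa [neg_neg] at h1

/-- The toric prime divisors. -/
noncomputable def divJ (hF : IsFacets u) (j : J) : DivVal (toricV u hb).FF :=
  (tor hb).divU (u j) (hF.prim j)

/-- The facets define prime divisors on the toric variety. -/
theorem isOn_divU (hF : IsFacets u) (j : J) : ∃ x, (toricV u hb).IsOn (divJ hb hF j) x := by
  classical
  obtain ⟨c₀, hc₀, hm, hj, hi⟩ := hF.facet j
  obtain ⟨x, hx⟩ := exists_point_V hb ((tor hb).vU (u j)) 1
    (fun d a ha => by simpa using bt_v_le_divU hb j ha)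
    ⟨c₀.2, hm, single (⟨c₀, hc₀⟩ : cone u) 1, single_mem_gradeBy (degHom u) _ _, by
      rw [bt_single, TorusField.vU_chi]
      congr 1
      simp only
      linarith⟩
  refine ⟨x, fun g => ⟨fun hg => ?_, ?_⟩⟩
  · obtain ⟨a, b, hvb, ha, hb', rfl⟩ := (tor hb).vU_frac (u j) (hF.prim j) g hg
    obtain ⟨N, hN⟩ := exists_bound u (a.coeff.support ∪ b.coeff.support)
    -- multiply with a monomial which is very negative along `j` and positive along the others
    have hmul : ∀ r : LP n, (∀ w ∈ r.coeff.support, 0 ≤ u j w) →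
        (∀ w ∈ r.coeff.support, ∀ i, 0 ≤ u i w + N) →
        ∃ a' ∈ coneGr u (N * c₀.2), deh u a' = single (N • c₀.1) 1 * r := by
      intro r hr1 hr2
      apply exists_homog
      intro w hw i
      obtain ⟨w', hw', rfl⟩ : ∃ w' ∈ r.coeff.support, N • c₀.1 + w' = w := by
        have h1 := support_coeff_mul_subset (single (N • c₀.1) 1) r hw
        rw [Finset.mem_add] at h1
        obtain ⟨y, hy, z, hz, rfl⟩ := h1
        have hy' : y = N • c₀.1 := by
          have := Finsupp.support_single_subset hy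
          simpa using this
        exact ⟨z, hz, by rw [hy']⟩
      rw [map_add, map_nsmul]
      push_cast
      rw [nsmul_eq_mul]
      by_cases hij : i = j
      · subst hij
        have h1 := hr1 w' hw'
        have h2 : u i c₀.1 = -c₀.2 := by linarith
        rw [h2]
        nlinarith
      · have h1 := hr2 w' hw' i
        have h2 := hi i hij
        nlinarith
    obtain ⟨a', ha', ha''⟩ := hmul a ha (fun w hw => hN N le_rfl w (Finset.mem_union_left _ hw))
    obtain ⟨b', hb'', hb'''⟩ := hmul b hb' (fun w hw => hN N le_rfl w (Finset.mem_union_right _ hw))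
    have hbx : b' ∉ pt hb x := by
      rw [hx _ b' hb'', not_lt, bt_apply, hb''', TorusField.Φ_single_mul, map_mul,
        TorusField.vU_chi, hvb, mul_one, exp_le_exp, map_nsmul]
      push_cast
      rw [nsmul_eq_mul]
      have h2 : u j c₀.1 = -c₀.2 := by linarith
      rw [h2]
      linarith
    obtain ⟨σ, hσ, -⟩ := exists_stalk_V hb x ha' hb'' hbx
    refine ⟨σ, ?_⟩
    rw [hσ, bt_apply, bt_apply, ha'', hb''', TorusField.Φ_single_mul, TorusField.Φ_single_mul,
      mul_div_mul_left _ _ ((tor hb).chi_ne_zero _)]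
  · rintro ⟨s, rfl⟩
    obtain ⟨d, a, b, ha, hb', hbx, hs, -⟩ := exists_frac_V hb x s
    rw [hs, map_div₀]
    rw [hx d b hb', not_lt, one_mul] at hbx
    exact div_le_one_of_le₀ ((bt_v_le_divU hb j ha).trans hbx) zero_le

/-- If no monomial vanishes at the generic point of a prime divisor then the characters are
units. -/
lemma IsOn.torus_case {E : DivVal (toricV u hb).FF} {x : (toricV u hb).X}
    (h : (toricV u hb).IsOn E x) (hx : ∀ c : cone u, (single c 1 : coneAlg u) ∉ pt hb x) :
    (∀ w, E.v ((tor hb).chi w) = 1) ∧ (tor hb).κ E = 0 := by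
  classical
  -- elements of `A` outside the prime ideal have value one
  have hunit : ∀ d, ∀ b ∈ coneGr u d, b ∉ pt hb x → E.v (bt hb b) = 1 := by
    intro d b hb' hbx
    have hd : (0, d) ∈ cone u := fun j => by simp
    have hmem : (single (⟨(0, d), hd⟩ : cone u) 1 : coneAlg u) ∈ coneGr u d :=
      single_mem_gradeBy (degHom u) (⟨(0, d), hd⟩ : cone u) 1
    have hbt : bt hb (single (⟨(0, d), hd⟩ : cone u) 1) = 1 := by
      rw [bt_single, TorusField.chi_zero]
    obtain ⟨s, hs, -⟩ := exists_stalk_V hb x hb' hmem (hx _)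
    obtain ⟨s', hs', -⟩ := exists_stalk_V hb x hmem hb' hbx
    rw [hbt, div_one] at hs
    rw [hbt] at hs'
    have h1 := (h _).mpr ⟨s, hs⟩
    have h2 := (h _).mpr ⟨s', hs'⟩
    have h0 := bt_ne_zero hb hb' (ne_zero_of_not_mem hb hbx)
    apply le_antisymm h1
    rw [one_div, map_inv₀, inv_le_one₀ (zero_lt_iff.mpr (E.v_ne_zero h0))] at h2
    exact h2
  have hchi : ∀ w, E.v ((tor hb).chi w) = 1 := by
    intro w
    obtain ⟨d, hd⟩ := exists_bound u {w}
    have hc : (w, d) ∈ cone u := fun j => hd d le_rfl w (Finset.mem_singleton_self w) j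
    have h1 := hunit d (single (⟨(w, d), hc⟩ : cone u) 1)
      (single_mem_gradeBy (degHom u) (⟨(w, d), hc⟩ : cone u) 1) (hx _)
    rwa [bt_single] at h1
  refine ⟨hchi, ?_⟩
  apply le_antisymm _ ((tor hb).κ_nonneg E fun i => hchi _)
  apply (tor hb).κ_le
  intro a ha
  rw [exp_zero]
  apply TorusField.v_det_le_one
  intro i j
  change E.v ((tor hb).θ i (a j)) ≤ 1
  have hΦ : ∀ r, E.v ((tor hb).Φ r) ≤ 1 := by
    intro r
    rw [TorusField.Φ_eq_sum]
    apply Valuation.map_sum_le
    intro w _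
    rw [map_mul, hchi, mul_one]
    exact E.le_one _
  have hθ : ∀ r, E.v ((tor hb).θ i ((tor hb).Φ r)) ≤ 1 := by
    intro r
    rw [TorusField.θ_Φ]
    apply Valuation.map_sum_le
    intro w _
    rw [map_mul, map_mul, hchi, mul_one]
    exact mul_le_one' (TorusField.v_int_le E _) (E.le_one _)
  obtain ⟨s, hs⟩ := (h (a j)).mp (ha j)
  obtain ⟨d, p, q, hp, hq, hqx, hpq, -⟩ := exists_frac_V hb x s
  rw [← hs, hpq]
  exact TorusField.v_derivation_div E.v ((tor hb).θ i) (hunit d q hq hqx) (hΦ _) (hθ _) (hθ _)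

/-- If some monomial vanishes at the generic point then the divisor is toric. -/
lemma IsOn.boundary_case (hF : IsFacets u) {E : DivVal (toricV u hb).FF} {x : (toricV u hb).X}
    (h : (toricV u hb).IsOn E x) (hx : ∃ c : cone u, (single c 1 : coneAlg u) ∈ pt hb x) :
    ∃ j, E.v = (tor hb).vU (u j) ∧
      ∀ c : cone u, (single c 1 : coneAlg u) ∉ pt hb x → u j c.1.1 + c.1.2 = 0 := by
  classical
  haveI := Fintype.ofFinite J
  obtain ⟨c, hc⟩ := hx
  -- the face argument
  have hface : ∃ j, (∀ f : cone u, (single f 1 : coneAlg u) ∉ pt hb x →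
      u j f.1.1 + f.1.2 = 0) := by
    by_contra hcon
    push Not at hcon
    choose f hf hf' using hcon
    obtain ⟨g, hg, hgx⟩ := exists_pos_not_mem hb x
    set F : cone u := (∑ j, f j) + g with hFdef
    have hFx : (single F 1 : coneAlg u) ∉ pt hb x := by
      rw [hFdef, single_add_not_mem]
      exact ⟨single_sum_not_mem hb _ _ fun j _ => hf j, hgx⟩
    have hFpos : ∀ j, 0 < u j F.1.1 + F.1.2 := by
      intro j
      have h1 : u j F.1.1 + (F.1.2 : ℤ) = (∑ i, (u j (f i).1.1 + ((f i).1.2 : ℤ))) +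
          (u j g.1.1 + g.1.2) := by
        rw [hFdef]
        simp only [AddSubmonoid.coe_add, Prod.fst_add, map_add, Prod.snd_add, Nat.cast_add,
          AddSubmonoid.coe_finsetSum, Prod.fst_sum, map_sum, Prod.snd_sum, Nat.cast_sum,
          Finset.sum_add_distrib]
        ring
      rw [h1]
      have h2 : 0 < u j (f j).1.1 + ((f j).1.2 : ℤ) :=
        lt_of_le_of_ne ((f j).2 j) (Ne.symm (hf' j))
      have h3 : u j (f j).1.1 + ((f j).1.2 : ℤ) ≤ ∑ i, (u j (f i).1.1 + ((f i).1.2 : ℤ)) :=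
        Finset.single_le_sum (f := fun i => u j (f i).1.1 + ((f i).1.2 : ℤ))
          (fun i _ => (f i).2 j) (Finset.mem_univ j)
      have h4 := g.2 j
      linarith
    have hFdeg : 0 < F.1.2 := by
      rw [hFdef]
      simp only [AddSubmonoid.coe_add, Prod.snd_add]
      omega
    -- a large multiple of `F` minus `c` lies in the cone
    obtain ⟨N, hN⟩ : ∃ N : ℕ, c.1.2 ≤ N * F.1.2 ∧ ∀ j, u j c.1.1 + c.1.2 ≤
        N * (u j F.1.1 + F.1.2) := by
      refine ⟨c.1.2 + ∑ j, (u j c.1.1 + c.1.2).toNat, ?_, fun j => ?_⟩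
      · exact (Nat.le_add_right _ _).trans (Nat.le_mul_of_pos_right _ hFdeg)
      · have h5 := hFpos j
        have h6 : (u j c.1.1 + c.1.2).toNat ≤ ∑ j, (u j c.1.1 + c.1.2).toNat :=
          Finset.single_le_sum (f := fun j => (u j c.1.1 + c.1.2).toNat)
            (fun _ _ => Nat.zero_le _) (Finset.mem_univ j)
        have h7 : u j c.1.1 + c.1.2 ≤
            ((c.1.2 + ∑ j, (u j c.1.1 + c.1.2).toNat : ℕ) : ℤ) := by
          have := Int.self_le_toNat (u j c.1.1 + c.1.2)
          push_cast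
          have h8 : ((u j c.1.1 + c.1.2).toNat : ℤ) ≤
              ((∑ j, (u j c.1.1 + c.1.2).toNat : ℕ) : ℤ) := by exact_mod_cast h6
          push_cast at h8
          have h9 : (0 : ℤ) ≤ c.1.2 := by positivity
          linarith
        nlinarith
    have hd : (N • F.1.1 - c.1.1, N * F.1.2 - c.1.2) ∈ cone u := by
      intro j
      have h10 := hN.2 j
      have e1 : u j (N • F.1.1 - c.1.1) = N * u j F.1.1 - u j c.1.1 := by
        rw [map_sub, map_nsmul, nsmul_eq_mul]
      change 0 ≤ u j (N • F.1.1 - c.1.1) + ((N * F.1.2 - c.1.2 : ℕ) : ℤ)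
      rw [e1]
      push_cast [hN.1]
      linarith
    have hsum : (⟨_, hd⟩ : cone u) + c = N • F := by
      apply Subtype.ext
      apply Prod.ext
      · simp
      · have e2 : (N • F : cone u).1.2 = N * F.1.2 := by simp
        change (N * F.1.2 - c.1.2) + c.1.2 = (N • F : cone u).1.2
        rw [e2, Nat.sub_add_cancel hN.1]
    have h8 := single_nsmul_not_mem hb N hFx
    rw [← hsum, single_add_not_mem] at h8
    exact h8.2 hc
  obtain ⟨j, hj⟩ := hface
  refine ⟨j, ?_, hj⟩
  apply DivVal.v_eq_of_le E.surj ((tor hb).vU_surjective (u j) (hF.prim j))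
  intro g hg
  obtain ⟨s, rfl⟩ := (h g).mp hg
  obtain ⟨d, a, b, ha, hb', hbx, hs, -⟩ := exists_frac_V hb x s
  rw [hs, map_div₀]
  have h1 := bt_v_le_divU hb j ha
  have h2 : exp (d : ℤ) ≤ (tor hb).vU (u j) (bt hb b) := by
    obtain ⟨c', hc', hc'x⟩ := exists_support_not_mem hb hbx
    have h3 := hj c' hc'x
    have hdeg : c'.1.2 = d := hb' c' hc'
    by_contra hlt
    rw [not_le, bt_apply, ← neg_neg (d : ℤ), TorusField.vU_lt_iff] at hlt
    have h4 : c'.1.1 ∈ (deh u b).coeff.support := by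
      rw [Finsupp.mem_support_iff, deh_coeff u d b hb' c' hdeg]
      exact Finsupp.mem_support_iff.mp hc'
    have := hlt c'.1.1 h4
    rw [hdeg] at h3
    linarith
  exact div_le_one_of_le₀ (h1.trans h2) zero_le

lemma DivVal.ext_v {K : Type} [Field K] [Algebra ℂ K] {E E' : DivVal K} (h : E.v = E'.v) :
    E = E' := by
  cases E
  cases E'
  simp only at h
  subst h
  rfl

/-- The classification of the prime divisors on the toric variety. -/
theorem IsOn.cases (hF : IsFacets u) {E : DivVal (toricV u hb).FF} {x : (toricV u hb).X}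
    (h : (toricV u hb).IsOn E x) :
    ((∀ w, E.v ((tor hb).chi w) = 1) ∧ (tor hb).κ E = 0) ∨
    ∃ j, E = divJ hb hF j ∧
      ∀ c : cone u, (single c 1 : coneAlg u) ∉ pt hb x → u j c.1.1 + c.1.2 = 0 := by
  by_cases hx : ∃ c : cone u, (single c 1 : coneAlg u) ∈ pt hb x
  · obtain ⟨j, hj, hj'⟩ := IsOn.boundary_case hb hF h hx
    exact Or.inr ⟨j, DivVal.ext_v hj, hj'⟩
  · push Not at hx
    exact Or.inl (IsOn.torus_case hb h hx)

end

end Pool.Agent.Helper19.Fano
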