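import Pool.Agent.Helper19.Fano.Defs

/-!
# Basic facts about divisorial valuations
-/

set_option autoImplicit false
set_option linter.unusedSectionVars false

open WithZero

namespace Pool.Agent.Helper19.Fano

namespace DivVal

variable {K : Type} [Field K] [Algebra ℂ K] (E : DivVal K)

lemma v_const {c : ℂ} (hc : c ≠ 0) : E.v (algebraMap ℂ K c) = 1 := by
  apply le_antisymm (E.le_one c)
  have h1 := E.le_one c⁻¹
  rw [map_inv₀, map_inv₀] at h1
  have h2 : E.v (algebraMap ℂ K c) ≠ 0 := by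
    rw [Ne, map_eq_zero, map_eq_zero]; exact hc
  rwa [inv_le_one₀ (zero_lt_iff.mpr h2)] at h1

lemma v_ne_zero {f : K} (hf : f ≠ 0) : E.v f ≠ 0 := by
  rwa [Ne, map_eq_zero]

lemma v_eq_exp {f : K} (hf : f ≠ 0) : E.v f = exp (-E.ord f) := by
  rw [ord, neg_neg, exp_log (E.v_ne_zero hf)]

lemma ord_eq_of_v {f : K} {k : ℤ} (h : E.v f = exp (-k)) : E.ord f = k := by
  rw [ord, h, log_exp, neg_neg]

lemma ord_mul {f g : K} (hf : f ≠ 0) (hg : g ≠ 0) : E.ord (f * g) = E.ord f + E.ord g := by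
  rw [ord, ord, ord, map_mul, log_mul (E.v_ne_zero hf) (E.v_ne_zero hg)]
  ring

lemma ord_one : E.ord 1 = 0 := by
  rw [ord, map_one, log_one, neg_zero]

lemma ord_inv (f : K) : E.ord f⁻¹ = - E.ord f := by
  rw [ord, ord, map_inv₀, log_inv]

lemma ord_pow (f : K) (k : ℕ) : E.ord (f ^ k) = k * E.ord f := by
  rw [ord, ord, map_pow, log_pow]
  simp

lemma ord_zpow (f : K) (k : ℤ) : E.ord (f ^ k) = k * E.ord f := by
  rw [ord, ord, map_zpow₀, log_zpow]
  simp

lemma ord_div {f g : K} (hf : f ≠ 0) (hg : g ≠ 0) : E.ord (f / g) = E.ord f - E.ord g := by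
  rw [div_eq_mul_inv, E.ord_mul hf (inv_ne_zero hg), ord_inv]
  ring

lemma ord_const {c : ℂ} (hc : c ≠ 0) : E.ord (algebraMap ℂ K c) = 0 := by
  apply E.ord_eq_of_v
  rw [E.v_const hc, neg_zero, exp_zero]

lemma v_le_exp_iff {f : K} (hf : f ≠ 0) (k : ℤ) : E.v f ≤ exp k ↔ -k ≤ E.ord f := by
  rw [E.v_eq_exp hf, exp_le_exp]
  constructor <;> intro h <;> linarith

lemma v_lt_exp_iff {f : K} (hf : f ≠ 0) (k : ℤ) : E.v f < exp k ↔ -k < E.ord f := by
  rw [E.v_eq_exp hf, exp_lt_exp]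
  constructor <;> intro h <;> linarith

lemma v_le_one_iff {f : K} (hf : f ≠ 0) : E.v f ≤ 1 ↔ 0 ≤ E.ord f := by
  have := E.v_le_exp_iff hf 0
  simpa using this

lemma v_lt_one_iff {f : K} (hf : f ≠ 0) : E.v f < 1 ↔ 0 < E.ord f := by
  have := E.v_lt_exp_iff hf 0
  simpa using this

lemma v_eq_one_iff {f : K} (hf : f ≠ 0) : E.v f = 1 ↔ E.ord f = 0 := by
  rw [E.v_eq_exp hf, exp_eq_one]
  constructor <;> intro h <;> linarith

lemma exists_unif : ∃ t : K, E.v t = exp (-1) := E.surj _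

lemma mem_valRing {f : K} : f ∈ valRing E.v E.le_one ↔ E.v f ≤ 1 := Iff.rfl

/-- A discrete valuation is determined by an inclusion of valuation rings. -/
lemma v_eq_of_le {v w : Valuation K ℤᵐ⁰} (hv : Function.Surjective v) (hw : Function.Surjective w)
    (h : ∀ f, v f ≤ 1 → w f ≤ 1) : v = w := by
  obtain ⟨t, ht⟩ := hv (exp (-1))
  obtain ⟨s, hs⟩ := hw (exp (-1))
  have ht0 : t ≠ 0 := by
    rintro rfl
    rw [map_zero] at ht
    exact exp_ne_zero ht.symm
  have hs0 : s ≠ 0 := by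
    rintro rfl
    rw [map_zero] at hs
    exact exp_ne_zero hs.symm
  -- units go to units
  have hu : ∀ f, v f = 1 → w f = 1 := by
    intro f hf
    have h1 := h f hf.le
    have h2 := h f⁻¹ (by rw [map_inv₀, hf, inv_one])
    have hf0 : f ≠ 0 := by
      rintro rfl
      rw [map_zero] at hf
      exact zero_ne_one hf
    apply le_antisymm h1
    rw [map_inv₀] at h2
    rwa [inv_le_one₀ (zero_lt_iff.mpr (by rwa [Ne, map_eq_zero]))] at h2
  have hform : ∀ f, f ≠ 0 → ∃ k : ℤ, v f = exp (-k) ∧ w f = w t ^ k := by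
    intro f hf
    have hvf : v f ≠ 0 := by rwa [Ne, map_eq_zero]
    refine ⟨-log (v f), by rw [neg_neg, exp_log hvf], ?_⟩
    have h3 : v (f / t ^ (-log (v f))) = 1 := by
      rw [map_div₀, map_zpow₀, ht, ← exp_zsmul]
      simp only [smul_eq_mul, mul_neg, mul_one, neg_neg]
      rw [exp_log hvf, div_self hvf]
    have h4 := hu _ h3
    rw [map_div₀, map_zpow₀] at h4
    have h5 : w t ^ (-log (v f)) ≠ 0 := zpow_ne_zero _ (by rwa [Ne, map_eq_zero])
    rwa [div_eq_one_iff_eq h5] at h4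
  have hwt : w t = exp (-1) := by
    obtain ⟨k, hk1, hk2⟩ := hform s hs0
    have hwt0 : w t ≠ 0 := by rwa [Ne, map_eq_zero]
    have h6 : w t ≤ 1 := h t (by rw [ht, ← exp_zero, exp_le_exp]; norm_num)
    rw [← exp_log hwt0, ← exp_zsmul, hs, exp_inj] at hk2
    rw [← exp_log hwt0, ← exp_zero, exp_le_exp] at h6
    rw [← exp_log hwt0, exp_inj]
    simp only [smul_eq_mul] at hk2
    have h7 : k * (-log (w t)) = 1 := by linarith
    have h8 := Int.eq_one_or_neg_one_of_mul_eq_one' h7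
    rcases h8 with ⟨-, h9⟩ | ⟨-, h9⟩
    · linarith
    · linarith
  ext f
  by_cases hf : f = 0
  · rw [hf, map_zero, map_zero]
  · obtain ⟨k, hk1, hk2⟩ := hform f hf
    rw [hk1, hk2, hwt, ← exp_zsmul]
    congr 1
    simp

end DivVal

end Pool.Agent.Helper19.Fano
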