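import Pool.Agent.Helper19.Fano.TorusField
import Pool.Agent.Helper19.Fano.ValLemmas

/-!
# Orders of the logarithmic top form along divisorial valuations
-/

set_option autoImplicit false
set_option linter.unusedSectionVars false
set_option linter.style.haveILetI false

open WithZero

namespace Pool.Agent.Helper19.Fano

section dlog

variable {K : Type} [Field K] [Algebra ℂ K]

/-- The logarithmic differential. -/
noncomputable def dlog (a : K) : Ω[K⁄ℂ] := a⁻¹ • KaehlerDifferential.D ℂ K a

lemma dlog_mul {a b : K} (ha : a ≠ 0) (hb : b ≠ 0) : dlog (a * b) = dlog a + dlog b := by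
  rw [dlog, dlog, dlog, Derivation.leibniz, smul_add, smul_smul, smul_smul, mul_inv]
  have h1 : a⁻¹ * b⁻¹ * a = b⁻¹ := by field_simp
  have h2 : a⁻¹ * b⁻¹ * b = a⁻¹ := by field_simp
  rw [h1, h2, add_comm]

lemma dlog_one : dlog (1 : K) = 0 := by
  rw [dlog, Derivation.map_one_eq_zero, smul_zero]

lemma dlog_inv {a : K} (ha : a ≠ 0) : dlog a⁻¹ = - dlog a := by
  have h1 := dlog_mul ha (inv_ne_zero ha)
  rw [mul_inv_cancel₀ ha, dlog_one] at h1
  exact (neg_eq_of_add_eq_zero_right h1.symm).symm

lemma dlog_pow {a : K} (ha : a ≠ 0) (k : ℕ) : dlog (a ^ k) = (k : K) • dlog a := by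
  induction k with
  | zero => rw [pow_zero, dlog_one, Nat.cast_zero, zero_smul]
  | succ k ih =>
    rw [pow_succ, dlog_mul (pow_ne_zero k ha) ha, ih, Nat.cast_succ, add_smul, one_smul]

lemma dlog_zpow {a : K} (ha : a ≠ 0) (k : ℤ) : dlog (a ^ k) = (k : K) • dlog a := by
  obtain ⟨m, rfl | rfl⟩ := k.eq_nat_or_neg
  · rw [zpow_natCast, dlog_pow ha]
    simp
  · rw [zpow_neg, zpow_natCast, dlog_inv (pow_ne_zero m ha), dlog_pow ha]
    simp

end dlog

section logform

variable {K : Type} [Field K] [Algebra ℂ K] {n : ℕ} (E : DivVal K)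

/-- The module of rational `n`-forms that are regular along `E`, as a module over the valuation
ring of `E`. -/
noncomputable def DivVal.regSub (E : DivVal K) (n : ℕ) :
    Submodule (valRing E.v E.le_one) (⋀[K]^n Ω[K⁄ℂ]) :=
  Submodule.span (valRing E.v E.le_one) (Set.range fun a : Fin n → valRing E.v E.le_one =>
    exteriorPower.ιMulti K n fun i => KaehlerDifferential.D ℂ K (a i : K))

/-- The order of an `n`-form along `E`. -/
noncomputable def DivVal.ordSub (E : DivVal K) {n : ℕ} (ω : ⋀[K]^n Ω[K⁄ℂ]) : ℤ :=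
  sSup {k : ℤ | ∃ g : K, g ≠ 0 ∧ E.ord g = k ∧ ∃ η ∈ E.regSub n, ω = g • η}

lemma smul_mem_regSub {c : K} (hc : E.v c ≤ 1) {η : ⋀[K]^n Ω[K⁄ℂ]} (hη : η ∈ E.regSub n) :
    c • η ∈ E.regSub n := (E.regSub n).smul_mem ⟨c, hc⟩ hη

lemma mem_regSub_of {g h : Fin n → K} {t : K} (hh : ∀ i, E.v (h i) ≤ 1)
    (hg : E.v (t * ∏ i, g i) ≤ 1) :
    t • exteriorPower.ιMulti K n (fun i => g i • KaehlerDifferential.D ℂ K (h i)) ∈
      E.regSub n := by
  have h1 : exteriorPower.ιMulti K n (fun i => g i • KaehlerDifferential.D ℂ K (h i)) =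
      (∏ i, g i) • exteriorPower.ιMulti K n (fun i => KaehlerDifferential.D ℂ K (h i)) :=
    (exteriorPower.ιMulti K n).toMultilinearMap.map_smul_univ g _
  rw [h1, smul_smul]
  apply smul_mem_regSub E hg
  exact Submodule.subset_span ⟨fun i => ⟨h i, hh i⟩, rfl⟩

/-- Logarithmic forms have at most simple poles. -/
theorem log_mem (t : K) (ht : E.v t = exp (-1)) (a : Fin n → K) (ha : ∀ i, a i ≠ 0) :
    t • exteriorPower.ιMulti K n (fun i => dlog (a i)) ∈ E.regSub n := by
  classical
  have ht0 : t ≠ 0 := by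
    rintro rfl
    rw [map_zero] at ht
    exact exp_ne_zero ht.symm
  have hordt : E.ord t = 1 := E.ord_eq_of_v ht
  set k : Fin n → ℤ := fun i => E.ord (a i) with hk
  set b : Fin n → K := fun i => a i / t ^ k i with hb
  have hb0 : ∀ i, b i ≠ 0 := fun i => div_ne_zero (ha i) (zpow_ne_zero _ ht0)
  have hb1 : ∀ i, E.v (b i) = 1 := by
    intro i
    rw [E.v_eq_one_iff (hb0 i), hb]
    simp only
    rw [E.ord_div (ha i) (zpow_ne_zero _ ht0), E.ord_zpow, hordt]
    simp [hk]
  have hdl : ∀ i, dlog (a i) = (b i)⁻¹ • KaehlerDifferential.D ℂ K (b i) +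
      ((k i : K) * t⁻¹) • KaehlerDifferential.D ℂ K t := by
    intro i
    have h1 : a i = b i * t ^ k i := by
      rw [hb]
      simp only
      rw [div_mul_cancel₀ _ (zpow_ne_zero _ ht0)]
    conv_lhs => rw [h1]
    rw [dlog_mul (hb0 i) (zpow_ne_zero _ ht0), dlog_zpow ht0, dlog, dlog, smul_smul]
  have h2 : exteriorPower.ιMulti K n (fun i => dlog (a i)) =
      ∑ s : Finset (Fin n), exteriorPower.ιMulti K n
        (fun i => (if i ∈ s then (b i)⁻¹ else (k i : K) * t⁻¹) •
          KaehlerDifferential.D ℂ K (if i ∈ s then b i else t)) := by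
    rw [show (fun i => dlog (a i)) = (fun i => (b i)⁻¹ • KaehlerDifferential.D ℂ K (b i)) +
      (fun i => ((k i : K) * t⁻¹) • KaehlerDifferential.D ℂ K t) from funext hdl]
    rw [AlternatingMap.map_add_univ]
    refine Finset.sum_congr rfl fun s _ => ?_
    congr 1
    ext i
    by_cases hi : i ∈ s
    · simp [hi, Finset.piecewise]
    · simp [hi, Finset.piecewise]
  rw [h2, Finset.smul_sum]
  refine Submodule.sum_mem _ fun s _ => ?_
  by_cases hs : ∃ i j, i ≠ j ∧ i ∉ s ∧ j ∉ s
  · obtain ⟨i, j, hij, hi, hj⟩ := hs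
    have h3 : exteriorPower.ιMulti K n
        (fun i => (if i ∈ s then (b i)⁻¹ else (k i : K) * t⁻¹) •
          KaehlerDifferential.D ℂ K (if i ∈ s then b i else t)) =
        (∏ i, (if i ∈ s then (b i)⁻¹ else (k i : K) * t⁻¹)) • exteriorPower.ιMulti K n
          (fun i => KaehlerDifferential.D ℂ K (if i ∈ s then b i else t)) :=
      (exteriorPower.ιMulti K n).toMultilinearMap.map_smul_univ _ _
    have h4 : exteriorPower.ιMulti K n
        (fun i => KaehlerDifferential.D ℂ K (if i ∈ s then b i else t)) = 0 := by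
      apply AlternatingMap.map_eq_zero_of_eq _ _ _ hij
      simp [hi, hj]
    rw [h3, h4, smul_zero, smul_zero]
    exact zero_mem _
  · push Not at hs
    apply mem_regSub_of
    · intro i
      split_ifs
      · exact (hb1 i).le
      · rw [ht, ← exp_zero, exp_le_exp]
        norm_num
    · have hint : ∀ m : ℤ, E.v ((m : K)) ≤ 1 := by
        intro m
        have := E.le_one (m : ℂ)
        simpa using this
      have h5 : ∀ i ∈ s, E.v (if i ∈ s then (b i)⁻¹ else (k i : K) * t⁻¹) = 1 := by
        intro i hi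
        rw [if_pos hi, map_inv₀, hb1, inv_one]
      have h6 : ∀ i ∉ s, E.v (if i ∈ s then (b i)⁻¹ else (k i : K) * t⁻¹) ≤ exp 1 := by
        intro i hi
        rw [if_neg hi, map_mul, map_inv₀, ht, exp_neg, inv_inv]
        calc E.v (k i : K) * exp 1 ≤ 1 * exp 1 := mul_le_mul_left (hint _) _
          _ = exp 1 := one_mul _
      rw [map_mul, map_prod, ht]
      by_cases hall : ∀ i, i ∈ s
      · rw [Finset.prod_congr rfl (fun i _ => h5 i (hall i)), Finset.prod_const_one, mul_one,
          ← exp_zero, exp_le_exp]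
        norm_num
      · push Not at hall
        obtain ⟨j, hj⟩ := hall
        rw [← Finset.mul_prod_erase Finset.univ _ (Finset.mem_univ j)]
        have h7 : ∏ i ∈ Finset.univ.erase j, E.v (if i ∈ s then (b i)⁻¹ else (k i : K) * t⁻¹) =
            1 := by
          apply Finset.prod_eq_one
          intro i hi
          apply h5
          by_contra hi'
          exact (Finset.ne_of_mem_erase hi) (by
            by_contra hne
            exact hj (hs i j hne hi'))
        rw [h7, mul_one]
        calc exp (-1) * E.v (if j ∈ s then (b j)⁻¹ else (k j : K) * t⁻¹)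
            ≤ exp (-1) * exp 1 := mul_le_mul_right (h6 j hj) _
          _ = 1 := by rw [← exp_add]; simp

lemma wedge_eq (a : Fin n → K) : (wedge a : Forms K n) =
    exteriorPower.ιMulti K n fun i => KaehlerDifferential.D ℂ K (a i) := rfl

lemma mem_regForms_iff (η : Forms K n) :
    η ∈ E.regForms n ↔ (show ⋀[K]^n Ω[K⁄ℂ] from η) ∈ E.regSub n := by
  constructor
  · intro h
    induction h using AddSubmonoid.closure_induction with
    | mem x hx =>
      obtain ⟨g, a, hg, ha, rfl⟩ := hx
      exact smul_mem_regSub E hg (Submodule.subset_span ⟨fun i => ⟨a i, ha i⟩, rfl⟩)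
    | zero => exact (E.regSub n).zero_mem
    | add x y _ _ hx hy => exact (E.regSub n).add_mem hx hy
  · intro h
    have h' : ∀ η : ⋀[K]^n Ω[K⁄ℂ], η ∈ E.regSub n → (show Forms K n from η) ∈ E.regForms n := by
      intro η hη
      induction hη using Submodule.span_induction with
      | mem x hx =>
        obtain ⟨a, rfl⟩ := hx
        refine AddSubmonoid.subset_closure ⟨1, fun i => a i, by rw [map_one], fun i => (a i).2, ?_⟩
        exact (one_smul K _).symm
      | zero => exact (E.regForms n).zero_mem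
      | add x y _ _ hx hy => exact (E.regForms n).add_mem hx hy
      | smul r x _ hx =>
        have h2 : ∀ y : Forms K n, y ∈ E.regForms n → (r : K) • y ∈ E.regForms n := by
          intro y hy
          induction hy using AddSubmonoid.closure_induction with
          | mem x hx =>
            obtain ⟨g, a, hg, ha, rfl⟩ := hx
            refine AddSubmonoid.subset_closure ⟨r * g, a, ?_, ha, ?_⟩
            · rw [map_mul]
              exact mul_le_one' r.2 hg
            · rw [mul_smul]
          | zero => rw [smul_zero]; exact (E.regForms n).zero_mem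
          | add x y _ _ hx hy => rw [smul_add]; exact (E.regForms n).add_mem hx hy
        exact h2 _ hx
    exact h' η h

lemma ordForm_eq_ordSub (ω : Forms K n) :
    E.ordForm ω = E.ordSub (show ⋀[K]^n Ω[K⁄ℂ] from ω) := by
  unfold DivVal.ordForm DivVal.ordSub
  congr 1
  ext k
  constructor
  · rintro ⟨g, hg, hk, η, hη, h⟩
    exact ⟨g, hg, hk, η, (mem_regForms_iff E η).mp hη, h⟩
  · rintro ⟨g, hg, hk, η, hη, h⟩
    exact ⟨g, hg, hk, η, (mem_regForms_iff E η).mpr hη, h⟩

end logform

end Pool.Agent.Helper19.Fano
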