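import Pool.Agent.Helper19.Fano.Polytope

/-!
# Alpha-invariants of K-semistable Fano varieties accumulate at `1 / (n + 1)` from above
-/

set_option autoImplicit false

open Filter Topology

namespace Pool.Agent.Helper19.Fano

/-- For every `B` there is a K-semistable Fano variety with alpha-invariant close to
`1 / (n + 1)`. -/
lemma exists_member {n B : ℕ} (hn : 2 ≤ n) (hB : 2 * n + 1 ≤ B) :
    ∃ a ∈ alphaSet n, 1 / ((n : ℝ) + 1) < a ∧ a ≤ 1 / ((n : ℝ) + 1) * (1 + 1 / (n * B + 1)) := by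
  have hnR : (2 : ℝ) ≤ n := by exact_mod_cast hn
  have hBB : (2 * n + 1 : ℝ) ≤ B := by exact_mod_cast hB
  have hB0 : (0 : ℝ) < B := by linarith
  obtain ⟨w, hw, hw'⟩ := fam_point hn hB
  have hq : 0 < (n * B + 1) * (B + 1) := by positivity
  have hwZ : (0 : ℤ) < fam n B (Sum.inl 0) w + ((n * B + 2 : ℕ) : ℤ) := by
    rw [hw']
    have hnB : (2 : ℤ) ≤ n := by exact_mod_cast hn
    have h5 : (0 : ℤ) ≤ n * B := by positivity
    push_cast
    nlinarith
  obtain ⟨a, ha, h1, h2⟩ := exists_kssFano (fam_bdd hn hB) (fam_facets hn hB) (fam_small hn hB)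
    (fam_centered hn hB) (n * ((n * B + 1) * (B + 1)) - B) ((n * B + 1) * (B + 1)) hq
    (fam_height hn hB) (Sum.inl 0) w (n * B + 2) (by positivity) hw hwZ
  refine ⟨a, ha, ?_, ?_⟩
  · refine lt_of_lt_of_le ?_ h1
    have hle : B ≤ n * ((n * B + 1) * (B + 1)) := by
      have hle0 : B ≤ (n * B + 1) * (B + 1) :=
        (Nat.le_succ B).trans (Nat.le_mul_of_pos_left _ (Nat.succ_pos _))
      exact hle0.trans (Nat.le_mul_of_pos_left _ (by omega))
    push_cast [hle]
    have hX : (0 : ℝ) < (n * B + 1) * (B + 1) := by positivity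
    have hBX : (B : ℝ) < (n * B + 1) * (B + 1) := by
      have g1 : (0 : ℝ) ≤ n * B := by positivity
      have g2 : (1 : ℝ) * (B + 1) ≤ (n * B + 1) * (B + 1) :=
        mul_le_mul_of_nonneg_right (by linarith) (by linarith)
      linarith
    rw [div_lt_div_iff₀ (by positivity) (by nlinarith)]
    nlinarith
  · refine h2.trans (le_of_eq ?_)
    rw [hw']
    push_cast
    have h3 : ((n : ℝ) * B + 1) ≠ 0 := by positivity
    have h4 : ((n : ℝ) + 1) ≠ 0 := by positivity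
    have h5 : ((n : ℝ) * B + 1) * n - 1 + (n * B + 2) = (n * B + 1) * (n + 1) := by ring
    rw [h5]
    field_simp
    ring

/-- Alpha-invariants accumulate at `1 / (n + 1)` from above. -/
theorem exists_between {n : ℕ} (hn : 2 ≤ n) (ε : ℝ) (hε : 0 < ε) :
    ∃ a ∈ alphaSet n, 1 / ((n : ℝ) + 1) < a ∧ a < 1 / ((n : ℝ) + 1) + ε := by
  obtain ⟨N, hN⟩ := exists_nat_gt (1 / ε)
  obtain ⟨a, ha, h1, h2⟩ := exists_member (B := 2 * n + 1 + N) hn (by omega)
  refine ⟨a, ha, h1, h2.trans_lt ?_⟩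
  have hnR : (2 : ℝ) ≤ n := by exact_mod_cast hn
  have hNR : (0 : ℝ) ≤ N := by positivity
  have h3 : 1 / ((n : ℝ) * ((2 * n + 1 + N : ℕ) : ℝ) + 1) < ε := by
    rw [div_lt_iff₀ (by positivity)]
    rw [div_lt_iff₀ hε] at hN
    push_cast
    have g1 : (N : ℝ) ≤ n * (2 * n + 1 + N) + 1 := by nlinarith
    have g2 := mul_le_mul_of_nonneg_left g1 hε.le
    linarith
  have h4 : 1 / ((n : ℝ) + 1) ≤ 1 := by
    rw [div_le_one (by positivity)]
    linarith
  have h5 : 0 < 1 / ((n : ℝ) + 1) := by positivity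
  have h6 : 0 < 1 / ((n : ℝ) * ((2 * n + 1 + N : ℕ) : ℝ) + 1) := by positivity
  rw [mul_add, mul_one]
  have h7 : 1 / ((n : ℝ) + 1) * (1 / ((n : ℝ) * ((2 * n + 1 + N : ℕ) : ℝ) + 1)) ≤
      1 * (1 / ((n : ℝ) * ((2 * n + 1 + N : ℕ) : ℝ) + 1)) :=
    mul_le_mul_of_nonneg_right h4 h6.le
  linarith

/-- There is a strictly decreasing sequence of alpha-invariants. -/
theorem exists_strictAnti {n : ℕ} (hn : 2 ≤ n) : ∃ a : ℕ → ℝ, StrictAnti a ∧
    (∀ k, a k ∈ alphaSet n) ∧ Tendsto a atTop (𝓝 (1 / ((n : ℝ) + 1))) := by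
  set x : ℝ := 1 / ((n : ℝ) + 1) with hx
  set t : Set ℝ := alphaSet n ∩ Set.Ioi x with ht
  have hglb : IsGLB t x := by
    constructor
    · intro a ha
      exact (le_of_lt ha.2)
    · intro b hb
      by_contra hlt
      rw [not_le] at hlt
      obtain ⟨a, ha, h1, h2⟩ := exists_between hn (b - x) (by linarith)
      have h3 := hb ⟨ha, h1⟩
      rw [← hx] at h2
      linarith
  have hne : t.Nonempty := by
    obtain ⟨a, ha, h1, -⟩ := exists_between hn 1 one_pos
    exact ⟨a, ha, h1⟩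
  obtain ⟨a, h1, -, h3, h4⟩ := hglb.exists_seq_strictAnti_tendsto_of_notMem
    (fun h : x ∈ t => lt_irrefl x h.2) hne
  exact ⟨a, h1, fun k => (h4 k).1, h3⟩

end Pool.Agent.Helper19.Fano
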