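import Pool.Agent.Helper19.Fano.Forms

/-!
# The order of the logarithmic top form
-/

set_option autoImplicit false
set_option linter.unusedSectionVars false
set_option linter.style.haveILetI false

open WithZero

namespace Pool.Agent.Helper19.Fano

namespace TorusField

variable {n : ℕ} {K : Type} [Field K] [Algebra ℂ K] (T : TorusField n K)

/-- The basis `dlog xᵢ`. -/
noncomputable def e : Module.Basis (Fin n) K Ω[K⁄ℂ] := T.exists_logBasis.choose

lemma e_apply (i : Fin n) : T.e i = dlog (T.chi (Pi.single i 1)) :=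
  T.exists_logBasis.choose_spec i

/-- The logarithmic derivations `xᵢ ∂ᵢ`. -/
noncomputable def θ (i : Fin n) : Derivation ℂ K K :=
  (T.e.coord i).compDer (KaehlerDifferential.D ℂ K)

lemma θ_apply (i : Fin n) (a : K) : T.θ i a = T.e.repr (KaehlerDifferential.D ℂ K a) i := rfl

lemma dlog_chi (w : Fin n → ℤ) : dlog (T.chi w) = ∑ i, (w i : K) • T.e i := by
  let f : (Fin n → ℤ) →+ Ω[K⁄ℂ] :=
    { toFun := fun w => dlog (T.chi w)
      map_zero' := by rw [chi_zero, dlog_one]
      map_add' := fun a b => by rw [chi_add, dlog_mul (T.chi_ne_zero a) (T.chi_ne_zero b)] }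
  have h1 : w = ∑ i, w i • (Pi.single i (1 : ℤ) : Fin n → ℤ) := by
    ext j
    simp [Finset.sum_apply, Pi.single_apply]
  change f w = _
  conv_lhs => rw [h1]
  rw [map_sum]
  refine Finset.sum_congr rfl fun i _ => ?_
  rw [map_zsmul, T.e_apply]
  change w i • dlog (T.chi (Pi.single i 1)) = _
  rw [← Int.cast_smul_eq_zsmul K]

lemma D_eq_smul_dlog {a : K} (ha : a ≠ 0) : KaehlerDifferential.D ℂ K a = a • dlog a := by
  rw [dlog, smul_smul, mul_inv_cancel₀ ha, one_smul]

lemma θ_eq_mul (i : Fin n) {a : K} (ha : a ≠ 0) : T.θ i a = a * T.e.repr (dlog a) i := by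
  rw [θ_apply, D_eq_smul_dlog ha, map_smul]
  rfl

lemma θ_chi (i : Fin n) (w : Fin n → ℤ) : T.θ i (T.chi w) = (w i : K) * T.chi w := by
  rw [T.θ_eq_mul i (T.chi_ne_zero w), dlog_chi, mul_comm]
  congr 1
  simp [Finsupp.single_apply]

lemma θ_Φ (i : Fin n) (a : LP n) :
    T.θ i (T.Φ a) = ∑ w ∈ a.coeff.support, (w i : K) * (algebraMap ℂ K (a.coeff w) * T.chi w) := by
  rw [Φ_eq_sum, map_sum]
  refine Finset.sum_congr rfl fun w _ => ?_
  rw [← Algebra.smul_def, Derivation.map_smul, θ_chi]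
  simp only [Algebra.smul_def]
  ring

/-- The logarithmic top form `dlog x₁ ∧ ⋯ ∧ dlog xₙ`. -/
noncomputable def ωlog : ⋀[K]^n Ω[K⁄ℂ] := exteriorPower.ιMulti K n T.e

lemma ιMulti_eq (v : Fin n → Ω[K⁄ℂ]) :
    exteriorPower.ιMulti K n v = T.e.det v • T.ωlog := by
  let g : Ω[K⁄ℂ] [⋀^Fin n]→ₗ[K] (⋀[K]^n Ω[K⁄ℂ]) :=
    (LinearMap.toSpanSingleton K (⋀[K]^n Ω[K⁄ℂ]) T.ωlog).compAlternatingMap T.e.det
  have h1 : exteriorPower.ιMulti K n = g := by
    apply Module.Basis.ext_alternating T.e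
    intro σ hσ
    let σ' : Equiv.Perm (Fin n) := Equiv.ofBijective σ ((Finite.injective_iff_bijective).mp hσ)
    have h2 : (fun i => T.e (σ i)) = T.e ∘ σ' := rfl
    rw [h2, AlternatingMap.map_perm, AlternatingMap.map_perm]
    congr 1
    change T.ωlog = T.e.det T.e • T.ωlog
    rw [Module.Basis.det_self, one_smul]
  rw [h1]
  rfl

lemma ωlog_ne_zero : T.ωlog ≠ 0 := by
  intro h
  have h1 := exteriorPower.alternatingMapLinearEquiv_apply_ιMulti T.e.det T.e
  have h2 : exteriorPower.ιMulti K n T.e = 0 := h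
  rw [h2, map_zero, Module.Basis.det_self] at h1
  exact zero_ne_one h1

lemma smul_ωlog_inj {a b : K} (h : a • T.ωlog = b • T.ωlog) : a = b := by
  exact smul_left_injective K T.ωlog_ne_zero h

/-- The Jacobian determinant with respect to the logarithmic derivations. -/
noncomputable def jac (a : Fin n → K) : K := Matrix.det (Matrix.of fun i j => T.θ i (a j))

lemma ιMulti_D (a : Fin n → K) :
    exteriorPower.ιMulti K n (fun i => KaehlerDifferential.D ℂ K (a i)) = T.jac a • T.ωlog := by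
  rw [ιMulti_eq, Module.Basis.det_apply]
  rfl

variable (E : DivVal K)

lemma reg_span_le {k : ℤ} (h : ∀ a : Fin n → K, (∀ i, E.v (a i) ≤ 1) → E.v (T.jac a) ≤ exp k)
    {η : ⋀[K]^n Ω[K⁄ℂ]} (hη : η ∈ E.regSub n) : ∃ c, η = c • T.ωlog ∧ E.v c ≤ exp k := by
  induction hη using Submodule.span_induction with
  | mem x hx =>
    obtain ⟨a, rfl⟩ := hx
    exact ⟨T.jac fun i => (a i : K), T.ιMulti_D _, h _ fun i => (a i).2⟩
  | zero => exact ⟨0, by rw [zero_smul], by rw [map_zero]; exact zero_le⟩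
  | add x y _ _ hx hy =>
    obtain ⟨c, rfl, hc⟩ := hx
    obtain ⟨d, rfl, hd⟩ := hy
    exact ⟨c + d, by rw [add_smul], (E.v.map_add c d).trans (max_le hc hd)⟩
  | smul r x _ hx =>
    obtain ⟨c, rfl, hc⟩ := hx
    refine ⟨(r : K) * c, ?_, ?_⟩
    · rw [mul_smul]
      rfl
    · rw [map_mul]
      calc E.v r * E.v c ≤ 1 * exp k := mul_le_mul' r.2 hc
        _ = exp k := one_mul _

/-- The coefficients of regular forms are bounded. -/
lemma exists_bound_jac : ∃ k : ℤ, ∀ a : Fin n → K, (∀ i, E.v (a i) ≤ 1) →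
    E.v (T.jac a) ≤ exp k := by
  classical
  -- bound for the entries
  have h1 : ∃ B : ℤ, ∀ a : K, E.v a ≤ 1 → ∀ i, E.v (T.θ i a) ≤ exp B := by
    let O := valRing E.v E.le_one
    haveI : Algebra.EssFiniteType ℂ O := E.eft
    haveI : Module.Finite O Ω[O⁄ℂ] := inferInstance
    obtain ⟨s, hs⟩ := (Module.Finite.fg_top : (⊤ : Submodule O Ω[O⁄ℂ]).FG)
    let f : Ω[O⁄ℂ] →ₗ[O] Ω[K⁄ℂ] := KaehlerDifferential.map ℂ ℂ O K
    let vals : Finset ℤ := (s ×ˢ (Finset.univ : Finset (Fin n))).image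
      fun p => log (E.v (T.e.repr (f p.1) p.2))
    obtain ⟨B, hB⟩ := vals.bddAbove
    refine ⟨B, fun a ha i => ?_⟩
    have h2 : ∀ x : Ω[O⁄ℂ], ∀ i, E.v (T.e.repr (f x) i) ≤ exp B := by
      intro x
      have hx : x ∈ Submodule.span O (s : Set Ω[O⁄ℂ]) := hs ▸ Submodule.mem_top
      induction hx using Submodule.span_induction with
      | mem x hx =>
        intro i
        by_cases h0 : E.v (T.e.repr (f x) i) = 0
        · rw [h0]; exact zero_le
        · rw [← exp_log h0, exp_le_exp]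
          apply hB
          simp only [vals, Finset.coe_image, Set.mem_image]
          exact ⟨(x, i), by simpa using hx, rfl⟩
      | zero => intro i; simp
      | add x y _ _ hx hy =>
        intro i
        rw [map_add, map_add, Finsupp.add_apply]
        exact (E.v.map_add _ _).trans (max_le (hx i) (hy i))
      | smul r x _ hx =>
        intro i
        have h3 : T.e.repr (f (r • x)) i = (r : K) * T.e.repr (f x) i := by
          rw [map_smul, ← algebraMap_smul K r (f x), map_smul]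
          rfl
        rw [h3, map_mul]
        calc E.v r * E.v _ ≤ 1 * exp B := mul_le_mul' r.2 (hx i)
          _ = exp B := one_mul _
    have h4 := h2 (KaehlerDifferential.D ℂ O ⟨a, ha⟩) i
    change E.v (T.e.repr (KaehlerDifferential.map ℂ ℂ O K
      (KaehlerDifferential.D ℂ O ⟨a, ha⟩)) i) ≤ _ at h4
    rw [KaehlerDifferential.map_D] at h4
    exact h4
  obtain ⟨B, hB⟩ := h1
  refine ⟨n * B, fun a ha => ?_⟩
  rw [jac, Matrix.det_apply]
  apply Valuation.map_sum_le
  intro σ _
  have h3 : E.v (Equiv.Perm.sign σ • ∏ i, (Matrix.of fun i j => T.θ i (a j)) (σ i) i) =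
      ∏ i, E.v (T.θ (σ i) (a i)) := by
    rcases Int.units_eq_one_or (Equiv.Perm.sign σ) with h | h
    · rw [h, one_smul, map_prod]
      rfl
    · rw [h, Units.neg_smul, one_smul, Valuation.map_neg, map_prod]
      rfl
  rw [h3]
  calc ∏ i, E.v (T.θ (σ i) (a i)) ≤ ∏ _i : Fin n, exp B :=
        Finset.prod_le_prod' fun i _ => hB _ (ha i) _
    _ = exp (n * B) := by
      rw [Finset.prod_const, Finset.card_univ, Fintype.card_fin, ← exp_nsmul]
      simp

/-- The order of the logarithmic form. -/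
noncomputable abbrev κ : ℤ := E.ordSub T.ωlog

/-- Characterization of regular multiples of the logarithmic form. -/
theorem smul_ωlog_mem_iff (c : K) : c • T.ωlog ∈ E.regSub n ↔ E.v c ≤ exp (T.κ E) := by
  obtain ⟨k, hk⟩ := T.exists_bound_jac E
  obtain ⟨t, ht⟩ := E.exists_unif
  set S : Set ℤ := {k : ℤ | ∃ g : K, g ≠ 0 ∧ E.ord g = k ∧ ∃ η ∈ E.regSub n, T.ωlog = g • η}
    with hS
  have hS' : ∀ m, m ∈ S ↔ ∃ c : K, E.v c = exp m ∧ c • T.ωlog ∈ E.regSub n := by
    intro m
    constructor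
    · rintro ⟨g, hg, rfl, η, hη, h⟩
      refine ⟨g⁻¹, ?_, ?_⟩
      · rw [map_inv₀, E.v_eq_exp hg, exp_neg, inv_inv]
      · rw [h, smul_smul, inv_mul_cancel₀ hg, one_smul]
        exact hη
    · rintro ⟨c, hc, h⟩
      have hc0 : c ≠ 0 := by
        rintro rfl
        rw [map_zero] at hc
        exact exp_ne_zero hc.symm
      refine ⟨c⁻¹, inv_ne_zero hc0, ?_, c • T.ωlog, h, ?_⟩
      · apply E.ord_eq_of_v
        rw [map_inv₀, hc, exp_neg]
      · rw [smul_smul, inv_mul_cancel₀ hc0, one_smul]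
  have hne : S.Nonempty := by
    refine ⟨-1, (hS' _).mpr ⟨t, ht, ?_⟩⟩
    have h1 := log_mem E t ht (fun i => T.chi (Pi.single i 1)) (fun i => T.chi_ne_zero _)
    have h2 : (fun i => dlog (T.chi (Pi.single i 1))) = T.e := funext fun i => (T.e_apply i).symm
    rw [h2] at h1
    exact h1
  have hbdd : BddAbove S := by
    refine ⟨k, fun m hm => ?_⟩
    obtain ⟨c, hc, h⟩ := (hS' m).mp hm
    obtain ⟨c', hc', hc''⟩ := T.reg_span_le E hk h
    rw [← T.smul_ωlog_inj hc', hc, exp_le_exp] at hc''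
    exact hc''
  have hmem : T.κ E ∈ S := Int.csSup_mem hne hbdd
  constructor
  · intro h
    by_cases hc0 : c = 0
    · rw [hc0, map_zero]; exact zero_le
    · rw [E.v_eq_exp hc0, exp_le_exp]
      apply le_csSup hbdd
      exact (hS' _).mpr ⟨c, E.v_eq_exp hc0, h⟩
  · intro h
    obtain ⟨d, hd, hd'⟩ := (hS' _).mp hmem
    have hd0 : d ≠ 0 := by
      rintro rfl
      rw [map_zero] at hd
      exact exp_ne_zero hd.symm
    have h3 : c • T.ωlog = (c / d) • (d • T.ωlog) := by
      rw [smul_smul, div_mul_cancel₀ _ hd0]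
    rw [h3]
    apply smul_mem_regSub E _ hd'
    rw [map_div₀, hd]
    exact div_le_one_of_le₀ h (zero_le)

lemma v_jac_le (a : Fin n → K) (ha : ∀ i, E.v (a i) ≤ 1) : E.v (T.jac a) ≤ exp (T.κ E) := by
  rw [← smul_ωlog_mem_iff, ← ιMulti_D]
  exact Submodule.subset_span ⟨fun i => ⟨a i, ha i⟩, rfl⟩

lemma κ_le {k : ℤ} (h : ∀ a : Fin n → K, (∀ i, E.v (a i) ≤ 1) → E.v (T.jac a) ≤ exp k) :
    T.κ E ≤ k := by
  obtain ⟨c, hc⟩ := E.surj (exp (T.κ E))
  have h1 := (T.smul_ωlog_mem_iff E c).mpr hc.le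
  obtain ⟨c', hc', hc''⟩ := T.reg_span_le E h h1
  rw [← T.smul_ωlog_inj hc', hc, exp_le_exp] at hc''
  exact hc''

/-- The logarithmic form has at most a simple pole. -/
lemma neg_one_le_κ : -1 ≤ T.κ E := by
  obtain ⟨t, ht⟩ := E.exists_unif
  have h1 := log_mem E t ht (fun i => T.chi (Pi.single i 1)) (fun i => T.chi_ne_zero _)
  have h2 : (fun i => dlog (T.chi (Pi.single i 1))) = T.e := funext fun i => (T.e_apply i).symm
  rw [h2] at h1
  have h3 := (T.smul_ωlog_mem_iff E t).mp h1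
  rwa [ht, exp_le_exp] at h3

/-- If all characters are units then the logarithmic form is regular. -/
lemma κ_nonneg (h : ∀ i, E.v (T.chi (Pi.single i 1)) = 1) : 0 ≤ T.κ E := by
  have h1 : (1 : K) • T.ωlog ∈ E.regSub n := by
    have h2 : T.ωlog = exteriorPower.ιMulti K n (fun i => (T.chi (Pi.single i 1))⁻¹ •
        KaehlerDifferential.D ℂ K (T.chi (Pi.single i 1))) := by
      rw [ωlog]
      congr 1
      ext i
      rw [e_apply]
      rfl
    rw [h2]
    apply mem_regSub_of
    · intro i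
      exact (h i).le
    · rw [one_mul, map_prod]
      apply le_of_eq
      apply Finset.prod_eq_one
      intro i _
      rw [map_inv₀, h, inv_one]
  have h3 := (T.smul_ωlog_mem_iff E 1).mp h1
  rwa [map_one, ← exp_zero, exp_le_exp] at h3

/-- Logarithmic derivations lower the order by at most the log discrepancy. -/
theorem v_θ_le (i : Fin n) (f : K) : E.v (T.θ i f) ≤ E.v f * exp (1 + T.κ E) := by
  classical
  by_cases hf : f = 0
  · rw [hf, map_zero, map_zero]
    exact zero_le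
  obtain ⟨t, ht⟩ := E.exists_unif
  set a : Fin n → K := Function.update (fun j => T.chi (Pi.single j 1)) i f with ha
  have ha0 : ∀ j, a j ≠ 0 := by
    intro j
    by_cases hj : j = i
    · subst hj
      simpa [ha] using hf
    · simpa [ha, hj] using T.chi_ne_zero _
  have h1 := log_mem E t ht a ha0
  rw [ιMulti_eq, smul_smul, smul_ωlog_mem_iff] at h1
  have h2 : (fun j => dlog (a j)) = Function.update T.e i (dlog f) := by
    ext j
    by_cases hj : j = i
    · subst hj
      simp [ha]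
    · simp [ha, hj, T.e_apply]
  have h3 : T.e.det (fun j => dlog (a j)) = T.e.repr (dlog f) i := by
    rw [h2, Module.Basis.det_apply, Module.Basis.toMatrix_update, Module.Basis.toMatrix_self]
    rw [← Matrix.cramer_apply, Matrix.cramer_one]
    rfl
  rw [h3, map_mul, ht] at h1
  rw [T.θ_eq_mul i hf, map_mul]
  apply mul_le_mul_right
  rw [exp_add]
  calc E.v (T.e.repr (dlog f) i) = exp 1 * (exp (-1) * E.v (T.e.repr (dlog f) i)) := by
        rw [← mul_assoc, ← exp_add]; simp
    _ ≤ exp 1 * exp (T.κ E) := mul_le_mul_right h1 _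

/-- The logarithmic form as a rational form. -/
noncomputable def ωF : Forms K n := T.ωlog

lemma ωF_ne_zero : T.ωF ≠ 0 := T.ωlog_ne_zero

lemma ordForm_ωF : E.ordForm T.ωF = T.κ E := ordForm_eq_ordSub E T.ωF

end TorusField

end Pool.Agent.Helper19.Fano
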