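import Pool.Agent.Helper19.Fano.ToricVariety

/-!
# Points of the toric variety defined by valuations
-/

set_option autoImplicit false
set_option linter.unusedSectionVars false
set_option linter.style.haveILetI false

open AlgebraicGeometry CategoryTheory AddMonoidAlgebra WithZero DirectSum

namespace Pool.Agent.Helper19.Fano

section center

variable {n : ℕ} {J : Type} [Finite J] (u : J → (Fin n → ℤ) →+ ℤ)
  {K : Type} [Field K] (β : coneAlg u →+* K) (v : Valuation K ℤᵐ⁰) (l : ℤ)

/-- The homogeneous ideal defined by a valuation. -/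
def valIdeal (hle : ∀ d, ∀ a ∈ coneGr u d, v (β a) ≤ exp (l * d)) : Ideal (coneAlg u) where
  carrier := {a | ∀ d : ℕ, v (β (decompose (coneGr u) a d : coneAlg u)) < exp (l * d)}
  zero_mem' := by
    intro d
    simp
  add_mem' := by
    intro a b ha hb d
    rw [decompose_add, DirectSum.add_apply, Submodule.coe_add, map_add]
    exact v.map_add_lt (ha d) (hb d)
  smul_mem' := by
    intro r a ha d
    rw [smul_eq_mul]
    conv => enter [1, 2, 2, 1]; rw [eq_sum_single r, Finset.sum_mul]
    rw [decompose_sum, DFinsupp.finsetSum_apply, AddSubmonoidClass.coe_finsetSum, map_sum]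
    apply Valuation.map_sum_lt v exp_ne_zero
    intro c _
    have hc : (single c (r.coeff c) : coneAlg u) ∈ coneGr u (degHom u c) :=
      single_mem_gradeBy (degHom u) _ _
    by_cases hd : degHom u c ≤ d
    · rw [coe_decompose_mul_of_left_mem_of_le (coneGr u) hc hd, map_mul, map_mul]
      have h1 := hle _ _ hc
      have h2 := ha (d - degHom u c)
      have h3 : exp (l * d) = exp (l * (degHom u c : ℕ)) * exp (l * ((d - degHom u c : ℕ) : ℤ)) := by
        rw [← exp_add]
        congr 1
        push_cast [hd]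
        ring
      rw [h3]
      exact mul_lt_mul_of_le_of_lt_of_nonneg_of_pos h1 h2 zero_le (by simp)
    · rw [coe_decompose_mul_of_left_mem_of_not_le (coneGr u) hc hd]
      simp

variable {u β v l}

lemma mem_valIdeal_of_mem (hle : ∀ d, ∀ a ∈ coneGr u d, v (β a) ≤ exp (l * d)) {d : ℕ}
    {a : coneAlg u} (ha : a ∈ coneGr u d) :
    a ∈ valIdeal u β v l hle ↔ v (β a) < exp (l * d) := by
  constructor
  · intro h
    have := h d
    rwa [decompose_of_mem_same (coneGr u) ha] at this
  · intro h d'
    by_cases hd : d = d'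
    · subst hd
      rwa [decompose_of_mem_same (coneGr u) ha]
    · rw [decompose_of_mem_ne (coneGr u) ha hd]
      simp

lemma valIdeal_homogeneous (hle : ∀ d, ∀ a ∈ coneGr u d, v (β a) ≤ exp (l * d)) :
    (valIdeal u β v l hle).IsHomogeneous (coneGr u) := by
  intro i a ha
  rw [mem_valIdeal_of_mem hle (SetLike.coe_mem (decompose (coneGr u) a i))]
  exact ha i

lemma valIdeal_prime (hle : ∀ d, ∀ a ∈ coneGr u d, v (β a) ≤ exp (l * d)) :
    (valIdeal u β v l hle).IsPrime := by
  apply (valIdeal_homogeneous hle).isPrime_of_homogeneous_mem_or_mem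
  · rw [Ideal.ne_top_iff_one, mem_valIdeal_of_mem hle (SetLike.GradedOne.one_mem)]
    simp
  · rintro x y ⟨i, hx⟩ ⟨j, hy⟩ hxy
    rw [mem_valIdeal_of_mem hle (SetLike.GradedMul.mul_mem hx hy), map_mul, map_mul] at hxy
    rw [mem_valIdeal_of_mem hle hx, mem_valIdeal_of_mem hle hy]
    by_contra hcon
    push Not at hcon
    have h1 := hle i x hx
    have h2 := hle j y hy
    have h3 : exp (l * ((i + j : ℕ) : ℤ)) = exp (l * i) * exp (l * j) := by
      rw [← exp_add]
      congr 1
      push_cast
      ring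
    rw [h3, le_antisymm h1 hcon.1, le_antisymm h2 hcon.2] at hxy
    exact lt_irrefl _ hxy

/-- The point of `Proj` defined by a valuation. -/
theorem exists_point (hle : ∀ d, ∀ a ∈ coneGr u d, v (β a) ≤ exp (l * d))
    (heq : ∃ m : ℕ, 0 < m ∧ ∃ a ∈ coneGr u m, v (β a) = exp (l * m)) :
    ∃ x : toricX u, ∀ (d : ℕ), ∀ a ∈ coneGr u d,
      (a ∈ pid (coneGr u) x ↔ v (β a) < exp (l * d)) := by
  obtain ⟨m, hm, a₀, ha₀, ha₀'⟩ := heq
  let x : ProjectiveSpectrum (coneGr u) :=
    { asHomogeneousIdeal := ⟨valIdeal u β v l hle, valIdeal_homogeneous hle⟩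
      isPrime := valIdeal_prime hle
      not_irrelevant_le := by
        intro hcon
        have h1 : a₀ ∈ HomogeneousIdeal.irrelevant (coneGr u) := by
          rw [HomogeneousIdeal.mem_irrelevant_iff, GradedRing.proj_apply,
            decompose_of_mem_ne (coneGr u) ha₀ hm.ne']
        have h2 : a₀ ∈ valIdeal u β v l hle := hcon h1
        rw [mem_valIdeal_of_mem hle ha₀, ha₀'] at h2
        exact lt_irrefl _ h2 }
  exact ⟨ofPS (coneGr u) x, fun d a ha => mem_valIdeal_of_mem hle ha⟩

end center

end Pool.Agent.Helper19.Fano
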