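import Pool.Agent.Helper19.Fano.Criterion

/-!
# A family of polytopes
-/

set_option autoImplicit false
set_option linter.unusedSectionVars false

namespace Pool.Agent.Helper19.Fano

section ext

variable {n : ℕ}

/-- Extension of a vector to a vector with one more coordinate and coordinate sum zero. -/
def ext (n : ℕ) : (Fin n → ℤ) →+ (Fin (n + 1) → ℤ) where
  toFun w := Fin.cons (-∑ i, w i) w
  map_zero' := by
    ext i
    refine Fin.cases ?_ (fun i => ?_) i <;> simp
  map_add' a b := by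
    ext i
    refine Fin.cases ?_ (fun i => ?_) i
    · simp [Finset.sum_add_distrib]
      ring
    · simp

lemma ext_zero (w : Fin n → ℤ) : ext n w 0 = -∑ i, w i := rfl

lemma ext_succ (w : Fin n → ℤ) (i : Fin n) : ext n w i.succ = w i := by
  change (Fin.cons (-∑ i, w i) w : Fin (n + 1) → ℤ) i.succ = w i
  rw [Fin.cons_succ]

lemma sum_ext (w : Fin n → ℤ) : ∑ i, ext n w i = 0 := by
  rw [Fin.sum_univ_succ, ext_zero]
  simp [ext_succ]

lemma ext_injective : Function.Injective (ext n) := by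
  intro a b h
  ext i
  have := congrFun h i.succ
  rwa [ext_succ, ext_succ] at this

lemma exists_ext (g : Fin (n + 1) → ℤ) (hg : ∑ i, g i = 0) : ∃ w, ext n w = g := by
  refine ⟨fun i => g i.succ, ?_⟩
  ext i
  refine Fin.cases ?_ (fun i => ?_) i
  · rw [ext_zero]
    rw [Fin.sum_univ_succ] at hg
    linarith
  · rw [ext_succ]

end ext

/-- The functionals defining the polytope. -/
def fam (n B : ℕ) : Fin (n + 1) ⊕ Fin (n + 1) → (Fin n → ℤ) →+ ℤ
  | Sum.inl i =>
    { toFun := fun w => (n * B + 1) * ext n w i + ext n w (i + 1)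
      map_zero' := by simp
      map_add' := fun a b => by simp only [map_add, Pi.add_apply]; ring }
  | Sum.inr i =>
    { toFun := fun w => -B * ext n w i + ext n w (i - 1)
      map_zero' := by simp
      map_add' := fun a b => by simp only [map_add, Pi.add_apply]; ring }

lemma fam_inl (n B : ℕ) (i : Fin (n + 1)) (w : Fin n → ℤ) :
    fam n B (Sum.inl i) w = (n * B + 1) * ext n w i + ext n w (i + 1) := rfl

lemma fam_inr (n B : ℕ) (i : Fin (n + 1)) (w : Fin n → ℤ) :
    fam n B (Sum.inr i) w = -B * ext n w i + ext n w (i - 1) := rfl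

section bounds

variable {n B : ℕ} (hn : 2 ≤ n) (hB : 2 * n + 1 ≤ B) {w : Fin n → ℤ} {d : ℕ}
  (h : ∀ j, 0 ≤ fam n B j w + d)

include hn hB h

lemma bound_max (i : Fin (n + 1)) : ((B : ℤ) - 1) * ext n w i ≤ d := by
  obtain ⟨k, hk⟩ := Finite.exists_max (ext n w)
  have h1 := h (Sum.inr k)
  rw [fam_inr] at h1
  have h2 := hk (k - 1)
  have hB1 : (0 : ℤ) ≤ (B : ℤ) - 1 := by
    have : (2 * n + 1 : ℤ) ≤ B := by exact_mod_cast hB
    have : (2 : ℤ) ≤ n := by exact_mod_cast hn
    linarith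
  have h3 := mul_le_mul_of_nonneg_left (hk i) hB1
  linarith

lemma bound_min (i : Fin (n + 1)) : -(((B : ℤ) - 1) * (n * B + 1) * ext n w i) ≤ B * d := by
  obtain ⟨k, hk⟩ := Finite.exists_min (ext n w)
  have h1 := h (Sum.inl k)
  rw [fam_inl] at h1
  have h2 := bound_max hn hB h (k + 1)
  have hB1 : (0 : ℤ) ≤ (B : ℤ) - 1 := by
    have : (2 * n + 1 : ℤ) ≤ B := by exact_mod_cast hB
    have : (2 : ℤ) ≤ n := by exact_mod_cast hn
    linarith
  have h3 : (0 : ℤ) ≤ ((B : ℤ) - 1) * (n * B + 1) := mul_nonneg hB1 (by positivity)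
  have h4 := mul_le_mul_of_nonneg_left (hk i) h3
  have h5 := mul_nonneg hB1 h1
  linarith

lemma bound_abs (i : Fin (n + 1)) : ((B : ℤ) - 1) * |ext n w i| ≤ d := by
  have hnB : (2 : ℤ) ≤ n := by exact_mod_cast hn
  have hBB : (2 * n + 1 : ℤ) ≤ B := by exact_mod_cast hB
  rcases le_total 0 (ext n w i) with h0 | h0
  · rw [abs_of_nonneg h0]
    exact bound_max hn hB h i
  · rw [abs_of_nonpos h0]
    have h1 := bound_min hn hB h i
    set x : ℤ := ((B : ℤ) - 1) * -ext n w i with hx
    have hx0 : 0 ≤ x := mul_nonneg (by linarith) (by linarith)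
    have h2 : (B : ℤ) * x ≤ B * d := by
      have h3 : x * (n * B + 1) ≤ B * d := by
        rw [hx]; linarith
      have hn1 : (B : ℤ) ≤ n * B + 1 := by nlinarith
      have h4 := mul_le_mul_of_nonneg_left hn1 hx0
      linarith
    exact le_of_mul_le_mul_left h2 (by linarith)

/-- The height of the second family of functionals. -/
lemma height_inr (i : Fin (n + 1)) : fam n B (Sum.inr i) w ≤ d := by
  have hnB : (2 : ℤ) ≤ n := by exact_mod_cast hn
  have hBB : (2 * n + 1 : ℤ) ≤ B := by exact_mod_cast hB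
  rw [fam_inr]
  have h1 := bound_min hn hB h i
  have h2 := bound_max hn hB h (i - 1)
  set A : ℤ := n * B + 1 with hA
  have hd : (0 : ℤ) ≤ d := by positivity
  have hB0 : (0 : ℤ) ≤ B := by positivity
  have hAB : 2 * (B : ℤ) + 1 ≤ A := by rw [hA]; nlinarith
  have h3 : ((B : ℤ) - 1) * A * (-B * ext n w i + ext n w (i - 1)) ≤ ((B : ℤ) - 1) * A * d := by
    have h4 := mul_le_mul_of_nonneg_left h1 hB0
    have h5 := mul_le_mul_of_nonneg_left h2 (by linarith : (0 : ℤ) ≤ A)
    have h6 : (B : ℤ) * B + A ≤ ((B : ℤ) - 1) * A := by nlinarith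
    have h7 := mul_le_mul_of_nonneg_right h6 hd
    nlinarith
  exact le_of_mul_le_mul_left h3 (mul_pos (by linarith) (by linarith))

/-- The height of the first family of functionals. -/
lemma height_inl (i : Fin (n + 1)) :
    ((n * B + 1 : ℤ) * (B + 1)) * fam n B (Sum.inl i) w ≤
      (n * ((n * B + 1) * (B + 1)) - B) * d := by
  have hnB : (2 : ℤ) ≤ n := by exact_mod_cast hn
  have hBB : (2 * n + 1 : ℤ) ≤ B := by exact_mod_cast hB
  have hd : (0 : ℤ) ≤ d := by positivity
  have hB0 : (0 : ℤ) ≤ B := by positivity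
  have h1 := h (Sum.inl (i - 1))
  have h2 := h (Sum.inl (i + 1))
  have h3 := h (Sum.inr i)
  have h5 := bound_min hn hB h (i + 1 + 1)
  -- the sum of all functionals of the first kind is zero
  have hsum : ∑ k, (fam n B (Sum.inl k) w + d) = (n + 1) * d := by
    simp only [fam_inl, Finset.sum_add_distrib, ← Finset.mul_sum, sum_ext, mul_zero, zero_add]
    have h6 : ∑ k, ext n w (k + 1) = ∑ k, ext n w k :=
      Equiv.sum_comp (Equiv.addRight (1 : Fin (n + 1))) (ext n w)
    rw [h6, sum_ext]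
    simp
  have h10 : (1 : Fin (n + 1)) ≠ 0 := by
    intro hh
    have := congrArg Fin.val hh
    rw [Fin.val_one', Fin.val_zero, Nat.mod_eq_of_lt (by omega)] at this
    omega
  have h20 : (1 + 1 : Fin (n + 1)) ≠ 0 := by
    intro hh
    have := congrArg Fin.val hh
    rw [Fin.val_add, Fin.val_one', Fin.val_zero, Nat.mod_eq_of_lt (by omega : 1 < n + 1),
      Nat.mod_eq_of_lt (by omega)] at this
    omega
  have hne1 : i ≠ i + 1 := fun hh => h10 (left_eq_add.mp hh)
  have hne2 : i ≠ i - 1 := fun hh => h10 (sub_eq_self.mp hh.symm)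
  have hne3 : i + 1 ≠ i - 1 := by
    intro hh
    have h11 : i + (1 + 1) = i := by
      rw [← add_assoc, hh, sub_add_cancel]
    exact h20 (add_eq_left.mp h11)
  have h4 : (fam n B (Sum.inl i) w + d) + ((fam n B (Sum.inl (i + 1)) w + d) +
      (fam n B (Sum.inl (i - 1)) w + d)) ≤ (n + 1) * d := by
    rw [← hsum]
    have h7 : ∑ k ∈ ({i, i + 1, i - 1} : Finset (Fin (n + 1))), (fam n B (Sum.inl k) w + (d : ℤ)) ≤
        ∑ k, (fam n B (Sum.inl k) w + d) :=
      Finset.sum_le_sum_of_subset_of_nonneg (Finset.subset_univ _) fun k _ _ => h (Sum.inl k)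
    rw [Finset.sum_insert (by simp [hne1, hne2]), Finset.sum_insert (by simp [hne3]),
      Finset.sum_singleton] at h7
    exact h7
  have e1 : i - 1 + 1 = i := sub_add_cancel i 1
  simp only [fam_inl, fam_inr, e1] at h1 h2 h3 h4 ⊢
  generalize ext n w (i - 1) = a at h1 h2 h3 h4 h5 ⊢
  generalize ext n w (i + 1 + 1) = e at h1 h2 h3 h4 h5 ⊢
  generalize ext n w (i + 1) = c at h1 h2 h3 h4 h5 ⊢
  generalize ext n w i = b at h1 h2 h3 h4 h5 ⊢
  have hA : 2 * (B : ℤ) + 1 ≤ n * B + 1 := by nlinarith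
  have hpoly : ((n * B + 1 : ℤ) * B + 1) * B ≤ ((B - 1) * (n * B + 1)) * (n * (n * B + 1)) := by
    have g1 : (4 * B ^ 2 : ℤ) ≤ (n * B + 1) ^ 2 := by nlinarith
    have g2 : (0 : ℤ) ≤ n * (B - 1) := mul_nonneg (by linarith) (by linarith)
    have g3 := mul_le_mul_of_nonneg_left g1 g2
    have g4 : (11 * B ^ 2 : ℤ) ≤ 3 * B ^ 3 - 4 * B ^ 2 := by nlinarith [sq_nonneg (B : ℤ)]
    have g5 : (n * (11 * B ^ 2) : ℤ) ≤ n * (3 * B ^ 3 - 4 * B ^ 2) :=
      mul_le_mul_of_nonneg_left g4 (by linarith)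
    have g6 : (2 * (11 * B ^ 2) : ℤ) ≤ n * (11 * B ^ 2) :=
      mul_le_mul_of_nonneg_right hnB (by positivity)
    have g7 : (B : ℤ) ≤ B ^ 2 := by nlinarith
    nlinarith
  have hAeq : (n * B : ℤ) = (n * B + 1) - 1 := by ring
  generalize hAA : (n * B + 1 : ℤ) = A at *
  have hA0 : (0 : ℤ) ≤ A := by linarith
  have hAB : (0 : ℤ) < A * B + 1 := by positivity
  set z1 : ℤ := A * a + b + d with hz1
  set z2 : ℤ := A * c + e + d with hz2
  have E1 : (A * B + 1) * b ≤ (A - 1) * d + z1 := by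
    have := mul_nonneg hA0 h3
    rw [hz1]
    linarith
  have E2 : (A * B + 1) * -e ≤ n * A * d := by
    have hp : (0 : ℤ) < (B - 1) * A := mul_pos (by linarith) (by linarith)
    have h6 := mul_le_mul_of_nonneg_left h5 hAB.le
    have h7 := mul_le_mul_of_nonneg_right hpoly hd
    have h8 : ((B - 1) * A) * ((A * B + 1) * -e) ≤ ((B - 1) * A) * (n * A * d) := by
      linarith
    exact le_of_mul_le_mul_left h8 hp
  have E3 : A * ((A * B + 1) * (A * b + c)) ≤
      n * A * (A * B + 1) * d + A ^ 2 * z1 + (A * B + 1) * z2 - (A * B + 1) * d := by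
    have h6 := mul_le_mul_of_nonneg_left E1 (sq_nonneg A)
    have h7 : A ^ 2 * (n * B) * d = A ^ 2 * (A - 1) * d := by rw [hAeq]
    have h8 : (A * B + 1) * (A * c) = (A * B + 1) * z2 - (A * B + 1) * e - (A * B + 1) * d := by
      rw [hz2]; ring
    linarith
  have E4 : A * B * (A * b + c) ≤ n * A * B * d + A * (z1 + z2) - B * d := by
    have h6 := mul_le_mul_of_nonneg_left E3 hB0
    have h7 : A ^ 2 * B * z1 ≤ A * (A * B + 1) * z1 := by
      apply mul_le_mul_of_nonneg_right _ h1
      linarith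
    have h8 : (A * B + 1) * (B * z2) ≤ (A * B + 1) * (A * z2) := by
      apply mul_le_mul_of_nonneg_left _ hAB.le
      apply mul_le_mul_of_nonneg_right _ h2
      linarith
    have h9 : (A * B + 1) * (A * B * (A * b + c)) ≤
        (A * B + 1) * (n * A * B * d + A * (z1 + z2) - B * d) := by
      linarith
    exact le_of_mul_le_mul_left h9 hAB
  have h6 := mul_le_mul_of_nonneg_left h4 hA0
  linarith

end bounds

section properties

variable {n B : ℕ} (hn : 2 ≤ n) (hB : 2 * n + 1 ≤ B)

include hn hB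

lemma fam_small : IsSmall (fam n B) := by
  intro w d h i
  have h1 := bound_abs hn hB h i.succ
  rw [ext_succ] at h1
  have h2 : (2 * n : ℤ) ≤ B - 1 := by
    have : (2 * n + 1 : ℤ) ≤ B := by exact_mod_cast hB
    linarith
  have h3 := mul_le_mul_of_nonneg_right h2 (abs_nonneg (w i))
  linarith

lemma fam_bdd : IsBdd (fam n B) := by
  intro w h
  have h' : ∀ j, 0 ≤ fam n B j w + ((0 : ℕ) : ℤ) := by
    intro j
    simpa using h j
  ext i
  have h1 := fam_small hn hB w 0 h' i
  have hnB : (2 : ℤ) ≤ n := by exact_mod_cast hn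
  have h2 := abs_nonneg (w i)
  have h3 : |w i| = 0 := by
    push_cast at h1
    nlinarith
  simpa using h3

omit hn hB in
lemma one_ne (hn : 2 ≤ n) : (1 : Fin (n + 1)) ≠ 0 := by
  intro hh
  have := congrArg Fin.val hh
  rw [Fin.val_one', Fin.val_zero, Nat.mod_eq_of_lt (by omega)] at this
  omega

omit hn hB in
lemma two_ne (hn : 2 ≤ n) : (1 + 1 : Fin (n + 1)) ≠ 0 := by
  intro hh
  have := congrArg Fin.val hh
  rw [Fin.val_add, Fin.val_one', Fin.val_zero, Nat.mod_eq_of_lt (by omega : 1 < n + 1),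
    Nat.mod_eq_of_lt (by omega)] at this
  omega

/-- The cyclic rotation. -/
lemma fam_centered : IsCentered (fam n B) := by
  classical
  intro N L hL
  -- the rotation
  have hrot : ∀ w : Fin n → ℤ, ∃ w' : Fin n → ℤ, ∀ i, ext n w' i = ext n w (i + 1) := by
    intro w
    obtain ⟨w', hw'⟩ := exists_ext (fun i => ext n w (i + 1)) (by
      have h6 : ∑ k, ext n w (k + 1) = ∑ k, ext n w k :=
        Equiv.sum_comp (Equiv.addRight (1 : Fin (n + 1))) (ext n w)
      rw [h6, sum_ext])
    exact ⟨w', fun i => congrFun hw' i⟩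
  choose ρ hρ using hrot
  have hinj : Function.Injective ρ := by
    intro a b hab
    apply ext_injective
    ext i
    have h1 := hρ a (i - 1)
    have h2 := hρ b (i - 1)
    rw [sub_add_cancel] at h1 h2
    rw [← h1, ← h2, hab]
  have hmem : ∀ w ∈ L, ρ w ∈ L := by
    intro w hw
    rw [hL] at hw ⊢
    intro j
    rcases j with i | i
    · have h1 := hw (Sum.inl (i + 1))
      rw [fam_inl] at h1 ⊢
      rw [hρ, hρ]
      exact h1
    · have h1 := hw (Sum.inr (i + 1))
      rw [fam_inr] at h1 ⊢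
      rw [hρ, hρ, sub_add_cancel]
      rw [add_sub_cancel_right] at h1
      exact h1
  have himg : L.image ρ = L := by
    apply Finset.eq_of_subset_of_card_le
    · intro w hw
      rw [Finset.mem_image] at hw
      obtain ⟨w', hw', rfl⟩ := hw
      exact hmem w' hw'
    · rw [Finset.card_image_of_injective L hinj]
  set S : Fin (n + 1) → ℤ := fun i => ∑ w ∈ L, ext n w i with hS
  have hS1 : ∀ i, S (i + 1) = S i := by
    intro i
    rw [hS]
    simp only
    conv_rhs => rw [← himg, Finset.sum_image (fun a _ b _ hab => hinj hab)]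
    exact Finset.sum_congr rfl fun w _ => (hρ w i).symm
  have hS2 : ∀ i, S i = S 0 := by
    intro i
    induction i using Fin.induction with
    | zero => rfl
    | succ i ih =>
      rw [← ih, ← hS1 i.castSucc]
      congr 1
      exact (Fin.coeSucc_eq_succ).symm
  have hS3 : ∑ i, S i = 0 := by
    rw [hS, Finset.sum_comm]
    exact Finset.sum_eq_zero fun w _ => sum_ext w
  have hS4 : S 0 = 0 := by
    rw [Finset.sum_congr rfl fun i _ => hS2 i, Finset.sum_const, Finset.card_univ,
      Fintype.card_fin, nsmul_eq_mul] at hS3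
    rcases mul_eq_zero.mp hS3 with h0 | h0
    · exfalso
      have : n + 1 = 0 := by exact_mod_cast h0
      omega
    · exact h0
  ext i
  rw [Finset.sum_apply, Pi.zero_apply]
  have h1 : ∑ w ∈ L, w i = S i.succ := by
    rw [hS]
    exact Finset.sum_congr rfl fun w _ => (ext_succ w i).symm
  rw [h1, hS2, hS4]

omit hB in
lemma prim_inl (i : Fin (n + 1)) : ∃ w, fam n B (Sum.inl i) w = 1 := by
  have h10 := one_ne hn
  have h20 := two_ne hn
  have hne1 : i ≠ i + 1 := fun hh => h10 (left_eq_add.mp hh)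
  have hne2 : i ≠ i - 1 := fun hh => h10 (sub_eq_self.mp hh.symm)
  have hne3 : i + 1 ≠ i - 1 := by
    intro hh
    have h11 : i + (1 + 1) = i := by
      rw [← add_assoc, hh, sub_add_cancel]
    exact h20 (add_eq_left.mp h11)
  obtain ⟨w, hw⟩ := exists_ext (Pi.single (i + 1) 1 - Pi.single (i - 1) 1 : Fin (n + 1) → ℤ)
    (by simp)
  refine ⟨w, ?_⟩
  rw [fam_inl, hw]
  simp [hne1, hne2, hne3]

omit hB in
lemma prim_inr (i : Fin (n + 1)) : ∃ w, fam n B (Sum.inr i) w = 1 := by
  have h10 := one_ne hn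
  have h20 := two_ne hn
  have hne1 : i ≠ i + 1 := fun hh => h10 (left_eq_add.mp hh)
  have hne2 : i ≠ i - 1 := fun hh => h10 (sub_eq_self.mp hh.symm)
  have hne3 : i - 1 ≠ i + 1 := by
    intro hh
    have h11 : i + (1 + 1) = i := by
      rw [← add_assoc, ← hh, sub_add_cancel]
    exact h20 (add_eq_left.mp h11)
  obtain ⟨w, hw⟩ := exists_ext (Pi.single (i - 1) 1 - Pi.single (i + 1) 1 : Fin (n + 1) → ℤ)
    (by simp)
  refine ⟨w, ?_⟩
  rw [fam_inr, hw]
  simp [hne1, hne2, hne3]

lemma facet_inl (i : Fin (n + 1)) : ∃ c ∈ cone (fam n B), 0 < c.2 ∧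
    fam n B (Sum.inl i) c.1 + c.2 = 0 ∧ ∀ k, k ≠ Sum.inl i → 0 < fam n B k c.1 + c.2 := by
  have hnB : (2 : ℤ) ≤ n := by exact_mod_cast hn
  have hBB : (2 * n + 1 : ℤ) ≤ B := by exact_mod_cast hB
  have h10 := one_ne hn
  have hne1 : i ≠ i + 1 := fun hh => h10 (left_eq_add.mp hh)
  set A : ℤ := n * B + 1 with hA
  have hAB : 2 * (B : ℤ) + 1 ≤ A := by rw [hA]; nlinarith
  set g : Fin (n + 1) → ℤ := fun k => 1 + (Pi.single i (-(n : ℤ) - 1) : Fin (n + 1) → ℤ) k with hg
  have hgi : g i = -n := by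
    rw [hg]; simp
  have hgk : ∀ k, k ≠ i → g k = 1 := by
    intro k hk
    rw [hg]; simp [hk]
  have hg1 : ∀ k, g k ≤ 1 := by
    intro k
    by_cases hk : k = i
    · rw [hk, hgi]; linarith
    · rw [hgk k hk]
  have hgn : ∀ k, -(n : ℤ) ≤ g k := by
    intro k
    by_cases hk : k = i
    · rw [hk, hgi]
    · rw [hgk k hk]; linarith
  obtain ⟨w, hw⟩ := exists_ext g (by
    rw [hg, Finset.sum_add_distrib, Finset.sum_pi_single']
    simp)
  obtain ⟨d, hd⟩ : ∃ d : ℕ, (d : ℤ) = A * n - 1 := by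
    refine ⟨(A * n - 1).toNat, Int.toNat_of_nonneg ?_⟩
    nlinarith
  have key : ∀ k, k ≠ Sum.inl i → 0 < fam n B k w + d := by
    intro k hk
    rcases k with k | k
    · have hki : k ≠ i := fun h => hk (by rw [h])
      rw [fam_inl, hw, hgk k hki, ← hA, hd]
      have := hgn (k + 1)
      nlinarith
    · rw [fam_inr, hw, hd]
      have h1 := hg1 k
      have h2 := hgn (k - 1)
      have h3 : -(B : ℤ) ≤ -B * g k := by nlinarith
      nlinarith
  have heq : fam n B (Sum.inl i) w + d = 0 := by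
    rw [fam_inl, hw, hgi, hgk (i + 1) (Ne.symm hne1), ← hA, hd]
    ring
  refine ⟨(w, d), ?_, ?_, heq, key⟩
  · intro k
    by_cases hk : k = Sum.inl i
    · rw [hk]; exact heq.ge
    · exact (key k hk).le
  · have : (0 : ℤ) < d := by rw [hd]; nlinarith
    exact_mod_cast this

lemma facet_inr (i : Fin (n + 1)) : ∃ c ∈ cone (fam n B), 0 < c.2 ∧
    fam n B (Sum.inr i) c.1 + c.2 = 0 ∧ ∀ k, k ≠ Sum.inr i → 0 < fam n B k c.1 + c.2 := by
  have hnB : (2 : ℤ) ≤ n := by exact_mod_cast hn
  have hBB : (2 * n + 1 : ℤ) ≤ B := by exact_mod_cast hB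
  have h10 := one_ne hn
  have hne2 : i - 1 ≠ i := fun hh => h10 (sub_eq_self.mp hh)
  set A : ℤ := n * B + 1 with hA
  have hAB : 2 * (B : ℤ) + 1 ≤ A := by rw [hA]; nlinarith
  set b : ℤ := B * (B + 1) with hb
  set c : ℤ := B ^ 2 + 2 * B + 2 with hc
  set a : ℤ := (n - 1) * b + c with ha
  have hb0 : 0 < b := by rw [hb]; nlinarith
  have hc0 : 0 < c := by rw [hc]; nlinarith
  have ha0 : 0 < a := by rw [ha]; nlinarith
  set g : Fin (n + 1) → ℤ := fun k => -b + (Pi.single i (a + b) : Fin (n + 1) → ℤ) k +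
    (Pi.single (i - 1) (b - c) : Fin (n + 1) → ℤ) k with hg
  have hgi : g i = a := by
    rw [hg]; simp [hne2.symm]
  have hgi1 : g (i - 1) = -c := by
    rw [hg]; simp [hne2]; ring
  have hgk : ∀ k, k ≠ i → k ≠ i - 1 → g k = -b := by
    intro k hk hk'
    rw [hg]; simp [hk, hk']
  have hbc : b < c := by rw [hb, hc]; nlinarith
  have hgc : ∀ k, -c ≤ g k := by
    intro k
    by_cases hk : k = i
    · rw [hk, hgi]; linarith
    · by_cases hk' : k = i - 1
      · rw [hk', hgi1]
      · rw [hgk k hk hk']; linarith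
  have hgb : ∀ k, k ≠ i → g k ≤ -b := by
    intro k hk
    by_cases hk' : k = i - 1
    · rw [hk', hgi1]; linarith
    · rw [hgk k hk hk']
  obtain ⟨w, hw⟩ := exists_ext g (by
    rw [hg, Finset.sum_add_distrib, Finset.sum_add_distrib, Finset.sum_pi_single',
      Finset.sum_pi_single']
    simp
    rw [ha]
    ring)
  obtain ⟨d, hd⟩ : ∃ d : ℕ, (d : ℤ) = c + B * a := by
    refine ⟨(c + B * a).toNat, Int.toNat_of_nonneg ?_⟩
    positivity
  have hBa : 0 < B * a := mul_pos (by linarith) ha0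
  have key : ∀ k, k ≠ Sum.inr i → 0 < fam n B k w + d := by
    intro k hk
    rcases k with k | k
    · rw [fam_inl, hw, ← hA, hd]
      by_cases hki : k = i
      · rw [hki, hgi]
        have h1 := hgc (i + 1)
        have h2 : 0 < A * a := mul_pos (by linarith) ha0
        linarith
      · by_cases hki' : k = i - 1
        · rw [hki', hgi1, sub_add_cancel, hgi]
          have h3 : A * -c + a + (c + B * a) = B ^ 2 + 3 * B + 2 - n * B := by
            rw [ha, hb, hc, hA]; ring
          rw [h3]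
          nlinarith
        · rw [hgk k hki hki']
          have h1 := hgc (k + 1)
          have h3 : A * -b + -c + (c + B * a) = B := by
            rw [ha, hb, hc, hA]; ring
          linarith
    · have hki : k ≠ i := fun h => hk (by rw [h])
      rw [fam_inr, hw, hd]
      have h1 := hgb k hki
      have h2 := hgc (k - 1)
      have h3 : 0 ≤ -B * g k := by nlinarith
      linarith
  have heq : fam n B (Sum.inr i) w + d = 0 := by
    rw [fam_inr, hw, hgi, hgi1, hd]
    ring
  refine ⟨(w, d), ?_, ?_, heq, key⟩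
  · intro k
    by_cases hk : k = Sum.inr i
    · rw [hk]; exact heq.ge
    · exact (key k hk).le
  · have : (0 : ℤ) < d := by rw [hd]; linarith
    exact_mod_cast this

lemma fam_facets : IsFacets (fam n B) where
  prim := by
    rintro (i | i)
    · exact prim_inl hn i
    · exact prim_inr hn i
  facet := by
    rintro (i | i)
    · exact facet_inl hn hB i
    · exact facet_inr hn hB i

/-- The heights of the functionals. -/
lemma fam_height (w : Fin n → ℤ) (d : ℕ) (h : ∀ j, 0 ≤ fam n B j w + d) :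
    ∀ j, (((n * B + 1) * (B + 1) : ℕ) : ℤ) * fam n B j w ≤
      ((n * ((n * B + 1) * (B + 1)) - B : ℕ) : ℤ) * d := by
  have hnB : (2 : ℤ) ≤ n := by exact_mod_cast hn
  have hBB : (2 * n + 1 : ℤ) ≤ B := by exact_mod_cast hB
  have hle0 : B ≤ (n * B + 1) * (B + 1) :=
    (Nat.le_succ B).trans (Nat.le_mul_of_pos_left _ (Nat.succ_pos _))
  have hle : B ≤ n * ((n * B + 1) * (B + 1)) :=
    hle0.trans (Nat.le_mul_of_pos_left _ (by omega))
  rintro (i | i)
  · have h1 := height_inl hn hB h i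
    push_cast [hle]
    exact h1
  · have h1 := height_inr hn hB h i
    push_cast [hle]
    have hd : (0 : ℤ) ≤ d := by positivity
    have h2 : (0 : ℤ) ≤ (n * B + 1) * (B + 1) := by positivity
    have h3 := mul_le_mul_of_nonneg_left h1 h2
    have h6 : (B : ℤ) ≤ (n * B + 1) * (B + 1) := by exact_mod_cast hle0
    have h4 : ((n * B + 1) * (B + 1) : ℤ) ≤ n * ((n * B + 1) * (B + 1)) - B := by
      have := mul_le_mul_of_nonneg_right hnB h2
      linarith
    have h5 := mul_le_mul_of_nonneg_right h4 hd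
    linarith

/-- A point where the first functional is large. -/
lemma fam_point : ∃ w : Fin n → ℤ, (∀ j, 0 ≤ fam n B j w + ((n * B + 2 : ℕ) : ℤ)) ∧
    fam n B (Sum.inl 0) w = (n * B + 1) * n - 1 := by
  have hnB : (2 : ℤ) ≤ n := by exact_mod_cast hn
  have hBB : (2 * n + 1 : ℤ) ≤ B := by exact_mod_cast hB
  have h10 := one_ne hn
  set g : Fin (n + 1) → ℤ := fun k => -1 + (Pi.single 0 ((n : ℤ) + 1) : Fin (n + 1) → ℤ) k with hg
  have hg0 : g 0 = n := by
    rw [hg]; simp
  have hgk : ∀ k, k ≠ 0 → g k = -1 := by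
    intro k hk
    rw [hg]; simp [hk]
  have hg1 : ∀ k, -1 ≤ g k := by
    intro k
    by_cases hk : k = 0
    · rw [hk, hg0]; linarith
    · rw [hgk k hk]
  obtain ⟨w, hw⟩ := exists_ext g (by
    rw [hg, Finset.sum_add_distrib, Finset.sum_pi_single']
    simp)
  refine ⟨w, ?_, ?_⟩
  · rintro (k | k)
    · rw [fam_inl, hw]
      have h1 := hg1 (k + 1)
      push_cast
      by_cases hk : k = 0
      · rw [hk] at h1 ⊢
        rw [hg0]
        have h5 : (0 : ℤ) ≤ (n * B + 1) * n := by positivity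
        have h6 : (0 : ℤ) ≤ n * B := by positivity
        linarith
      · rw [hgk k hk]
        linarith
    · rw [fam_inr, hw]
      have h1 := hg1 (k - 1)
      push_cast
      by_cases hk : k = 0
      · rw [hk] at h1 ⊢
        rw [hg0]
        linarith
      · rw [hgk k hk]
        nlinarith
  · rw [fam_inl, hw, hg0, zero_add, hgk 1 h10]
    ring

end properties

end Pool.Agent.Helper19.Fano
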