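import Mathlib

/-!
# Stalks and the function field of `Proj` of a graded domain
-/

set_option autoImplicit false
set_option linter.unusedSectionVars false

open AlgebraicGeometry CategoryTheory TopologicalSpace HomogeneousLocalization

namespace Pool.Agent.Helper19.Fano

lemma topIso_inv_eq {X : Scheme.{0}} (U : X.Opens) (h : U = ⊤) :
    U.topIso.inv ≫ (X.isoOfEq h).inv.appTop ≫ X.topIso.inv.appTop =
      X.presheaf.map (eqToHom (by rw [h])) := by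
  subst h
  have h2 : X.topIso.inv ≫ Scheme.Opens.ι ⊤ = 𝟙 _ := X.topIso.inv_hom_id
  have h3 : Scheme.Opens.topIso (X := X) ⊤ = Scheme.Opens.topIso (X := X) ⊤ := rfl
  have h1 : (Scheme.Opens.topIso (X := X) ⊤).inv = (Scheme.Opens.ι (X := X) ⊤).appTop := by
    simp only [Scheme.Opens.topIso_inv, Scheme.Opens.ι_appTop]
    exact congrArg _ (Subsingleton.elim _ _)
  rw [h1]
  rw [Scheme.isoOfEq_rfl]
  simp only [Iso.refl_inv, Scheme.Hom.id_appTop, Category.id_comp]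
  rw [← Scheme.Hom.comp_appTop, h2]
  simp

section projDomain

variable {A : Type} [CommRing A] {σ : Type} [SetLike σ A] [AddSubgroupClass σ A]
  (𝒜 : ℕ → σ) [GradedRing 𝒜]

/-- A point of `Proj`, seen as a homogeneous prime ideal. -/
def toPS (x : Proj 𝒜) : ProjectiveSpectrum 𝒜 := x

/-- A homogeneous prime ideal seen as a point of `Proj`. -/
def ofPS (x : ProjectiveSpectrum 𝒜) : Proj 𝒜 := x

@[simp] lemma toPS_ofPS (x : ProjectiveSpectrum 𝒜) : toPS 𝒜 (ofPS 𝒜 x) = x := rfl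
@[simp] lemma ofPS_toPS (x : Proj 𝒜) : ofPS 𝒜 (toPS 𝒜 x) = x := rfl

/-- The prime ideal of a point. -/
def pid (x : Proj 𝒜) : Ideal A := (toPS 𝒜 x).asHomogeneousIdeal.toIdeal

instance (x : Proj 𝒜) : (pid 𝒜 x).IsPrime := (toPS 𝒜 x).isPrime

/-- In `Proj`, specialization is inclusion of ideals. -/
lemma specializes_iff (x y : Proj 𝒜) : x ⤳ y ↔ pid 𝒜 x ≤ pid 𝒜 y := by
  rw [specializes_iff_mem_closure]
  exact (ProjectiveSpectrum.le_iff_mem_closure (𝒜 := 𝒜) (toPS 𝒜 x) (toPS 𝒜 y)).symm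

variable [IsDomain A]

/-- The generic point. -/
def genPt (h : ∃ d, 0 < d ∧ ∃ a ∈ 𝒜 d, a ≠ 0) : Proj 𝒜 := ofPS 𝒜
  { asHomogeneousIdeal := ⊥
    isPrime := by
      rw [HomogeneousIdeal.toIdeal_bot]
      exact Ideal.isPrime_bot
    not_irrelevant_le := by
      intro hle
      obtain ⟨d, hd, a, ha, ha0⟩ := h
      have h1 : a ∈ HomogeneousIdeal.irrelevant 𝒜 := by
        rw [HomogeneousIdeal.mem_irrelevant_iff, GradedRing.proj_apply,
          DirectSum.decompose_of_mem_ne 𝒜 ha hd.ne']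
      have h2 : a ∈ (⊥ : HomogeneousIdeal 𝒜).toIdeal := hle h1
      rw [HomogeneousIdeal.toIdeal_bot, Ideal.mem_bot] at h2
      exact ha0 h2 }

lemma pid_genPt (h : ∃ d, 0 < d ∧ ∃ a ∈ 𝒜 d, a ≠ 0) : pid 𝒜 (genPt 𝒜 h) = ⊥ :=
  HomogeneousIdeal.toIdeal_bot

lemma genPt_specializes (h : ∃ d, 0 < d ∧ ∃ a ∈ 𝒜 d, a ≠ 0) (x : Proj 𝒜) :
    genPt 𝒜 h ⤳ x := by
  rw [specializes_iff, pid_genPt]
  exact bot_le

lemma closure_genPt (h : ∃ d, 0 < d ∧ ∃ a ∈ 𝒜 d, a ≠ 0) :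
    closure {genPt 𝒜 h} = (Set.univ : Set (Proj 𝒜)) := by
  rw [Set.eq_univ_iff_forall]
  intro x
  rw [← specializes_iff_mem_closure]
  exact genPt_specializes 𝒜 h x

lemma irreducible (h : ∃ d, 0 < d ∧ ∃ a ∈ 𝒜 d, a ≠ 0) : IrreducibleSpace (Proj 𝒜) := by
  have h1 : IsIrreducible (closure {genPt 𝒜 h}) := isIrreducible_singleton.closure
  rw [closure_genPt] at h1
  exact { isPreirreducible_univ := h1.2, toNonempty := ⟨genPt 𝒜 h⟩ }

lemma isReduced : AlgebraicGeometry.IsReduced (Proj 𝒜) := by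
  have : ∀ x : Proj 𝒜, _root_.IsReduced ((Proj 𝒜).presheaf.stalk x) := by
    intro x
    set P := (toPS 𝒜 x).asHomogeneousIdeal.toIdeal with hP
    have hdom : IsDomain (Localization P.primeCompl) :=
      IsLocalization.isDomain_localization (Ideal.primeCompl_le_nonZeroDivisors _)
    have h1 : _root_.IsReduced (HomogeneousLocalization.AtPrime 𝒜 P) := by
      have hinj : Function.Injective (algebraMap (HomogeneousLocalization.AtPrime 𝒜 P)
        (Localization P.primeCompl)) := val_injective _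
      exact isReduced_of_injective _ hinj
    exact isReduced_of_injective (Proj.stalkIso' 𝒜 (toPS 𝒜 x)).toRingHom
      (Proj.stalkIso' 𝒜 (toPS 𝒜 x)).injective
  exact isReduced_of_isReduced_stalk (Proj 𝒜)

lemma isIntegral (h : ∃ d, 0 < d ∧ ∃ a ∈ 𝒜 d, a ≠ 0) : IsIntegral (Proj 𝒜) := by
  have := irreducible 𝒜 h
  have := isReduced 𝒜
  exact isIntegral_of_irreducibleSpace_of_isReduced (Proj 𝒜)


lemma genericPoint_eq [IsIntegral (Proj 𝒜)] (h : ∃ d, 0 < d ∧ ∃ a ∈ 𝒜 d, a ≠ 0) :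
    genericPoint (Proj 𝒜) = genPt 𝒜 h := by
  apply (genericPoint_spec (Proj 𝒜)).eq
  exact closure_genPt 𝒜 h

omit [IsDomain A] in
/-- stalk iso at a point -/
noncomputable def stIso (x : Proj 𝒜) :
    (Proj 𝒜).presheaf.stalk x ≃+* HomogeneousLocalization.AtPrime 𝒜 (pid 𝒜 x) :=
  Proj.stalkIso' 𝒜 (toPS 𝒜 x)

omit [IsDomain A] in
/-- Key: compatibility of specialization maps with the homogeneous localizations. -/
lemma stIso_specializes (x y : Proj 𝒜) (hxy : x ⤳ y)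
    (d : ℕ) (a b : 𝒜 d) (hby : (b : A) ∈ (pid 𝒜 y).primeCompl)
    (hbx : (b : A) ∈ (pid 𝒜 x).primeCompl) :
    stIso 𝒜 x ((Proj 𝒜).presheaf.stalkSpecializes hxy
      ((stIso 𝒜 y).symm (.mk ⟨d, a, b, hby⟩))) = .mk ⟨d, a, b, hbx⟩ := by
  let sec : Γ(Proj 𝒜, Proj.basicOpen 𝒜 (b : A)) :=
    sectionInBasicOpen 𝒜 (toPS 𝒜 y) ⟨d, a, b, hby⟩
  have h1 : (stIso 𝒜 y).symm (.mk ⟨d, a, b, hby⟩) =
    (Proj 𝒜).presheaf.germ (Proj.basicOpen 𝒜 (b : A)) y hby sec := rfl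
  have h2 := (Proj 𝒜).presheaf.germ_stalkSpecializes (U := Proj.basicOpen 𝒜 (b : A)) hby hxy
  have h3 : (Proj 𝒜).presheaf.stalkSpecializes hxy
    ((Proj 𝒜).presheaf.germ (Proj.basicOpen 𝒜 (b : A)) y hby sec) =
    (Proj 𝒜).presheaf.germ (Proj.basicOpen 𝒜 (b : A)) x hbx sec :=
    congrArg (fun φ => φ.hom sec) h2
  rw [h1, h3]
  exact Proj.stalkIso'_germ 𝒜 _ _ _ _


section iota

variable [IsIntegral (Proj 𝒜)] {F : Type} [Field F] (j : A →+* F) (hj : Function.Injective j)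

/-- The generic point. -/
noncomputable abbrev eta : Proj 𝒜 := genericPoint (Proj 𝒜)

/-- The function field of `Proj` embedded in a field containing the homogeneous coordinate
ring. -/
noncomputable def iotaF : (Proj 𝒜).functionField →+* F :=
  ((IsLocalization.lift (M := (pid 𝒜 (eta 𝒜)).primeCompl)
    (S := Localization (pid 𝒜 (eta 𝒜)).primeCompl) (g := j)
    (fun y => by
      rw [isUnit_iff_ne_zero, Ne, map_eq_zero_iff j hj]
      intro hy
      apply y.2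
      rw [hy]
      exact zero_mem _)).comp (algebraMap (HomogeneousLocalization.AtPrime 𝒜
        (pid 𝒜 (eta 𝒜))) _)).comp (stIso 𝒜 (eta 𝒜)).toRingHom

lemma iotaF_mk (d : ℕ) (a b : 𝒜 d) (hb : (b : A) ∈ (pid 𝒜 (eta 𝒜)).primeCompl) :
    iotaF 𝒜 j hj ((stIso 𝒜 (eta 𝒜)).symm (.mk ⟨d, a, b, hb⟩)) = j a / j b := by
  simp only [iotaF, RingHom.comp_apply, RingEquiv.toRingHom_eq_coe, RingEquiv.coe_toRingHom,
    RingEquiv.apply_symm_apply, HomogeneousLocalization.algebraMap_apply,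
    HomogeneousLocalization.val_mk, Localization.mk_eq_mk']
  rw [IsLocalization.lift_mk'_spec]
  have : j b ≠ 0 := by
    rw [Ne, map_eq_zero_iff j hj]
    intro h0
    apply hb
    rw [h0]; exact zero_mem _
  field_simp

/-- The point `eta` specializes to every point. -/
lemma eta_specializes (x : Proj 𝒜) : eta 𝒜 ⤳ x := (genericPoint_spec (Proj 𝒜)).specializes trivial

lemma not_mem_eta {x : Proj 𝒜} {b : A} (hb : b ∉ pid 𝒜 x) : b ∈ (pid 𝒜 (eta 𝒜)).primeCompl := by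
  intro h
  exact hb (((specializes_iff 𝒜 _ _).mp (eta_specializes 𝒜 x)) h)

lemma iotaF_symm_mk (x : Proj 𝒜) (d : ℕ) (a b : 𝒜 d) (hb : (b : A) ∉ pid 𝒜 x) :
    iotaF 𝒜 j hj (algebraMap ((Proj 𝒜).presheaf.stalk x) (Proj 𝒜).functionField
      ((stIso 𝒜 x).symm (.mk ⟨d, a, b, hb⟩))) = j a / j b := by
  have hb' := not_mem_eta 𝒜 hb
  have h1 := stIso_specializes 𝒜 (eta 𝒜) x (eta_specializes 𝒜 x) d a b hb hb'
  have h2 : algebraMap ((Proj 𝒜).presheaf.stalk x) (Proj 𝒜).functionField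
      ((stIso 𝒜 x).symm (.mk ⟨d, a, b, hb⟩)) =
      (stIso 𝒜 (eta 𝒜)).symm (.mk ⟨d, a, b, hb'⟩) := by
    rw [← h1, RingEquiv.symm_apply_apply]
    rfl
  rw [h2, iotaF_mk]

lemma isUnit_symm_mk (x : Proj 𝒜) (d : ℕ) (a b : 𝒜 d) (hb : (b : A) ∉ pid 𝒜 x) :
    IsUnit ((stIso 𝒜 x).symm (.mk ⟨d, a, b, hb⟩)) ↔ (a : A) ∉ pid 𝒜 x := by
  have h3 : IsUnit ((stIso 𝒜 x).symm (.mk ⟨d, a, b, hb⟩)) ↔
      IsUnit (HomogeneousLocalization.mk (𝒜 := 𝒜) (x := (pid 𝒜 x).primeCompl)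
        ⟨d, a, b, hb⟩) := by
    exact MulEquiv.isUnit_map (stIso 𝒜 x).symm
  rw [h3, ← HomogeneousLocalization.isUnit_iff_isUnit_val, HomogeneousLocalization.val_mk,
    Localization.mk_eq_mk', IsLocalization.AtPrime.isUnit_mk'_iff]
  rfl

/-- Every element of the stalk at `x` is a fraction, and its image in the function field is the
same fraction. -/
lemma exists_frac (x : Proj 𝒜) (s : (Proj 𝒜).presheaf.stalk x) :
    ∃ (d : ℕ) (a b : 𝒜 d), (b : A) ∉ pid 𝒜 x ∧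
      iotaF 𝒜 j hj (algebraMap _ (Proj 𝒜).functionField s) = j a / j b ∧
      (IsUnit s ↔ (a : A) ∉ pid 𝒜 x) := by
  obtain ⟨c, hc⟩ := HomogeneousLocalization.mk_surjective (stIso 𝒜 x s)
  obtain ⟨d, a, b, hb⟩ := c
  have hs : s = (stIso 𝒜 x).symm (.mk ⟨d, a, b, hb⟩) := by
    rw [hc, RingEquiv.symm_apply_apply]
  refine ⟨d, a, b, hb, ?_, ?_⟩
  · rw [hs]
    exact iotaF_symm_mk 𝒜 j hj x d a b hb
  · rw [hs]
    exact isUnit_symm_mk 𝒜 x d a b hb

/-- Conversely every fraction with denominator outside the prime comes from the stalk. -/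
lemma exists_stalk (x : Proj 𝒜) (d : ℕ) (a b : 𝒜 d) (hb : (b : A) ∉ pid 𝒜 x) :
    ∃ s : (Proj 𝒜).presheaf.stalk x,
      iotaF 𝒜 j hj (algebraMap _ (Proj 𝒜).functionField s) = j a / j b ∧
      (IsUnit s ↔ (a : A) ∉ pid 𝒜 x) :=
  ⟨(stIso 𝒜 x).symm (.mk ⟨d, a, b, hb⟩), iotaF_symm_mk 𝒜 j hj x d a b hb,
    isUnit_symm_mk 𝒜 x d a b hb⟩

end iota

end projDomain

section structureMap

variable {A : Type} [CommRing A] {σ : Type} [SetLike σ A] [AddSubgroupClass σ A]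
  (𝒜 : ℕ → σ) [GradedRing 𝒜]

lemma toSpecZero_appTop : (Scheme.ΓSpecIso _).inv ≫ (Proj.toSpecZero 𝒜).appTop =
  CommRingCat.ofHom (fromZeroRingHom 𝒜 (Submonoid.powers (1:A))) ≫ Proj.awayToSection 𝒜 1 ≫
    (Proj 𝒜).presheaf.map (eqToHom (by simp)) := by
  rw [Proj.toSpecZero]
  simp only [Scheme.Hom.comp_appTop, Category.assoc]
  have h1 : (Proj.basicOpenToSpec 𝒜 1).appTop = (Scheme.ΓSpecIso _).hom ≫
    Proj.awayToSection 𝒜 1 ≫ (Proj.basicOpen 𝒜 1).topIso.inv := Proj.basicOpenToSpec_app_top 𝒜 (1:A)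
  rw [← Scheme.ΓSpecIso_inv_naturality_assoc, h1]
  simp only [Category.assoc, Iso.inv_hom_id_assoc]
  congr 2
  exact topIso_inv_eq _ _
  

lemma germ_toSpecZero (x : Proj 𝒜) (z : 𝒜 0) :
    (Proj 𝒜).presheaf.germ ⊤ x trivial ((Proj.toSpecZero 𝒜).appTop
      ((Scheme.ΓSpecIso (CommRingCat.of (𝒜 0))).inv z)) = (stIso 𝒜 x).symm
        (.mk ⟨0, z, 1, (pid 𝒜 x).primeCompl.one_mem⟩) := by
  have h1 := congrArg (fun φ => φ.hom z) (toSpecZero_appTop 𝒜)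
  simp only [CommRingCat.hom_comp, RingHom.comp_apply] at h1
  have h2 : (Proj.toSpecZero 𝒜).appTop ((Scheme.ΓSpecIso (CommRingCat.of (𝒜 0))).inv z) = _ := h1
  rw [h2]
  have hle : (⊤ : (Proj 𝒜).Opens) ≤ Proj.basicOpen 𝒜 1 := by simp
  have h3 := (Proj 𝒜).presheaf.germ_res (homOfLE hle) x trivial
  have h4 : (eqToHom (by simp) : Opposite.op (Proj.basicOpen 𝒜 (1:A)) ⟶ Opposite.op ⊤) =
    (homOfLE hle).op := Subsingleton.elim _ _
  rw [h4]
  have h5 := congrArg (fun φ => φ.hom ((Proj.awayToSection 𝒜 1).hom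
    ((fromZeroRingHom 𝒜 (Submonoid.powers (1:A))) z))) h3
  simp only [CommRingCat.hom_comp, RingHom.comp_apply] at h5
  refine Eq.trans h5 ?_
  have h6 : x ∈ Proj.basicOpen 𝒜 (1:A) := hle trivial
  apply (stIso 𝒜 x).injective
  rw [RingEquiv.apply_symm_apply]
  exact Proj.stalkIso'_germ 𝒜 (Proj.basicOpen 𝒜 (1:A)) (toPS 𝒜 x) h6 _

lemma iotaF_germ_toSpecZero [IsDomain A] [IsIntegral (Proj 𝒜)] {F : Type} [Field F] (j : A →+* F)
    (hj : Function.Injective j) (z : 𝒜 0) :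
    iotaF 𝒜 j hj ((Proj 𝒜).presheaf.germ ⊤ (genericPoint (Proj 𝒜)) trivial
      ((Proj.toSpecZero 𝒜).appTop ((Scheme.ΓSpecIso (CommRingCat.of (𝒜 0))).inv z))) = j z := by
  rw [germ_toSpecZero]
  refine (iotaF_mk 𝒜 j hj 0 z 1 _).trans ?_
  simp

end structureMap

end Pool.Agent.Helper19.Fano
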