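import Pool.Agent.Helper19.Fano.ToricVal

/-!
# Valuations of irreducible hypersurfaces in the torus
-/

set_option autoImplicit false
set_option linter.unusedSectionVars false
set_option linter.style.haveILetI false

open WithZero AddMonoidAlgebra

namespace Pool.Agent.Helper19.Fano

namespace TorusField

variable {n : ℕ} {K : Type} [Field K] [Algebra ℂ K] (T : TorusField n K)

theorem exists_vQ (q : MvPolynomial (Fin n) ℂ) (hq : Prime q) :
    ∃ v : Valuation K ℤᵐ⁰, Function.Surjective v ∧ (∀ p, v (T.polyHom p) ≤ 1) ∧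
      (∀ p, v (T.polyHom p) < 1 ↔ q ∣ p) ∧
      (∀ z, v z ≤ 1 → ∃ p s, ¬ q ∣ s ∧ z = T.polyHom p / T.polyHom s) := by
  letI := T.polyAlg
  haveI := T.polyAlg_isFractionRing
  set P : Ideal (MvPolynomial (Fin n) ℂ) := Ideal.span {q} with hP
  haveI : P.IsPrime := (Ideal.span_singleton_prime hq.ne_zero).mpr hq
  let O := Localization.subalgebra.ofField K P.primeCompl P.primeCompl_le_nonZeroDivisors
  haveI : IsLocalization P.primeCompl O := inferInstance
  haveI : IsLocalization.AtPrime O P := this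
  haveI : IsLocalRing O := IsLocalization.AtPrime.isLocalRing O P
  haveI : IsNoetherianRing O := IsLocalization.isNoetherianRing P.primeCompl O inferInstance
  haveI : IsFractionRing O K := inferInstance
  have hmax : P.map (algebraMap (MvPolynomial (Fin n) ℂ) O) = IsLocalRing.maximalIdeal O :=
    IsLocalization.AtPrime.map_eq_maximalIdeal P O
  have hmax' : IsLocalRing.maximalIdeal O = Ideal.span {algebraMap (MvPolynomial (Fin n) ℂ) O q} := by
    rw [← hmax, hP, Ideal.map_span, Set.image_singleton]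
  have hq0 : algebraMap (MvPolynomial (Fin n) ℂ) O q ≠ 0 := by
    intro h0
    have h1 : algebraMap (MvPolynomial (Fin n) ℂ) K q = 0 := by
      rw [IsScalarTower.algebraMap_apply (MvPolynomial (Fin n) ℂ) O K, h0, map_zero]
    have h2 : T.polyHom q = 0 := h1
    rw [map_eq_zero_iff T.polyHom T.polyHom_injective] at h2
    exact hq.ne_zero h2
  have hfield : ¬ IsField O := by
    rw [IsLocalRing.isField_iff_maximalIdeal_eq, hmax', Ideal.span_singleton_eq_bot]
    exact hq0
  have hprin : (IsLocalRing.maximalIdeal O).IsPrincipal := ⟨⟨_, hmax'⟩⟩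
  haveI : IsDiscreteValuationRing O :=
    ((IsDiscreteValuationRing.TFAE O hfield).out 0 4).mpr hprin
  refine ⟨(IsDiscreteValuationRing.maximalIdeal O).valuation K,
    IsDedekindDomain.HeightOneSpectrum.valuation_surjective _ _, fun p => ?_, fun p => ?_,
    fun z hz => ?_⟩
  · exact (IsDiscreteValuationRing.maximalIdeal O).valuation_le_one (K := K) (algebraMap (MvPolynomial (Fin n) ℂ) O p)
  · have h1 : T.polyHom p = algebraMap O K (algebraMap (MvPolynomial (Fin n) ℂ) O p) := rfl
    rw [h1, IsDedekindDomain.HeightOneSpectrum.valuation_lt_one_iff_mem]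
    change algebraMap (MvPolynomial (Fin n) ℂ) O p ∈ IsLocalRing.maximalIdeal O ↔ _
    rw [IsLocalization.AtPrime.to_map_mem_maximal_iff O P, hP, Ideal.mem_span_singleton]
  · obtain ⟨⟨a, ha⟩, rfl⟩ := IsDiscreteValuationRing.exists_lift_of_le_one hz
    obtain ⟨p, s, hs, h⟩ := ha
    refine ⟨p, s, ?_, ?_⟩
    · intro hdvd
      exact hs (Ideal.mem_span_singleton.mpr hdvd)
    · change a = _
      rw [h, div_eq_mul_inv]
      rfl

/-- The order of characters as an additive map. -/
noncomputable def xi (E : DivVal K) : (Fin n → ℤ) →+ ℤ where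
  toFun w := E.ord (T.chi w)
  map_zero' := by rw [chi_zero, E.ord_one]
  map_add' a b := by rw [chi_add, E.ord_mul (T.chi_ne_zero a) (T.chi_ne_zero b)]

lemma xi_apply (E : DivVal K) (w : Fin n → ℤ) : T.xi E w = E.ord (T.chi w) := rfl

lemma v_chi_eq (E : DivVal K) (w : Fin n → ℤ) : E.v (T.chi w) = exp (-T.xi E w) :=
  E.v_eq_exp (T.chi_ne_zero w)

/-- The prime divisor `E` is the closure of the hypersurface `q = 0` of the torus. -/
structure IsHyp (E : DivVal K) (q : MvPolynomial (Fin n) ℂ) : Prop where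
  le_one : ∀ p, E.v (T.polyHom p) ≤ 1
  lt_one : ∀ p, E.v (T.polyHom p) < 1 ↔ q ∣ p
  frac : ∀ z, E.v z ≤ 1 → ∃ p s, ¬ q ∣ s ∧ z = T.polyHom p / T.polyHom s
  chi : ∀ w, E.v (T.chi w) = 1

lemma IsHyp.eq_one {T : TorusField n K} {E : DivVal K} {q : MvPolynomial (Fin n) ℂ}
    (h : T.IsHyp E q) {p : MvPolynomial (Fin n) ℂ} (hp : ¬ q ∣ p) : E.v (T.polyHom p) = 1 := by
  apply le_antisymm (h.le_one p)
  rw [← not_lt, h.lt_one]
  exact hp

theorem exists_divQ (q : MvPolynomial (Fin n) ℂ) (hq : Prime q) (hX : ¬ q ∣ allX n) :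
    ∃ E : DivVal K, T.IsHyp E q := by
  classical
  obtain ⟨v, hv1, hv2, hv3, hv4⟩ := T.exists_vQ q hq
  have hle : ∀ c : ℂ, v (algebraMap ℂ K c) ≤ 1 := by
    intro c
    have := hv2 (MvPolynomial.C c)
    rwa [MvPolynomial.algHom_C] at this
  have hone : ∀ p, ¬ q ∣ p → v (T.polyHom p) = 1 := by
    intro p hp
    apply le_antisymm (hv2 p)
    rw [← not_lt, hv3]
    exact hp
  have hadj : ∀ p, T.polyHom p ∈ Algebra.adjoin ℂ
      (((Finset.univ : Finset (Fin n)).image fun i => T.polyHom (MvPolynomial.X i) :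
        Finset K) : Set K) := by
    intro p
    induction p using MvPolynomial.induction_on with
    | C a => rw [MvPolynomial.algHom_C]; exact Subalgebra.algebraMap_mem _ _
    | add p r hp hr => rw [map_add]; exact Subalgebra.add_mem _ hp hr
    | mul_X p i hp =>
      rw [map_mul]
      refine Subalgebra.mul_mem _ hp (Algebra.subset_adjoin ?_)
      rw [Finset.mem_coe, Finset.mem_image]
      exact ⟨i, Finset.mem_univ i, rfl⟩
  let E : DivVal K :=
    { v := v
      surj := hv1
      le_one := hle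
      eft := by
        refine eft_of v hle ((Finset.univ : Finset (Fin n)).image
          fun i => T.polyHom (MvPolynomial.X i)) ?_ ?_
        · intro x hx
          rw [Finset.mem_image] at hx
          obtain ⟨i, -, rfl⟩ := hx
          exact hv2 _
        · intro f hf
          obtain ⟨p, s, hs, rfl⟩ := hv4 f hf
          have hs0 : T.polyHom s ≠ 0 := by
            intro h0
            have := hone s hs
            rw [h0, map_zero] at this
            exact zero_ne_one this
          exact ⟨T.polyHom s, hadj s, hone s hs, by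
            rw [div_mul_cancel₀ _ hs0]
            exact hadj p⟩ }
  refine ⟨E, ⟨hv2, hv3, hv4, fun w => ?_⟩⟩
  have h1 : ∀ i, T.xi E (Pi.single i 1) = 0 := by
    intro i
    have h2 : E.v (T.chi (Pi.single i 1)) = 1 := by
      rw [← polyHom_X]
      apply hone
      intro hdvd
      exact hX (hdvd.trans (Finset.dvd_prod_of_mem _ (Finset.mem_univ i)))
    rwa [E.v_eq_one_iff (T.chi_ne_zero _)] at h2
  rw [v_chi_eq, u_eq_sum (T.xi E) w]
  simp [h1]

/-- An element of `K` without poles along hypersurfaces of the torus is a Laurent polynomial. -/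
theorem exists_of_v_le (y : K) (h : ∀ (E : DivVal K) (q : MvPolynomial (Fin n) ℂ), Prime q →
    T.IsHyp E q → E.v y ≤ 1) : ∃ a : LP n, y = T.Φ a := by
  letI := T.polyAlg
  haveI := T.polyAlg_isFractionRing
  obtain ⟨a, b, hab, hy⟩ := IsFractionRing.exists_reduced_fraction (A := MvPolynomial (Fin n) ℂ) y
  have hy' : y = T.polyHom a / T.polyHom (b : MvPolynomial (Fin n) ℂ) := by
    rw [← hy, IsFractionRing.mk'_eq_div]
    rfl
  have hb0 : (b : MvPolynomial (Fin n) ℂ) ≠ 0 := nonZeroDivisors.ne_zero b.2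
  have hpr : ∀ q, Prime q → q ∣ (b : MvPolynomial (Fin n) ℂ) → q ∣ allX n := by
    intro q hq hqb
    by_contra hX
    obtain ⟨E, hE⟩ := T.exists_divQ q hq hX
    have h1 := h E q hq hE
    have h2 : ¬ q ∣ a := fun hqa => hq.not_isUnit (hab hqa hqb)
    have h3 := hE.eq_one h2
    have h4 := (hE.lt_one b).mpr hqb
    rw [hy', map_div₀, h3] at h1
    have h5 : E.v (T.polyHom (b : MvPolynomial (Fin n) ℂ)) ≠ 0 := by
      rw [Ne, map_eq_zero, map_eq_zero_iff T.polyHom T.polyHom_injective]
      exact hb0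
    rw [div_le_one₀ (zero_lt_iff.mpr h5)] at h1
    exact absurd h4 (not_lt.mpr h1)
  have hdvd : ∃ k, (b : MvPolynomial (Fin n) ℂ) ∣ allX n ^ k := by
    obtain ⟨f, hf, hfb⟩ := UniqueFactorizationMonoid.exists_prime_factors _ hb0
    have h1 : ∀ f : Multiset (MvPolynomial (Fin n) ℂ), (∀ q ∈ f, q ∣ allX n) →
        f.prod ∣ allX n ^ (Multiset.card f) := by
      intro f
      induction f using Multiset.induction_on with
      | empty => intro _; simp
      | cons q f ih =>
        intro hf
        rw [Multiset.prod_cons, Multiset.card_cons, pow_succ, mul_comm]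
        exact mul_dvd_mul (ih fun r hr => hf r (Multiset.mem_cons_of_mem hr))
          (hf q (Multiset.mem_cons_self q f))
    refine ⟨Multiset.card f, hfb.symm.dvd.trans (h1 f fun q hq => ?_)⟩
    exact hpr q (hf q hq) ((Multiset.dvd_prod hq).trans hfb.dvd)
  obtain ⟨k, c, hc⟩ := hdvd
  have hk : T.polyHom (allX n ^ k) ≠ 0 := by rw [polyHom_allX_pow]; exact T.chi_ne_zero _
  have hbK : T.polyHom (b : MvPolynomial (Fin n) ℂ) ≠ 0 := by
    rwa [Ne, map_eq_zero_iff T.polyHom T.polyHom_injective]
  refine ⟨polyToLP n (a * c) * single (-(fun _ => (k : ℤ))) 1, ?_⟩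
  have h1 : T.Φ (polyToLP n (a * c) * single (-(fun _ => (k : ℤ))) 1) =
      T.polyHom (a * c) * (T.polyHom (allX n ^ k))⁻¹ := by
    rw [map_mul, polyHom_allX_pow, ← chi_neg]
    rfl
  rw [h1, hy', map_mul]
  rw [hc, map_mul] at hk
  rw [hc, map_mul]
  have hcK : T.polyHom c ≠ 0 := right_ne_zero_of_mul hk
  field_simp

/-- The order of the logarithmic form along a hypersurface of the torus is `0`. -/
theorem IsHyp.κ_eq {T : TorusField n K} {E : DivVal K} {q : MvPolynomial (Fin n) ℂ}
    (h : T.IsHyp E q) : T.κ E = 0 := by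
  apply le_antisymm _ (T.κ_nonneg E fun i => h.chi _)
  apply T.κ_le
  intro a ha
  rw [exp_zero]
  apply v_det_le_one
  intro i j
  change E.v (T.θ i (a j)) ≤ 1
  have hθ : ∀ p, E.v (T.θ i (T.polyHom p)) ≤ 1 := by
    intro p
    have h1 : T.polyHom p = T.Φ (polyToLP n p) := rfl
    rw [h1, θ_Φ]
    apply Valuation.map_sum_le
    intro w _
    rw [map_mul, map_mul, h.chi, mul_one]
    exact mul_le_one' (v_int_le E _) (E.le_one _)
  obtain ⟨p, s, hs, hz⟩ := h.frac (a j) (ha j)
  rw [hz]
  exact v_derivation_div E.v (T.θ i) (h.eq_one hs) (h.le_one p) (hθ p) (hθ s)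

end TorusField

end Pool.Agent.Helper19.Fano
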