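import Pool.Agent.Helper19.Fano.Cone
import Pool.Agent.Helper19.Fano.ProjStalk

/-!
# The toric variety of a polytope as a scheme
-/

set_option autoImplicit false
set_option linter.unusedSectionVars false

open AlgebraicGeometry CategoryTheory AddMonoidAlgebra

namespace Pool.Agent.Helper19.Fano

variable {n : ℕ} {J : Type} [Finite J] (u : J → (Fin n → ℤ) →+ ℤ)

/-- The element `(0, 1)` of the cone. -/
def oneDeg : cone u := ⟨(0, 1), fun j => by simp⟩

/-- The toric scheme. -/
noncomputable abbrev toricX : Scheme.{0} := Proj (coneGr u)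

lemma exists_pos_deg : ∃ d, 0 < d ∧ ∃ a ∈ coneGr u d, a ≠ 0 := by
  refine ⟨1, one_pos, single (oneDeg u) 1, single_mem_gradeBy (degHom u) _ _, ?_⟩
  intro h
  have h1 := congrArg (fun a => a.coeff (oneDeg u)) h
  simp at h1

instance toricX_isIntegral : IsIntegral (toricX u) := isIntegral (coneGr u) (exists_pos_deg u)

/-- The constants in degree `0`. -/
noncomputable def toZero : ℂ →+* (coneGr u 0) := algebraMap ℂ (coneGr u 0)

lemma toZero_coe (c : ℂ) : ((toZero u c : coneGr u 0) : coneAlg u) = single 0 c := rfl

lemma toZero_bijective (hb : ∀ w : Fin n → ℤ, (∀ j, 0 ≤ u j w) → w = 0) :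
    Function.Bijective (toZero u) := by
  constructor
  · intro a b h
    have h1 := congrArg (fun z : coneGr u 0 => (z : coneAlg u)) h
    simp only [toZero_coe] at h1
    exact single_right_inj.mp h1
  · intro z
    refine ⟨(z : coneAlg u).coeff 0, ?_⟩
    apply Subtype.ext
    rw [toZero_coe]
    conv_rhs => rw [eq_sum_single (z : coneAlg u)]
    have h2 : ∀ c ∈ (z : coneAlg u).coeff.support, c = 0 := by
      intro c hc
      have h3 : degHom u c = 0 := z.2 c hc
      rw [degHom_apply] at h3
      have h4 := c.2
      apply Subtype.ext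
      apply Prod.ext
      · apply hb
        intro j
        have := h4 j
        rw [h3] at this
        simpa using this
      · exact h3
    by_cases h5 : (z : coneAlg u).coeff 0 = 0
    · have h6 : (z : coneAlg u).coeff.support = ∅ := by
        rw [Finset.eq_empty_iff_forall_notMem]
        intro c hc
        have := h2 c hc
        subst this
        exact (Finsupp.mem_support_iff.mp hc) h5
      rw [h6, h5]
      simp
    · have h6 : (z : coneAlg u).coeff.support = {0} := by
        ext c
        simp only [Finset.mem_singleton]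
        constructor
        · exact h2 c
        · rintro rfl
          exact Finsupp.mem_support_iff.mpr h5
      rw [h6]
      simp

/-- The structure morphism. -/
noncomputable def toricStr : toricX u ⟶ Spec (CommRingCat.of ℂ) :=
  Proj.toSpecZero (coneGr u) ≫ Spec.map (CommRingCat.ofHom (toZero u))

instance : Algebra.FiniteType (coneGr u 0) (coneAlg u) := by
  have h1 : Algebra.FiniteType ℂ (coneAlg u) := AddMonoidAlgebra.finiteType_of_fg ℂ (cone u)
  have h2 : IsScalarTower ℂ (coneGr u 0) (coneAlg u) := by
    constructor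
    intro c z a
    exact smul_mul_assoc c (z : coneAlg u) a
  exact Algebra.FiniteType.of_restrictScalars_finiteType ℂ (coneGr u 0) (coneAlg u)

lemma toricStr_isProper (hb : ∀ w : Fin n → ℤ, (∀ j, 0 ≤ u j w) → w = 0) :
    IsProper (toricStr u) := by
  have h1 : IsIso (CommRingCat.ofHom (toZero u)) := by
    have : IsIso ((RingEquiv.ofBijective _ (toZero_bijective u hb)).toCommRingCatIso.hom) :=
      inferInstance
    exact this
  have h2 : IsIso (Spec.map (CommRingCat.ofHom (toZero u))) := inferInstance
  unfold toricStr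
  infer_instance

/-- The field containing everything. -/
abbrev bigF (n : ℕ) : Type := FractionRing (LPT n)

/-- The embedding of the homogeneous coordinate ring. -/
noncomputable def jF : coneAlg u →+* bigF n :=
  (algebraMap (LPT n) (bigF n)).comp (incl u).toRingHom

lemma jF_injective : Function.Injective (jF u) :=
  (IsFractionRing.injective (LPT n) (bigF n)).comp (incl_injective u)

/-- The embedding of the ring of Laurent polynomials. -/
noncomputable def lF (n : ℕ) : LP n →+* bigF n :=
  (algebraMap (LPT n) (bigF n)).comp (lpIncl n).toRingHom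

lemma lF_injective : Function.Injective (lF n) :=
  (IsFractionRing.injective (LPT n) (bigF n)).comp lpIncl_injective

/-- The additional variable. -/
noncomputable def tF (n d : ℕ) : bigF n := algebraMap (LPT n) (bigF n) (single (0, d) 1)

lemma tF_ne_zero (d : ℕ) : tF n d ≠ 0 := by
  intro h
  have h1 : (single (0, d) 1 : LPT n) = 0 :=
    IsFractionRing.injective (LPT n) (bigF n) (h.trans (map_zero _).symm)
  have h2 := congrArg (fun a => a.coeff (0, d)) h1
  simp at h2

lemma jF_eq (d : ℕ) (a : coneAlg u) (ha : a ∈ coneGr u d) :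
    jF u a = lF n (deh u a) * tF n d := by
  have h1 := incl_eq u d a ha
  have h2 := congrArg (algebraMap (LPT n) (bigF n)) h1
  rw [map_mul] at h2
  exact h2

lemma jF_div (d : ℕ) (a b : coneGr u d) :
    jF u a / jF u b = lF n (deh u a) / lF n (deh u b) := by
  rw [jF_eq u d a a.2, jF_eq u d b b.2, mul_div_mul_right _ _ (tF_ne_zero d)]

/-- The function field, embedded in the big field. -/
noncomputable def iX : (toricX u).functionField →+* bigF n := iotaF (coneGr u) (jF u) (jF_injective u)

lemma iX_injective : Function.Injective (iX u) := (iX u).injective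

lemma exists_bound (s : Finset (Fin n → ℤ)) :
    ∃ d₀ : ℕ, ∀ d, d₀ ≤ d → ∀ w ∈ s, ∀ j, 0 ≤ u j w + d := by
  classical
  have := Fintype.ofFinite J
  refine ⟨∑ w ∈ s, ∑ j, (u j w).natAbs, fun d hd w hw j => ?_⟩
  have h1 : (u j w).natAbs ≤ ∑ w ∈ s, ∑ j, (u j w).natAbs :=
    (Finset.single_le_sum (f := fun j => (u j w).natAbs) (fun _ _ => Nat.zero_le _)
      (Finset.mem_univ j)).trans
      (Finset.single_le_sum (f := fun w => ∑ j, (u j w).natAbs) (fun _ _ => Nat.zero_le _) hw)
  omega

lemma lF_mem_range (r : LP n) : lF n r ∈ (iX u).range := by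
  obtain ⟨d, hd⟩ := exists_bound u r.coeff.support
  obtain ⟨a, ha, har⟩ := exists_homog u d r (hd d le_rfl)
  obtain ⟨b, hb, hbr⟩ := exists_homog u d 1 (by
    intro w hw j
    have : w = 0 := by
      have h1 : (1 : LP n).coeff = Finsupp.single 0 1 := rfl
      rw [h1] at hw
      simpa using Finsupp.support_single_subset hw
    rw [this]
    simp)
  have hb0 : b ∉ pid (coneGr u) (eta (coneGr u)) := by
    rw [show eta (coneGr u) = genPt (coneGr u) (exists_pos_deg u) from
      genericPoint_eq (coneGr u) (exists_pos_deg u), pid_genPt, Ideal.mem_bot]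
    rintro rfl
    rw [map_zero] at hbr
    exact zero_ne_one hbr
  obtain ⟨s, hs, -⟩ := exists_stalk (coneGr u) (jF u) (jF_injective u) (eta (coneGr u)) d
    ⟨a, ha⟩ ⟨b, hb⟩ hb0
  refine ⟨_, hs.trans ?_⟩
  have h2 := jF_div u d ⟨a, ha⟩ ⟨b, hb⟩
  simp only at h2
  rw [h2, har, hbr, map_one, div_one]

/-- Laurent polynomials as rational functions on the toric scheme. -/
noncomputable def phiRing : LP n →+* (toricX u).functionField :=
  ((RingEquiv.ofBijective (iX u).rangeRestrict
    ⟨fun _ _ h => iX_injective u (congrArg Subtype.val h), (iX u).rangeRestrict_surjective⟩).symm :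
    (iX u).range →+* _).comp ((lF n).codRestrict (iX u).range (lF_mem_range u))

lemma iX_phiRing (r : LP n) : iX u (phiRing u r) = lF n r := by
  have h1 := (RingEquiv.ofBijective (iX u).rangeRestrict
    ⟨fun _ _ h => iX_injective u (congrArg Subtype.val h),
      (iX u).rangeRestrict_surjective⟩).apply_symm_apply
    (((lF n).codRestrict (iX u).range (lF_mem_range u)) r)
  exact congrArg Subtype.val h1

lemma phiRing_injective : Function.Injective (phiRing u) := by
  intro a b h
  apply lF_injective
  rw [← iX_phiRing u, ← iX_phiRing u, h]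

/-- Elements of stalks as fractions. -/
lemma toric_exists_frac (x : toricX u) (s : (toricX u).presheaf.stalk x) :
    ∃ (d : ℕ) (a b : coneGr u d), (b : coneAlg u) ∉ pid (coneGr u) x ∧
      algebraMap _ (toricX u).functionField s = phiRing u (deh u a) / phiRing u (deh u b) ∧
      (IsUnit s ↔ (a : coneAlg u) ∉ pid (coneGr u) x) := by
  obtain ⟨d, a, b, hb, h1, h2⟩ := exists_frac (coneGr u) (jF u) (jF_injective u) x s
  refine ⟨d, a, b, hb, ?_, h2⟩
  apply iX_injective u
  rw [map_div₀, iX_phiRing, iX_phiRing, ← jF_div]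
  exact h1

lemma toric_exists_stalk (x : toricX u) (d : ℕ) (a b : coneGr u d)
    (hb : (b : coneAlg u) ∉ pid (coneGr u) x) :
    ∃ s : (toricX u).presheaf.stalk x,
      algebraMap _ (toricX u).functionField s = phiRing u (deh u a) / phiRing u (deh u b) ∧
      (IsUnit s ↔ (a : coneAlg u) ∉ pid (coneGr u) x) := by
  obtain ⟨s, h1, h2⟩ := exists_stalk (coneGr u) (jF u) (jF_injective u) x d a b hb
  refine ⟨s, ?_, h2⟩
  apply iX_injective u
  rw [map_div₀, iX_phiRing, iX_phiRing, ← jF_div]
  exact h1

lemma phiRing_frac (z : (toricX u).functionField) :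
    ∃ a b : LP n, b ≠ 0 ∧ z = phiRing u a / phiRing u b := by
  obtain ⟨c, hc⟩ := HomogeneousLocalization.mk_surjective (stIso (coneGr u) (eta (coneGr u)) z)
  obtain ⟨d, a, b, hb⟩ := c
  have hz : z = (stIso (coneGr u) (eta (coneGr u))).symm (.mk ⟨d, a, b, hb⟩) := by
    rw [hc, RingEquiv.symm_apply_apply]
  have h1 : iX u z = jF u a / jF u b := by
    rw [hz]
    exact iotaF_mk (coneGr u) (jF u) (jF_injective u) d a b hb
  refine ⟨deh u a, deh u b, ?_, ?_⟩
  · intro h
    apply hb
    rw [deh_injOn u d b b.2 h]
    exact zero_mem _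
  · apply iX_injective u
    rw [h1, map_div₀, iX_phiRing, iX_phiRing, ← jF_div]

lemma preimage_fromSpecStalk {X : Scheme.{0}} {R : CommRingCat.{0}} (f : X ⟶ Spec R) (x : X) :
    Spec.preimage (X.fromSpecStalk x ≫ f) =
      (Scheme.ΓSpecIso R).inv ≫ f.appTop ≫ X.presheaf.germ ⊤ x trivial := by
  apply Spec.map_injective
  rw [Spec.map_preimage, Spec.map_comp, Spec.map_comp, ← Scheme.fromSpecStalk_toSpecΓ,
    Category.assoc, Category.assoc, ← Scheme.toSpecΓ_naturality_assoc]
  simp

/-- The structure of `ℂ`-algebra on the function field. -/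
noncomputable def cField : ℂ →+* (toricX u).functionField :=
  (Spec.preimage ((toricX u).fromSpecStalk (genericPoint (toricX u)) ≫ toricStr u)).hom

lemma cField_apply (c : ℂ) : cField u c =
    ((toricX u).presheaf.germ ⊤ (genericPoint (toricX u)) trivial).hom
      ((toricStr u).appTop.hom ((Scheme.ΓSpecIso (CommRingCat.of ℂ)).inv.hom c)) := by
  rw [cField, preimage_fromSpecStalk]
  rfl

lemma cField_eq (c : ℂ) : cField u c = phiRing u (algebraMap ℂ (LP n) c) := by
  apply iX_injective u
  rw [iX_phiRing]
  have h1 : (toricStr u).appTop.hom ((Scheme.ΓSpecIso (CommRingCat.of ℂ)).inv.hom c) =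
      (Proj.toSpecZero (coneGr u)).appTop ((Scheme.ΓSpecIso (CommRingCat.of (coneGr u 0))).inv
        (toZero u c)) := by
    have h2 := Scheme.ΓSpecIso_inv_naturality (CommRingCat.ofHom (toZero u))
    have h3 := congrArg (fun φ => φ.hom c) h2
    simp only [CommRingCat.hom_comp, RingHom.comp_apply] at h3
    unfold toricStr
    rw [Scheme.Hom.comp_appTop]
    simp only [CommRingCat.hom_comp, RingHom.comp_apply]
    rw [← h3]
    rfl
  have h4 := iotaF_germ_toSpecZero (coneGr u) (jF u) (jF_injective u) (toZero u c)
  have h5 : iX u (cField u c) = jF u (toZero u c) := by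
    refine Eq.trans ?_ h4
    unfold iX
    rw [cField_apply, h1]
  rw [h5, toZero_coe]
  change algebraMap (LPT n) (bigF n) (incl u (single 0 c)) = algebraMap (LPT n) (bigF n)
    (lpIncl n (algebraMap ℂ (LP n) c))
  congr 1
  rw [incl_single]
  change _ = lpIncl n (single 0 c)
  rw [lpIncl_single]
  rfl

end Pool.Agent.Helper19.Fano
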