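import Pool.Agent.Helper19.Fano.Points

/-!
# The toric variety of a polytope and its prime divisors
-/

set_option autoImplicit false
set_option linter.unusedSectionVars false
set_option linter.style.haveILetI false

open AlgebraicGeometry CategoryTheory AddMonoidAlgebra WithZero DirectSum

namespace Pool.Agent.Helper19.Fano

/-- The polytope is bounded. -/
def IsBdd {n : ℕ} {J : Type} (u : J → (Fin n → ℤ) →+ ℤ) : Prop :=
  ∀ w : Fin n → ℤ, (∀ j, 0 ≤ u j w) → w = 0

/-- The toric variety. -/
noncomputable def toricV {n : ℕ} {J : Type} [Finite J] (u : J → (Fin n → ℤ) →+ ℤ)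
    (hb : IsBdd u) : Variety where
  X := toricX u
  str := toricStr u
  integral := toricX_isIntegral u
  proper := toricStr_isProper u hb
  normal := toric_normal u

section

variable {n : ℕ} {J : Type} [Finite J] {u : J → (Fin n → ℤ) →+ ℤ} (hb : IsBdd u)

/-- The function field of the toric variety as a field of fractions. -/
noncomputable def tor : TorusField n (toricV u hb).FF := torusX u

/-- The homogeneous prime ideal of a point. -/
noncomputable def pt (x : (toricV u hb).X) : Ideal (coneAlg u) := pid (coneGr u) x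

instance pt_isPrime (x : (toricV u hb).X) : (pt hb x).IsPrime :=
  (toPS (coneGr u) x).isPrime

/-- Homogeneous elements as rational functions. -/
noncomputable def bt : coneAlg u →+* (toricV u hb).FF :=
  ((tor hb).Φ.comp (deh u)).toRingHom

lemma bt_apply (a : coneAlg u) : bt hb a = (tor hb).Φ (deh u a) := rfl

lemma bt_single (c : cone u) : bt hb (single c 1) = (tor hb).chi c.1.1 := by
  rw [bt_apply, deh_single]
  rfl

lemma bt_ne_zero {d : ℕ} {a : coneAlg u} (ha : a ∈ coneGr u d) (h : a ≠ 0) : bt hb a ≠ 0 := by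
  rw [bt_apply]
  apply (tor hb).Φ_ne_zero
  intro h0
  exact h (deh_injOn u d a ha h0)

lemma ne_zero_of_not_mem {x : (toricV u hb).X} {a : coneAlg u} (h : a ∉ pt hb x) : a ≠ 0 := by
  rintro rfl
  exact h (zero_mem _)

lemma exists_frac_V (x : (toricV u hb).X) (s : (toricV u hb).X.presheaf.stalk x) :
    ∃ (d : ℕ) (a b : coneAlg u), a ∈ coneGr u d ∧ b ∈ coneGr u d ∧ b ∉ pt hb x ∧
      algebraMap _ (toricV u hb).FF s = bt hb a / bt hb b ∧ (IsUnit s ↔ a ∉ pt hb x) := by
  obtain ⟨d, a, b, hb', h1, h2⟩ := toric_exists_frac u x s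
  exact ⟨d, a, b, a.2, b.2, hb', h1, h2⟩

lemma exists_stalk_V (x : (toricV u hb).X) {d : ℕ} {a b : coneAlg u} (ha : a ∈ coneGr u d)
    (hb' : b ∈ coneGr u d) (hbx : b ∉ pt hb x) :
    ∃ s : (toricV u hb).X.presheaf.stalk x,
      algebraMap _ (toricV u hb).FF s = bt hb a / bt hb b ∧ (IsUnit s ↔ a ∉ pt hb x) := by
  obtain ⟨s, h1, h2⟩ := toric_exists_stalk u x d ⟨a, ha⟩ ⟨b, hb'⟩ hbx
  exact ⟨s, h1, h2⟩

lemma specializes_V {x y : (toricV u hb).X} (h : x ⤳ y) : pt hb x ≤ pt hb y :=
  (specializes_iff (coneGr u) x y).mp h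

lemma exists_point_V (v : Valuation (toricV u hb).FF ℤᵐ⁰) (l : ℤ)
    (hle : ∀ d, ∀ a ∈ coneGr u d, v (bt hb a) ≤ exp (l * d))
    (heq : ∃ m : ℕ, 0 < m ∧ ∃ a ∈ coneGr u m, v (bt hb a) = exp (l * m)) :
    ∃ x : (toricV u hb).X, ∀ (d : ℕ), ∀ a ∈ coneGr u d,
      (a ∈ pt hb x ↔ v (bt hb a) < exp (l * d)) :=
  exists_point (β := bt hb) hle heq

/-- The affine open subset where a homogeneous element does not vanish. -/
lemma exists_affine {d : ℕ} (hd : 0 < d) {a : coneAlg u} (ha : a ∈ coneGr u d) :
    ∃ U : (toricV u hb).X.Opens, IsAffineOpen U ∧ ∀ z, z ∈ U ↔ a ∉ pt hb z :=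
  ⟨Proj.basicOpen (coneGr u) a, Proj.isAffineOpen_basicOpen (coneGr u) a ha hd, fun _ => Iff.rfl⟩

/-- The irrelevant ideal is not contained in the ideal of a point. -/
lemma exists_pos_not_mem (x : (toricV u hb).X) :
    ∃ c : cone u, 0 < c.1.2 ∧ (single c 1 : coneAlg u) ∉ pt hb x := by
  by_contra hcon
  push Not at hcon
  apply (toPS (coneGr u) x).not_irrelevant_le
  intro a ha
  have ha' : a ∈ HomogeneousIdeal.irrelevant (coneGr u) := ha
  rw [HomogeneousIdeal.mem_irrelevant_iff, GradedRing.proj_apply] at ha'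
  change a ∈ pt hb x
  rw [eq_sum_single a]
  refine Ideal.sum_mem _ fun c hc => ?_
  have h1 : (single c (a.coeff c) : coneAlg u) = single 0 (a.coeff c) * single c 1 := by
    rw [single_mul_single, zero_add, mul_one]
  rw [h1]
  apply Ideal.mul_mem_left
  apply hcon
  rw [Nat.pos_iff_ne_zero]
  intro h0
  -- the degree zero part of `a` vanishes
  have h2 : (decompose (coneGr u) a 0 : coneAlg u).coeff c = a.coeff c := by
    have h3 : (decompose (coneGr u) a 0 : coneAlg u) =
        ∑ c ∈ a.coeff.support, (decompose (coneGr u) (single c (a.coeff c)) 0 : coneAlg u) := by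
      conv_lhs => rw [eq_sum_single a]
      rw [decompose_sum, DFinsupp.finsetSum_apply, AddSubmonoidClass.coe_finsetSum]
    rw [h3, coeff_sum, Finsupp.finsetSum_apply, Finset.sum_eq_single_of_mem c hc]
    · have h4 : (single c (a.coeff c) : coneAlg u) ∈ coneGr u 0 := by
        have := single_mem_gradeBy (degHom u) c (a.coeff c)
        rwa [degHom_apply, h0] at this
      rw [decompose_of_mem_same (coneGr u) h4]
      simp
    · intro c' hc' hne
      have h4 : (single c' (a.coeff c') : coneAlg u) ∈ coneGr u (degHom u c') :=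
        single_mem_gradeBy (degHom u) _ _
      by_cases h5 : degHom u c' = 0
      · rw [h5] at h4
        rw [decompose_of_mem_same (coneGr u) h4]
        simp [hne]
      · rw [decompose_of_mem_ne (coneGr u) h4 h5]
        simp
  rw [ha'] at h2
  exact (Finsupp.mem_support_iff.mp hc) (by rw [← h2]; simp)

/-- The set of exponents which do not vanish at a point is a face. -/
lemma single_add_not_mem {x : (toricV u hb).X} {c c' : cone u} :
    (single (c + c') 1 : coneAlg u) ∉ pt hb x ↔
      (single c 1 : coneAlg u) ∉ pt hb x ∧ (single c' 1 : coneAlg u) ∉ pt hb x := by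
  have h1 : (single (c + c') 1 : coneAlg u) = single c 1 * single c' 1 := by
    rw [single_mul_single, one_mul]
  rw [h1, ← not_or]
  constructor
  · intro h hcon
    rcases hcon with h2 | h2
    · exact h (Ideal.mul_mem_right _ _ h2)
    · exact h (Ideal.mul_mem_left _ _ h2)
  · intro h hcon
    exact h (Ideal.IsPrime.mem_or_mem inferInstance hcon)

lemma single_zero_not_mem (x : (toricV u hb).X) : (single 0 1 : coneAlg u) ∉ pt hb x := by
  have h1 : (single 0 1 : coneAlg u) = 1 := rfl
  rw [h1]
  exact (Ideal.ne_top_iff_one _).mp (Ideal.IsPrime.ne_top inferInstance)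

lemma single_nsmul_not_mem {x : (toricV u hb).X} {c : cone u} (k : ℕ)
    (h : (single c 1 : coneAlg u) ∉ pt hb x) : (single (k • c) 1 : coneAlg u) ∉ pt hb x := by
  induction k with
  | zero => rw [zero_smul]; exact single_zero_not_mem hb x
  | succ k ih =>
    rw [succ_nsmul, single_add_not_mem]
    exact ⟨ih, h⟩

lemma single_sum_not_mem {x : (toricV u hb).X} {ι : Type} (s : Finset ι) (c : ι → cone u)
    (h : ∀ i ∈ s, (single (c i) 1 : coneAlg u) ∉ pt hb x) :
    (single (∑ i ∈ s, c i) 1 : coneAlg u) ∉ pt hb x := by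
  classical
  induction s using Finset.induction_on with
  | empty => exact single_zero_not_mem hb x
  | insert i s hi ih =>
    rw [Finset.sum_insert hi, single_add_not_mem]
    exact ⟨h i (Finset.mem_insert_self _ _), ih fun j hj => h j (Finset.mem_insert_of_mem hj)⟩

/-- A homogeneous element all of whose monomials vanish at `x` vanishes at `x`. -/
lemma exists_support_not_mem {x : (toricV u hb).X} {a : coneAlg u} (h : a ∉ pt hb x) :
    ∃ c ∈ a.coeff.support, (single c 1 : coneAlg u) ∉ pt hb x := by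
  by_contra hcon
  push Not at hcon
  apply h
  rw [eq_sum_single a]
  refine Ideal.sum_mem _ fun c hc => ?_
  have h1 : (single c (a.coeff c) : coneAlg u) = single 0 (a.coeff c) * single c 1 := by
    rw [single_mul_single, zero_add, mul_one]
  rw [h1]
  exact Ideal.mul_mem_left _ _ (hcon c hc)

/-- There is a common degree in which at every point some monomial does not vanish. -/
theorem exists_uniform_degree : ∃ m : ℕ, 0 < m ∧ ∀ x : (toricV u hb).X,
    ∃ c : cone u, c.1.2 = m ∧ (single c 1 : coneAlg u) ∉ pt hb x := by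
  classical
  obtain ⟨S, hS⟩ := cone_fg u
  -- generators of positive degree
  let S' := S.filter fun c => 0 < c.2
  refine ⟨∏ c ∈ S', c.2, Finset.prod_pos fun c hc => (Finset.mem_filter.mp hc).2, fun x => ?_⟩
  obtain ⟨c, hc, hcx⟩ := exists_pos_not_mem hb x
  -- some generator of positive degree does not vanish
  have hex : ∃ g : cone u, g.1 ∈ S' ∧ (single g 1 : coneAlg u) ∉ pt hb x := by
    have key : ∀ y ∈ AddSubmonoid.closure (S : Set ((Fin n → ℤ) × ℕ)), ∀ hy : y ∈ cone u,
        0 < y.2 → (single (⟨y, hy⟩ : cone u) 1 : coneAlg u) ∉ pt hb x →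
        ∃ g : cone u, g.1 ∈ S' ∧ (single g 1 : coneAlg u) ∉ pt hb x := by
      intro y hy
      induction hy using AddSubmonoid.closure_induction with
      | mem y hyS =>
        intro hy hy0 hyx
        exact ⟨⟨y, hy⟩, Finset.mem_filter.mpr ⟨hyS, hy0⟩, hyx⟩
      | zero => intro _ h0; exact absurd h0 (lt_irrefl _)
      | add y z hy' hz' ihy ihz =>
        intro hyz h0 hx
        have hy : y ∈ cone u := by rw [← hS]; exact hy'
        have hz : z ∈ cone u := by rw [← hS]; exact hz'
        have h1 : (⟨y + z, hyz⟩ : cone u) = ⟨y, hy⟩ + ⟨z, hz⟩ := rfl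
        rw [h1, single_add_not_mem] at hx
        rcases Nat.eq_zero_or_pos y.2 with hy0 | hy0
        · have hz0 : 0 < z.2 := by
            have : (y + z).2 = y.2 + z.2 := rfl
            omega
          exact ihz hz hz0 hx.2
        · exact ihy hy hy0 hx.1
    exact key c.1 (by rw [hS]; exact c.2) c.2 hc hcx
  obtain ⟨g, hg, hgx⟩ := hex
  set k : ℕ := ∏ c ∈ S'.erase g.1, c.2 with hk
  refine ⟨k • g, ?_, single_nsmul_not_mem hb _ hgx⟩
  have h1 : (k • g : cone u).1.2 = k * g.1.2 := by
    simp
  rw [h1, mul_comm, hk, Finset.mul_prod_erase S' (fun c => c.2) hg]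

end

end Pool.Agent.Helper19.Fano
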