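import Pool.Agent.Helper19.Fano.OrdForm

/-!
# Monomial valuations
-/

set_option autoImplicit false
set_option linter.unusedSectionVars false
set_option linter.style.haveILetI false

open WithZero AddMonoidAlgebra

namespace Pool.Agent.Helper19.Fano

section eft

variable {K : Type} [Field K] [Algebra ℂ K]

/-- A criterion for a valuation ring to be essentially of finite type. -/
lemma eft_of (v : Valuation K ℤᵐ⁰) (h : ∀ c : ℂ, v (algebraMap ℂ K c) ≤ 1) (σ : Finset K)
    (hσ : ∀ x ∈ σ, v x ≤ 1)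
    (hfrac : ∀ f, v f ≤ 1 → ∃ t ∈ Algebra.adjoin ℂ (σ : Set K), v t = 1 ∧
      f * t ∈ Algebra.adjoin ℂ (σ : Set K)) :
    Algebra.EssFiniteType ℂ (valRing v h) := by
  classical
  rw [Algebra.essFiniteType_iff]
  let σ' : Finset (valRing v h) := σ.attach.image fun x => ⟨x.1, hσ x.1 x.2⟩
  have h1 : (Algebra.adjoin ℂ (σ' : Set (valRing v h))).map (valRing v h).val =
      Algebra.adjoin ℂ (σ : Set K) := by
    rw [AlgHom.map_adjoin]
    congr 1
    ext x
    constructor
    · rintro ⟨y, hy, rfl⟩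
      rw [Finset.mem_coe, Finset.mem_image] at hy
      obtain ⟨z, -, rfl⟩ := hy
      exact z.2
    · intro hx
      exact ⟨⟨x, hσ x hx⟩, Finset.mem_coe.mpr (Finset.mem_image.mpr
        ⟨⟨x, hx⟩, Finset.mem_attach _ _, rfl⟩), rfl⟩
  refine ⟨σ', fun f => ?_⟩
  obtain ⟨t, ht, htv, hft⟩ := hfrac f.1 f.2
  rw [← h1] at ht hft
  obtain ⟨t', ht', rfl⟩ := ht
  obtain ⟨s', hs', hs''⟩ := hft
  refine ⟨t', ht', ?_, ?_⟩
  · have htv' : v (t' : K) = 1 := htv
    have ht0 : (t' : K) ≠ 0 := by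
      intro h0
      rw [h0, map_zero] at htv'
      exact zero_ne_one htv'
    have hinv : v ((t' : K)⁻¹) ≤ 1 := by rw [map_inv₀, htv', inv_one]
    exact IsUnit.of_mul_eq_one ⟨(t' : K)⁻¹, hinv⟩ (Subtype.ext (mul_inv_cancel₀ ht0))
  · have : f * t' = s' := Subtype.ext hs''.symm
    rw [this]
    exact hs'

end eft

/-- The monoid of a half space is finitely generated. -/
lemma halfSpace_fg {n : ℕ} (u : (Fin n → ℤ) →+ ℤ) :
    ∃ S : Finset (Fin n → ℤ), (∀ w ∈ S, 0 ≤ u w) ∧
      ∀ w, 0 ≤ u w → w ∈ AddSubmonoid.closure (S : Set (Fin n → ℤ)) := by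
  let M := (Fin n → ℕ) × (Fin n → ℕ) × ℕ
  let castF : (Fin n → ℕ) →+ (Fin n → ℤ) :=
    { toFun := fun p i => (p i : ℤ), map_zero' := by ext; simp, map_add' := by intros; ext; simp }
  let π₁ : M →+ (Fin n → ℕ) := AddMonoidHom.fst _ _
  let π₂ : M →+ (Fin n → ℕ) := (AddMonoidHom.fst _ _).comp (AddMonoidHom.snd _ _)
  let π₃ : M →+ ℕ := (AddMonoidHom.snd _ _).comp (AddMonoidHom.snd _ _)
  let w : M →+ (Fin n → ℤ) := castF.comp π₁ - castF.comp π₂
  let g : M →+ ℤ := (Nat.castAddMonoidHom ℤ).comp π₃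
  have h1 := AddSubmonoid.fg_eqLocusM (u.comp w) g
  have h2 := h1.map w
  obtain ⟨S, hS⟩ := h2
  have key : ∀ v : Fin n → ℤ, v ∈ ((u.comp w).eqLocusM g).map w ↔ 0 ≤ u v := by
    intro v
    constructor
    · rintro ⟨m, hm, rfl⟩
      have h3 : u (w m) = ((π₃ m : ℕ) : ℤ) := hm
      rw [h3]
      positivity
    · intro hv
      have hw : w (fun i => (v i).toNat, fun i => (-v i).toNat, (u v).toNat) = v := by
        ext i
        change (((v i).toNat : ℤ)) - (((-v i).toNat : ℤ)) = v i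
        exact Int.toNat_sub_toNat_neg _
      refine ⟨(fun i => (v i).toNat, fun i => (-v i).toNat, (u v).toNat), ?_, hw⟩
      change u (w _) = (((u v).toNat : ℕ) : ℤ)
      rw [hw]
      exact (Int.toNat_of_nonneg hv).symm
  refine ⟨S, fun v hv => ?_, fun v hv => ?_⟩
  · rw [← key, ← hS]
    exact AddSubmonoid.subset_closure hv
  · rw [← key, ← hS] at hv
    exact hv

namespace TorusField

variable {n : ℕ} {K : Type} [Field K] [Algebra ℂ K] (T : TorusField n K)
  (u : (Fin n → ℤ) →+ ℤ)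

/-- The embedding of Laurent polynomials in Laurent series given by a one-parameter subgroup. -/
noncomputable def psi : LP n →+* LaurentSeries K :=
  liftNCRingHom (HahnSeries.C.comp (algebraMap ℂ K))
    { toFun := fun w => HahnSeries.single (u w.toAdd) (T.chi w.toAdd)
      map_one' := by
        rw [toAdd_one, map_zero, chi_zero]
        rfl
      map_mul' := fun a b => by
        rw [toAdd_mul, map_add, chi_add, HahnSeries.single_mul_single] }
    (fun _ _ => Commute.all _ _)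

lemma psi_single (w : Fin n → ℤ) (c : ℂ) :
    T.psi u (single w c) = HahnSeries.single (u w) (algebraMap ℂ K c * T.chi w) := by
  rw [psi, liftNCRingHom_single]
  simp only [RingHom.comp_apply, MonoidHom.coe_mk, OneHom.coe_mk, toAdd_ofAdd]
  rw [HahnSeries.C_apply, HahnSeries.single_mul_single, zero_add]

lemma psi_coeff (a : LP n) (k : ℤ) :
    (T.psi u a).coeff k = ∑ w ∈ a.coeff.support,
      if u w = k then algebraMap ℂ K (a.coeff w) * T.chi w else 0 := by
  conv_lhs => rw [eq_sum_single a]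
  rw [map_sum, HahnSeries.coeff_sum]
  refine Finset.sum_congr rfl fun w _ => ?_
  rw [psi_single, HahnSeries.coeff_single]
  by_cases h : k = u w
  · rw [if_pos h, if_pos h.symm]
  · rw [if_neg h, if_neg (Ne.symm h)]

lemma psi_coeff_ne_zero (a : LP n) {w₀ : Fin n → ℤ} (hw₀ : w₀ ∈ a.coeff.support) :
    (T.psi u a).coeff (u w₀) ≠ 0 := by
  classical
  rw [psi_coeff]
  let b : LP n := ofCoeff (a.coeff.filter fun w => u w = u w₀)
  have h1 : T.Φ b = ∑ w ∈ a.coeff.support,
      if u w = u w₀ then algebraMap ℂ K (a.coeff w) * T.chi w else 0 := by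
    rw [Φ_eq_sum]
    have h2 : b.coeff.support = a.coeff.support.filter fun w => u w = u w₀ := by
      simp [b, Finsupp.support_filter]
    rw [h2, Finset.sum_filter]
    refine Finset.sum_congr rfl fun w _ => ?_
    by_cases h : u w = u w₀
    · simp [b, h]
    · simp [h]
  rw [← h1]
  apply T.Φ_ne_zero
  intro h0
  have h3 : b.coeff w₀ = 0 := by rw [h0]; simp
  have h4 : b.coeff w₀ = a.coeff w₀ := by simp [b]
  rw [h4] at h3
  exact (Finsupp.mem_support_iff.mp hw₀) h3

lemma psi_injective : Function.Injective (T.psi u) := by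
  rw [injective_iff_map_eq_zero]
  intro a ha
  by_contra hne
  have h1 : a.coeff.support.Nonempty := by
    rw [Finsupp.support_nonempty_iff]
    simpa using hne
  obtain ⟨w, hw⟩ := h1
  apply T.psi_coeff_ne_zero u a hw
  rw [ha]
  simp

/-- `K` as an algebra over the ring of Laurent polynomials. -/
noncomputable abbrev lpAlg : Algebra (LP n) K := T.Φ.toRingHom.toAlgebra

lemma lpAlg_isFractionRing : letI := T.lpAlg; IsFractionRing (LP n) K := by
  letI := T.lpAlg
  have h0 : ∀ p, algebraMap (LP n) K p = T.Φ p := fun _ => rfl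
  refine ⟨?_, ?_, ?_⟩
  · rintro ⟨y, hy⟩
    rw [isUnit_iff_ne_zero, h0]
    exact T.Φ_ne_zero (nonZeroDivisors.ne_zero hy)
  · intro z
    obtain ⟨p, q, hq, rfl⟩ := T.frac z
    refine ⟨(p, ⟨q, mem_nonZeroDivisors_of_ne_zero hq⟩), ?_⟩
    simp only [h0]
    have : T.Φ q ≠ 0 := T.Φ_ne_zero hq
    field_simp
  · intro x y hxy
    exact ⟨1, by rw [h0, h0] at hxy; rw [T.inj hxy]⟩

/-- The embedding of `K` in the field of Laurent series. -/
noncomputable def psiK : K →+* LaurentSeries K :=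
  letI := T.lpAlg
  haveI := T.lpAlg_isFractionRing
  IsFractionRing.lift (A := LP n) (K := K) (g := T.psi u) (T.psi_injective u)

lemma psiK_Φ (a : LP n) : T.psiK u (T.Φ a) = T.psi u a := by
  letI := T.lpAlg
  haveI := T.lpAlg_isFractionRing
  exact IsFractionRing.lift_algebraMap (A := LP n) (K := K) (T.psi_injective u) a

/-- The monomial valuation of a one-parameter subgroup. -/
noncomputable def vU : Valuation K ℤᵐ⁰ :=
  (Valued.v : Valuation (LaurentSeries K) ℤᵐ⁰).comap (T.psiK u)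

lemma vU_le_iff (a : LP n) (k : ℤ) :
    T.vU u (T.Φ a) ≤ exp (-k) ↔ ∀ w ∈ a.coeff.support, k ≤ u w := by
  rw [vU, Valuation.comap_apply, psiK_Φ, LaurentSeries.valuation_le_iff_coeff_lt_eq_zero]
  constructor
  · intro h w hw
    by_contra hlt
    exact T.psi_coeff_ne_zero u a hw (h _ (not_le.mp hlt))
  · intro h m hm
    rw [psi_coeff]
    apply Finset.sum_eq_zero
    intro w hw
    rw [if_neg]
    intro h1
    have := h w hw
    omega

lemma vU_lt_iff (a : LP n) (k : ℤ) :
    T.vU u (T.Φ a) < exp (-k) ↔ ∀ w ∈ a.coeff.support, k < u w := by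
  have h1 : T.vU u (T.Φ a) < exp (-k) ↔ T.vU u (T.Φ a) ≤ exp (-(k + 1)) := by
    by_cases h0 : T.vU u (T.Φ a) = 0
    · rw [h0]
      simp [zero_lt_iff]
    · rw [← exp_log h0, exp_lt_exp, exp_le_exp]
      constructor <;> intro h <;> linarith
  rw [h1, vU_le_iff]
  constructor
  · intro h w hw
    have := h w hw
    linarith
  · intro h w hw
    have := h w hw
    linarith

lemma vU_chi (w : Fin n → ℤ) : T.vU u (T.chi w) = exp (-u w) := by
  have hs : ((single w 1 : LP n)).coeff.support = {w} := by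
    rw [coeff_single, Finsupp.support_single _ one_ne_zero]
  apply le_antisymm
  · rw [chi, vU_le_iff, hs]
    intro w' hw'
    rw [Finset.mem_singleton.mp hw']
  · by_contra hlt
    rw [not_le, chi, vU_lt_iff, hs] at hlt
    have := hlt w (Finset.mem_singleton_self w)
    exact lt_irrefl _ this

lemma vU_const (c : ℂ) : T.vU u (algebraMap ℂ K c) ≤ 1 := by
  have h1 : algebraMap ℂ K c = T.Φ (single 0 c) := by
    rw [Φ_single, chi_zero, mul_one]
  have h3 := (T.vU_le_iff u (single 0 c) 0).mpr (by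
    intro w hw
    have h2 : w = 0 := by
      have := Finsupp.support_single_subset hw
      simpa using this
    rw [h2, map_zero])
  rwa [neg_zero, exp_zero, ← h1] at h3

lemma vU_surjective (hu : ∃ w, u w = 1) : Function.Surjective (T.vU u) := by
  obtain ⟨w, hw⟩ := hu
  intro g
  by_cases hg : g = 0
  · exact ⟨0, by rw [map_zero, hg]⟩
  · refine ⟨T.chi ((-log g) • w), ?_⟩
    rw [vU_chi, map_zsmul, hw]
    simp [exp_log hg]

/-- Elements of the valuation ring of a monomial valuation as fractions. -/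
lemma vU_frac (hu : ∃ w, u w = 1) (f : K) (hf : T.vU u f ≤ 1) : ∃ a b : LP n,
    T.vU u (T.Φ b) = 1 ∧ (∀ w ∈ a.coeff.support, 0 ≤ u w) ∧ (∀ w ∈ b.coeff.support, 0 ≤ u w) ∧
      f = T.Φ a / T.Φ b := by
  obtain ⟨w, hw⟩ := hu
  obtain ⟨a, b, hb, rfl⟩ := T.frac f
  have hb' := T.Φ_ne_zero hb
  have hvb : T.vU u (T.Φ b) ≠ 0 := by rwa [Ne, map_eq_zero]
  set k : ℤ := log (T.vU u (T.Φ b)) with hk
  have h1 : T.vU u (T.Φ (single (k • w) 1 * b)) = 1 := by
    rw [Φ_single_mul, map_mul, vU_chi, map_zsmul, hw, smul_eq_mul, mul_one, hk]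
    conv_lhs => rw [← exp_log hvb]
    rw [log_exp, ← exp_add]
    simp
  have hchi := T.chi_ne_zero (k • w)
  have h2 : T.Φ a / T.Φ b = T.Φ (single (k • w) 1 * a) / T.Φ (single (k • w) 1 * b) := by
    rw [Φ_single_mul, Φ_single_mul, mul_div_mul_left _ _ hchi]
  refine ⟨single (k • w) 1 * a, single (k • w) 1 * b, h1, ?_, ?_, h2⟩
  · rw [h2, map_div₀, h1, div_one] at hf
    exact (T.vU_le_iff u _ 0).mp (by rwa [neg_zero, exp_zero])
  · exact (T.vU_le_iff u _ 0).mp (by rw [neg_zero, exp_zero]; exact h1.le)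

lemma adjoin_halfSpace (S : Finset (Fin n → ℤ))
    (hS : ∀ w, 0 ≤ u w → w ∈ AddSubmonoid.closure (S : Set (Fin n → ℤ))) (a : LP n)
    (ha : ∀ w ∈ a.coeff.support, 0 ≤ u w) :
    T.Φ a ∈ Algebra.adjoin ℂ (T.chi '' (S : Set (Fin n → ℤ))) := by
  rw [Φ_eq_sum]
  refine Subalgebra.sum_mem _ fun w hw => ?_
  refine Subalgebra.mul_mem _ (Subalgebra.algebraMap_mem _ _) ?_
  have h1 := hS w (ha w hw)
  clear hw
  induction h1 using AddSubmonoid.closure_induction with
  | mem x hx => exact Algebra.subset_adjoin ⟨x, hx, rfl⟩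
  | zero => rw [chi_zero]; exact Subalgebra.one_mem _
  | add x y _ _ hx hy => rw [chi_add]; exact Subalgebra.mul_mem _ hx hy

lemma vU_eft (hu : ∃ w, u w = 1) : Algebra.EssFiniteType ℂ (valRing (T.vU u) (T.vU_const u)) := by
  classical
  obtain ⟨S, hS1, hS2⟩ := halfSpace_fg u
  apply eft_of (T.vU u) (T.vU_const u) (S.image T.chi)
  · intro x hx
    rw [Finset.mem_image] at hx
    obtain ⟨w, hw, rfl⟩ := hx
    rw [vU_chi, ← exp_zero, exp_le_exp]
    have := hS1 w hw
    linarith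
  · intro f hf
    obtain ⟨a, b, hb, ha0, hb0, rfl⟩ := T.vU_frac u hu f hf
    have hb' : T.Φ b ≠ 0 := by
      intro h0
      rw [h0, map_zero] at hb
      exact zero_ne_one hb
    rw [Finset.coe_image]
    exact ⟨T.Φ b, T.adjoin_halfSpace u S hS2 b hb0, hb, by
      rw [div_mul_cancel₀ _ hb']
      exact T.adjoin_halfSpace u S hS2 a ha0⟩

/-- The toric divisorial valuation of a primitive one-parameter subgroup. -/
noncomputable def divU (hu : ∃ w, u w = 1) : DivVal K where
  v := T.vU u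
  surj := T.vU_surjective u hu
  le_one := T.vU_const u
  eft := T.vU_eft u hu

lemma ord_divU_chi (hu : ∃ w, u w = 1) (w : Fin n → ℤ) : (T.divU u hu).ord (T.chi w) = u w :=
  (T.divU u hu).ord_eq_of_v (T.vU_chi u w)

lemma v_int_le (E : DivVal K) (m : ℤ) : E.v ((m : K)) ≤ 1 := by
  have := E.le_one (m : ℂ)
  simpa using this

/-- Logarithmic derivations preserve the monomial valuations. -/
lemma vU_θ_Φ_le (i : Fin n) (a : LP n) (k : ℤ) (h : ∀ w ∈ a.coeff.support, k ≤ u w) :
    T.vU u (T.θ i (T.Φ a)) ≤ exp (-k) := by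
  rw [θ_Φ]
  apply Valuation.map_sum_le
  intro w hw
  have h1 : T.vU u ((w i : ℤ) : K) ≤ 1 := by
    have := T.vU_const u ((w i : ℤ) : ℂ)
    simpa using this
  rw [map_mul, map_mul, vU_chi]
  calc T.vU u ((w i : ℤ) : K) * (T.vU u (algebraMap ℂ K (a.coeff w)) * exp (-u w))
      ≤ 1 * (1 * exp (-k)) := by
        apply mul_le_mul' h1 (mul_le_mul' (T.vU_const u _) _)
        rw [exp_le_exp]
        have := h w hw
        linarith
    _ = exp (-k) := by rw [one_mul, one_mul]

/-- The derivation in the direction of `u`. -/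
noncomputable def θu : Derivation ℂ K K := ∑ i, (u (Pi.single i 1) : K) • T.θ i

lemma θu_apply (f : K) : T.θu u f = ∑ i, (u (Pi.single i 1) : K) * T.θ i f := by
  have h1 : T.θu u f = (Derivation.coeFnAddMonoidHom
    (∑ i, (u (Pi.single i 1) : K) • T.θ i)) f := rfl
  rw [h1, map_sum, Finset.sum_apply]
  rfl

lemma u_eq_sum (w : Fin n → ℤ) : u w = ∑ i, u (Pi.single i 1) * w i := by
  have h1 : w = ∑ i, w i • (Pi.single i (1 : ℤ) : Fin n → ℤ) := by
    ext j
    simp [Finset.sum_apply, Pi.single_apply]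
  conv_lhs => rw [h1]
  rw [map_sum]
  refine Finset.sum_congr rfl fun i _ => ?_
  rw [map_zsmul, smul_eq_mul, mul_comm]

lemma θu_chi (w : Fin n → ℤ) : T.θu u (T.chi w) = (u w : K) * T.chi w := by
  rw [θu_apply, u_eq_sum u w]
  push_cast
  rw [Finset.sum_mul]
  refine Finset.sum_congr rfl fun i _ => ?_
  rw [θ_chi, mul_assoc]

lemma vU_θu_Φ (a : LP n) (h : ∀ w ∈ a.coeff.support, 0 ≤ u w) :
    T.vU u (T.θu u (T.Φ a)) ≤ exp (-1) := by
  rw [Φ_eq_sum, map_sum]
  apply Valuation.map_sum_le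
  intro w hw
  rw [← Algebra.smul_def, Derivation.map_smul, θu_chi, Algebra.smul_def]
  rcases (h w hw).eq_or_lt with h0 | h0
  · rw [← h0]
    simp
  · have h1 : T.vU u ((u w : ℤ) : K) ≤ 1 := by
      have := T.vU_const u ((u w : ℤ) : ℂ)
      simpa using this
    rw [map_mul, map_mul, vU_chi]
    calc T.vU u (algebraMap ℂ K (a.coeff w)) * (T.vU u ((u w : ℤ) : K) * exp (-u w))
        ≤ 1 * (1 * exp (-1)) := by
          apply mul_le_mul' (T.vU_const u _) (mul_le_mul' h1 _)
          rw [exp_le_exp]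
          linarith
      _ = exp (-1) := by rw [one_mul, one_mul]

/-- Quotient rule estimate. -/
lemma v_derivation_div (v : Valuation K ℤᵐ⁰) (d : Derivation ℂ K K) {a b : K} {g : ℤᵐ⁰}
    (hb : v b = 1) (ha : v a ≤ 1) (hda : v (d a) ≤ g) (hdb : v (d b) ≤ g) :
    v (d (a / b)) ≤ g := by
  rw [Derivation.leibniz_div, smul_eq_mul, map_mul, map_pow, map_inv₀, hb, inv_one, one_pow,
    one_mul]
  apply (v.map_sub _ _).trans
  rw [smul_eq_mul, smul_eq_mul, map_mul, map_mul, hb, one_mul]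
  exact max_le hda ((mul_le_mul' ha hdb).trans_eq (one_mul _))

lemma vU_θ_le (hu : ∃ w, u w = 1) (i : Fin n) (f : K) (hf : T.vU u f ≤ 1) :
    T.vU u (T.θ i f) ≤ 1 := by
  obtain ⟨a, b, hb, ha0, hb0, rfl⟩ := T.vU_frac u hu f hf
  have h1 := T.vU_θ_Φ_le u i a 0 ha0
  have h2 := T.vU_θ_Φ_le u i b 0 hb0
  have h3 := (T.vU_le_iff u a 0).mpr ha0
  rw [neg_zero, exp_zero] at h1 h2 h3
  exact v_derivation_div (T.vU u) (T.θ i) hb h3 h1 h2

lemma vU_θu_le (hu : ∃ w, u w = 1) (f : K) (hf : T.vU u f ≤ 1) :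
    T.vU u (T.θu u f) ≤ exp (-1) := by
  obtain ⟨a, b, hb, ha0, hb0, rfl⟩ := T.vU_frac u hu f hf
  have h1 := T.vU_θu_Φ u a ha0
  have h2 := T.vU_θu_Φ u b hb0
  have h3 := (T.vU_le_iff u a 0).mpr ha0
  rw [neg_zero, exp_zero] at h3
  exact v_derivation_div (T.vU u) (T.θu u) hb h3 h1 h2

lemma v_det_le_one (v : Valuation K ℤᵐ⁰) (M : Matrix (Fin n) (Fin n) K)
    (h : ∀ i j, v (M i j) ≤ 1) : v M.det ≤ 1 := by
  classical
  rw [Matrix.det_apply]
  apply Valuation.map_sum_le
  intro σ _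
  have h3 : v (Equiv.Perm.sign σ • ∏ i, M (σ i) i) = ∏ i, v (M (σ i) i) := by
    rcases Int.units_eq_one_or (Equiv.Perm.sign σ) with h | h
    · rw [h, one_smul, map_prod]
    · rw [h, Units.neg_smul, one_smul, Valuation.map_neg, map_prod]
  rw [h3]
  exact Finset.prod_le_one' fun i _ => h _ _

/-- The order of the logarithmic form along a toric divisor is `-1`. -/
theorem κ_divU (hu : ∃ w, u w = 1) : T.κ (T.divU u hu) = -1 := by
  classical
  apply le_antisymm _ (T.neg_one_le_κ _)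
  apply T.κ_le
  intro a ha
  change T.vU u (T.jac a) ≤ exp (-1)
  have ha' : ∀ i, T.vU u (a i) ≤ 1 := ha
  set M : Matrix (Fin n) (Fin n) K := Matrix.of fun i j => T.θ i (a j) with hM
  have hjac : T.jac a = M.det := rfl
  rw [hjac]
  -- a nonzero coordinate of `u`
  obtain ⟨w, hw⟩ := hu
  have hex : ∃ i, u (Pi.single i 1) ≠ 0 := by
    by_contra hall
    push Not at hall
    rw [u_eq_sum u w] at hw
    simp [hall] at hw
  obtain ⟨i, hi⟩ := hex
  let c : Fin n → K := fun i => (u (Pi.single i 1) : K)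
  have h1 : ∀ j, T.vU u (Matrix.vecMul c M j) ≤ exp (-1) := by
    intro j
    have h2 : Matrix.vecMul c M j = T.θu u (a j) := by
      rw [θu_apply]
      rfl
    rw [h2]
    exact T.vU_θu_le u ⟨w, hw⟩ _ (ha' j)
  have h3 : Matrix.vecMul (Matrix.vecMul c M) M.adjugate = M.det • c := by
    rw [Matrix.vecMul_vecMul, Matrix.mul_adjugate, Matrix.vecMul_smul, Matrix.vecMul_one]
  have h4 : T.vU u (M.det * c i) ≤ exp (-1) := by
    have h5 : M.det * c i = Matrix.vecMul (Matrix.vecMul c M) M.adjugate i := by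
      rw [h3]; rfl
    rw [h5]
    change T.vU u (∑ j, Matrix.vecMul c M j * M.adjugate j i) ≤ _
    apply Valuation.map_sum_le
    intro j _
    rw [map_mul]
    have h6 : T.vU u (M.adjugate j i) ≤ 1 := by
      rw [Matrix.adjugate_apply]
      apply v_det_le_one
      intro k l
      by_cases hk : k = i
      · subst hk
        rw [Matrix.updateRow_self]
        by_cases hl : l = j
        · subst hl; simp
        · simp [hl]
      · rw [Matrix.updateRow_ne hk]
        exact T.vU_θ_le u ⟨w, hw⟩ _ _ (ha' l)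
    calc T.vU u (Matrix.vecMul c M j) * T.vU u (M.adjugate j i) ≤ exp (-1) * 1 :=
          mul_le_mul' (h1 j) h6
      _ = exp (-1) := mul_one _
  have h7 : T.vU u (c i) = 1 := by
    have h8 := (T.divU u ⟨w, hw⟩).v_const (c := ((u (Pi.single i 1) : ℤ) : ℂ))
      (by exact_mod_cast hi)
    have h9 : c i = algebraMap ℂ K ((u (Pi.single i 1) : ℤ) : ℂ) := by simp [c]
    rw [h9]
    exact h8
  rw [map_mul, h7, mul_one] at h4
  exact h4

end TorusField

end Pool.Agent.Helper19.Fano
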