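import Pool.Agent.Helper19.Fano.ToricScheme
import Pool.Agent.Helper19.Fano.QVal

/-!
# Normality of toric varieties
-/

set_option autoImplicit false
set_option linter.unusedSectionVars false
set_option linter.style.haveILetI false

open AlgebraicGeometry CategoryTheory AddMonoidAlgebra WithZero

namespace Pool.Agent.Helper19.Fano

/-- Integral elements and valuations. -/
lemma val_le_of_integral {K : Type} [Field K] (v : Valuation K ℤᵐ⁰) (k : ℕ) (y : K) (c : ℕ → K)
    (g : ℤᵐ⁰) (hc : ∀ i < k, v (c i) ≤ g ^ (k - i))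
    (h : y ^ k + ∑ i ∈ Finset.range k, c i * y ^ i = 0) : v y ≤ g := by
  by_contra hlt
  rw [not_le] at hlt
  have hvy : 0 < v y := lt_of_le_of_lt zero_le hlt
  have h1 : v (y ^ k) = v (∑ i ∈ Finset.range k, c i * y ^ i) := by
    rw [eq_neg_of_add_eq_zero_left h, Valuation.map_neg]
  have h2 : v (∑ i ∈ Finset.range k, c i * y ^ i) < v y ^ k := by
    apply Valuation.map_sum_lt
    · exact pow_ne_zero _ hvy.ne'
    · intro i hi
      rw [Finset.mem_range] at hi
      rw [map_mul, map_pow]
      have h3 : v y ^ k = v y ^ (k - i) * v y ^ i := by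
        rw [← pow_add]; congr 1; omega
      rw [h3]
      apply mul_lt_mul_of_pos_right _ (pow_pos hvy i)
      exact (hc i hi).trans_lt (pow_lt_pow_left₀ hlt zero_le (by omega))
  rw [← h1, map_pow] at h2
  exact lt_irrefl _ h2

variable {n : ℕ} {J : Type} [Finite J] (u : J → (Fin n → ℤ) →+ ℤ)

/-- The function field of the toric scheme as a field of fractions. -/
noncomputable def torusX : letI := (cField u).toAlgebra; TorusField n (toricX u).functionField :=
  letI := (cField u).toAlgebra
  { Φ := { phiRing u with commutes' := fun c => (cField_eq u c).symm }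
    inj := phiRing_injective u
    frac := phiRing_frac u }

lemma common_denominator (x : toricX u) (k : ℕ) (c : ℕ → (toricX u).presheaf.stalk x) :
    ∃ (d : ℕ) (b : coneGr u d), (b : coneAlg u) ∉ pid (coneGr u) x ∧ ∀ i < k,
      ∃ a : coneGr u d, algebraMap _ (toricX u).functionField (c i) =
        phiRing u (deh u a) / phiRing u (deh u b) := by
  induction k with
  | zero =>
    refine ⟨0, ⟨1, SetLike.GradedOne.one_mem⟩, ?_, fun i hi => absurd hi (Nat.not_lt_zero i)⟩
    exact (Ideal.ne_top_iff_one _).mp (Ideal.IsPrime.ne_top inferInstance)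
  | succ k ih =>
    obtain ⟨d, b, hb, h⟩ := ih
    obtain ⟨d', a', b', hb', h', -⟩ := toric_exists_frac u x (c k)
    have hbb : ((b : coneAlg u) * b') ∉ pid (coneGr u) x := by
      intro hmem
      rcases (Ideal.IsPrime.mem_or_mem inferInstance hmem) with h1 | h1
      · exact hb h1
      · exact hb' h1
    have hb0 : phiRing u (deh u b) ≠ 0 := by
      rw [Ne, map_eq_zero_iff _ (phiRing_injective u)]
      intro h0
      apply hb
      rw [deh_injOn u d b b.2 h0]
      exact zero_mem _
    have hb0' : phiRing u (deh u b') ≠ 0 := by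
      rw [Ne, map_eq_zero_iff _ (phiRing_injective u)]
      intro h0
      apply hb'
      rw [deh_injOn u d' b' b'.2 h0]
      exact zero_mem _
    refine ⟨d + d', ⟨b * b', SetLike.GradedMul.mul_mem b.2 b'.2⟩, hbb, fun i hi => ?_⟩
    rcases Nat.lt_succ_iff_lt_or_eq.mp hi with hi' | rfl
    · obtain ⟨a, ha⟩ := h i hi'
      refine ⟨⟨a * b', SetLike.GradedMul.mul_mem a.2 b'.2⟩, ?_⟩
      rw [ha]
      simp only [map_mul]
      field_simp
    · refine ⟨⟨b * a', SetLike.GradedMul.mul_mem b.2 a'.2⟩, ?_⟩
      rw [h']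
      simp only [map_mul]
      field_simp

lemma IsHyp_v_Φ_le {K : Type} [Field K] [Algebra ℂ K] {T : TorusField n K} {E : DivVal K}
    {q : MvPolynomial (Fin n) ℂ} (h : T.IsHyp E q) (r : LP n) : E.v (T.Φ r) ≤ 1 := by
  rw [T.Φ_eq_sum]
  apply Valuation.map_sum_le
  intro w _
  rw [map_mul, h.chi, mul_one]
  exact E.le_one _

theorem toric_normal (x : toricX u) : IsIntegrallyClosed ((toricX u).presheaf.stalk x) := by
  letI := (cField u).toAlgebra
  let T := torusX u
  have hT : ∀ r, T.Φ r = phiRing u r := fun _ => rfl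
  rw [isIntegrallyClosed_iff (toricX u).functionField]
  intro z hz
  obtain ⟨p, hp, hpz⟩ := hz
  set k := p.natDegree with hk
  obtain ⟨d, b, hb, hcoef⟩ := common_denominator u x k p.coeff
  set B : (toricX u).functionField := phiRing u (deh u b) with hB
  have hB0 : B ≠ 0 := by
    rw [hB, Ne, map_eq_zero_iff _ (phiRing_injective u)]
    intro h0
    apply hb
    rw [deh_injOn u d b b.2 h0]
    exact zero_mem _
  have heq : z ^ k + ∑ i ∈ Finset.range k,
      algebraMap _ (toricX u).functionField (p.coeff i) * z ^ i = 0 := by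
    rw [hp.as_sum] at hpz
    simp only [Polynomial.eval₂_add, Polynomial.eval₂_pow, Polynomial.eval₂_X,
      Polynomial.eval₂_finsetSum, Polynomial.eval₂_mul, Polynomial.eval₂_C] at hpz
    exact hpz
  have heq' : (B * z) ^ k + ∑ i ∈ Finset.range k,
      (algebraMap _ (toricX u).functionField (p.coeff i) * B ^ (k - i)) * (B * z) ^ i = 0 := by
    have h1 : (B * z) ^ k + ∑ i ∈ Finset.range k,
        (algebraMap _ (toricX u).functionField (p.coeff i) * B ^ (k - i)) * (B * z) ^ i =
        B ^ k * (z ^ k + ∑ i ∈ Finset.range k,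
          algebraMap _ (toricX u).functionField (p.coeff i) * z ^ i) := by
      rw [mul_add, mul_pow, Finset.mul_sum]
      congr 1
      refine Finset.sum_congr rfl fun i hi => ?_
      rw [Finset.mem_range] at hi
      have h2 : B ^ k = B ^ (k - i) * B ^ i := by rw [← pow_add]; congr 1; omega
      rw [mul_pow, h2]
      ring
    rw [h1, heq, mul_zero]
  -- the coefficients
  have hcv : ∀ (v : Valuation (toricX u).functionField ℤᵐ⁰) (g : ℤᵐ⁰),
      (∀ a : coneGr u d, v (phiRing u (deh u a)) ≤ g) → ∀ i < k,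
      v (algebraMap _ (toricX u).functionField (p.coeff i) * B ^ (k - i)) ≤ g ^ (k - i) := by
    intro v g hg i hi
    obtain ⟨a, ha⟩ := hcoef i hi
    have h1 : algebraMap _ (toricX u).functionField (p.coeff i) * B ^ (k - i) =
        phiRing u (deh u a) * B ^ (k - i - 1) := by
      have h2 : B ^ (k - i) = B * B ^ (k - i - 1) := by
        rw [← pow_succ']; congr 1; omega
      rw [ha, h2]
      field_simp
    rw [h1, map_mul, map_pow]
    have h3 : g ^ (k - i) = g * g ^ (k - i - 1) := by
      rw [← pow_succ']; congr 1; omega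
    rw [h3]
    exact mul_le_mul' (hg a) (pow_le_pow_left₀ zero_le (hg b) _)
  obtain ⟨r, hr⟩ : ∃ r : LP n, B * z = T.Φ r := by
    apply T.exists_of_v_le
    intro E q _ hE
    have hg : ∀ a : coneGr u d, E.v (phiRing u (deh u a)) ≤ 1 := fun a => IsHyp_v_Φ_le hE _
    exact val_le_of_integral E.v k (B * z) _ 1 (hcv E.v 1 hg) heq'
  have hsupp : ∀ w ∈ r.coeff.support, ∀ j, 0 ≤ u j w + d := by
    intro w hw j
    have hg : ∀ a : coneGr u d, T.vU (u j) (phiRing u (deh u a)) ≤ exp (d : ℤ) := by
      intro a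
      have h1 := (T.vU_le_iff (u j) (deh u a) (-(d : ℤ))).mpr (fun w hw => by
        have := deh_support u d a a.2 w hw j
        linarith)
      rwa [neg_neg] at h1
    have h2 := val_le_of_integral (T.vU (u j)) k (B * z) _ (exp (d : ℤ))
      (hcv (T.vU (u j)) _ hg) heq'
    rw [hr, ← neg_neg (d : ℤ), T.vU_le_iff] at h2
    have := h2 w hw
    linarith
  obtain ⟨a, ha, har⟩ := exists_homog u d r hsupp
  obtain ⟨s, hs, -⟩ := toric_exists_stalk u x d ⟨a, ha⟩ b hb
  refine ⟨s, ?_⟩
  rw [hs]
  simp only
  rw [har, ← hT r, ← hr, ← hB, mul_div_cancel_left₀ _ hB0]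

end Pool.Agent.Helper19.Fano
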