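import Pool.Agent.Helper19.Fano.Cone

/-!
# The fraction field of the ring of Laurent polynomials
-/

set_option autoImplicit false
set_option linter.unusedSectionVars false
set_option linter.style.haveILetI false

open AddMonoidAlgebra

namespace Pool.Agent.Helper19.Fano

/-- A presentation of `K` as the field of fractions of the ring of Laurent polynomials. -/
structure TorusField (n : ℕ) (K : Type) [Field K] [Algebra ℂ K] where
  Φ : LP n →ₐ[ℂ] K
  inj : Function.Injective Φ
  frac : ∀ z : K, ∃ a b : LP n, b ≠ 0 ∧ z = Φ a / Φ b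

/-- Natural exponents as integral exponents. -/
def expCast (n : ℕ) : (Fin n →₀ ℕ) →+ (Fin n → ℤ) where
  toFun s i := s i
  map_zero' := by ext; simp
  map_add' := by intros; ext; simp

lemma expCast_injective (n : ℕ) : Function.Injective (expCast n) := by
  intro s t h
  ext i
  have h1 : ((s i : ℕ) : ℤ) = (t i : ℕ) := congrFun h i
  exact_mod_cast h1

lemma exists_expCast (n : ℕ) (w : Fin n → ℤ) (hw : ∀ i, 0 ≤ w i) : ∃ s, expCast n s = w := by
  refine ⟨Finsupp.equivFunOnFinite.symm fun i => (w i).toNat, ?_⟩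
  ext i
  change (((w i).toNat : ℕ) : ℤ) = w i
  exact Int.toNat_of_nonneg (hw i)

/-- Polynomials as Laurent polynomials. -/
noncomputable def polyToLP (n : ℕ) : MvPolynomial (Fin n) ℂ →ₐ[ℂ] LP n :=
  mapDomainAlgHom ℂ ℂ (expCast n)

lemma polyToLP_injective (n : ℕ) : Function.Injective (polyToLP n) := by
  have := mapDomain_injective (R := ℂ) (f := expCast n) (expCast_injective n)
  exact this

lemma polyToLP_monomial (n : ℕ) (s : Fin n →₀ ℕ) (c : ℂ) :
    polyToLP n (MvPolynomial.monomial s c) = single (expCast n s) c := by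
  have : (mapDomainAlgHom ℂ ℂ (expCast n)) (single s c) = single (expCast n s) c := by
    simp
  exact this

lemma polyToLP_X (n : ℕ) (i : Fin n) :
    polyToLP n (MvPolynomial.X i) = single (Pi.single i 1) 1 := by
  rw [MvPolynomial.X, polyToLP_monomial]
  congr 1
  ext j
  change ((Finsupp.single i 1 j : ℕ) : ℤ) = (Pi.single i 1 : Fin n → ℤ) j
  rw [Finsupp.single_apply, Pi.single_apply]
  split_ifs <;> simp_all

/-- The product of all variables. -/
noncomputable def allX (n : ℕ) : MvPolynomial (Fin n) ℂ := ∏ i, MvPolynomial.X i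

lemma allX_eq (n : ℕ) : allX n = MvPolynomial.monomial (∑ i, Finsupp.single i 1) 1 := by
  rw [allX, MvPolynomial.monomial_sum_one]
  rfl

lemma allX_pow (n k : ℕ) :
    allX n ^ k = MvPolynomial.monomial (k • ∑ i, Finsupp.single i 1) 1 := by
  rw [allX_eq, MvPolynomial.monomial_pow, one_pow]

lemma polyToLP_allX_pow (n k : ℕ) : polyToLP n (allX n ^ k) = single (fun _ => (k : ℤ)) 1 := by
  rw [allX_pow, polyToLP_monomial]
  congr 1
  ext j
  change (((k • ∑ i : Fin n, Finsupp.single i 1) j : ℕ) : ℤ) = k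
  simp [Finsupp.single_apply]

/-- Every Laurent polynomial becomes a polynomial after multiplication with a power of the product
of all variables. -/
lemma exists_poly (n : ℕ) (a : LP n) (k₀ : ℕ) : ∃ k, k₀ ≤ k ∧ ∃ p : MvPolynomial (Fin n) ℂ,
    polyToLP n p = polyToLP n (allX n ^ k) * a := by
  classical
  refine ⟨k₀ + ∑ w ∈ a.coeff.support, ∑ i, (w i).natAbs, by omega, ?_⟩
  set k := k₀ + ∑ w ∈ a.coeff.support, ∑ i, (w i).natAbs with hk
  have h1 : ∀ w ∈ a.coeff.support, ∀ i, 0 ≤ (k : ℤ) + w i := by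
    intro w hw i
    have h2 : (w i).natAbs ≤ ∑ w ∈ a.coeff.support, ∑ i, (w i).natAbs :=
      (Finset.single_le_sum (f := fun i => (w i).natAbs) (fun _ _ => Nat.zero_le _)
        (Finset.mem_univ i)).trans
        (Finset.single_le_sum (f := fun w => ∑ i, (w i).natAbs) (fun _ _ => Nat.zero_le _) hw)
    omega
  have h3 : ∀ w : {w // w ∈ a.coeff.support}, ∃ s, expCast n s = (fun _ => (k : ℤ)) + w.1 :=
    fun w => exists_expCast n _ (fun i => h1 w.1 w.2 i)
  choose s hs using h3
  refine ⟨∑ w ∈ a.coeff.support.attach, MvPolynomial.monomial (s w) (a.coeff w.1), ?_⟩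
  rw [polyToLP_allX_pow, map_sum]
  conv_rhs => rw [eq_sum_single a, ← Finset.sum_attach]
  rw [Finset.mul_sum]
  refine Finset.sum_congr rfl fun w _ => ?_
  rw [polyToLP_monomial, single_mul_single, hs w, one_mul]

namespace TorusField

variable {n : ℕ} {K : Type} [Field K] [Algebra ℂ K] (T : TorusField n K)

/-- The character of exponent `w` as an element of `K`. -/
noncomputable def chi (w : Fin n → ℤ) : K := T.Φ (single w 1)

lemma chi_add (w w' : Fin n → ℤ) : T.chi (w + w') = T.chi w * T.chi w' := by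
  rw [chi, chi, chi, ← map_mul, single_mul_single, one_mul]

lemma chi_zero : T.chi 0 = 1 := by
  rw [chi]
  exact map_one T.Φ

lemma chi_ne_zero (w : Fin n → ℤ) : T.chi w ≠ 0 := by
  intro h
  have h1 := T.chi_add w (-w)
  rw [add_neg_cancel, chi_zero, h, zero_mul] at h1
  exact one_ne_zero h1

lemma chi_neg (w : Fin n → ℤ) : T.chi (-w) = (T.chi w)⁻¹ := by
  have h1 := T.chi_add w (-w)
  rw [add_neg_cancel, chi_zero] at h1
  exact eq_inv_of_mul_eq_one_right h1.symm

lemma chi_nsmul (k : ℕ) (w : Fin n → ℤ) : T.chi (k • w) = T.chi w ^ k := by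
  induction k with
  | zero => rw [zero_smul, chi_zero, pow_zero]
  | succ k ih => rw [succ_nsmul, chi_add, ih, pow_succ]

lemma chi_zsmul (k : ℤ) (w : Fin n → ℤ) : T.chi (k • w) = T.chi w ^ k := by
  obtain ⟨m, rfl | rfl⟩ := k.eq_nat_or_neg
  · rw [natCast_zsmul, chi_nsmul, zpow_natCast]
  · rw [neg_smul, chi_neg, natCast_zsmul, chi_nsmul, zpow_neg, zpow_natCast]

lemma Φ_single (w : Fin n → ℤ) (c : ℂ) : T.Φ (single w c) = algebraMap ℂ K c * T.chi w := by
  have : (single w c : LP n) = c • single w 1 := by simp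
  rw [this, map_smul, Algebra.smul_def]
  rfl

lemma Φ_eq_sum (a : LP n) :
    T.Φ a = ∑ w ∈ a.coeff.support, algebraMap ℂ K (a.coeff w) * T.chi w := by
  conv_lhs => rw [eq_sum_single a]
  rw [map_sum]
  exact Finset.sum_congr rfl fun w _ => T.Φ_single w _

lemma Φ_ne_zero {a : LP n} (ha : a ≠ 0) : T.Φ a ≠ 0 := by
  rwa [Ne, map_eq_zero_iff T.Φ T.inj]

lemma Φ_single_mul (w : Fin n → ℤ) (a : LP n) : T.Φ (single w 1 * a) = T.chi w * T.Φ a := by
  rw [map_mul]; rfl

/-- Polynomials as elements of `K`. -/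
noncomputable def polyHom : MvPolynomial (Fin n) ℂ →ₐ[ℂ] K := T.Φ.comp (polyToLP n)

lemma polyHom_injective : Function.Injective T.polyHom := T.inj.comp (polyToLP_injective n)

lemma polyHom_X (i : Fin n) : T.polyHom (MvPolynomial.X i) = T.chi (Pi.single i 1) := by
  change T.Φ (polyToLP n (MvPolynomial.X i)) = _
  rw [polyToLP_X]
  rfl

lemma polyHom_allX_pow (k : ℕ) : T.polyHom (allX n ^ k) = T.chi (fun _ => (k : ℤ)) := by
  change T.Φ (polyToLP n (allX n ^ k)) = _
  rw [polyToLP_allX_pow]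
  rfl

lemma exists_poly_frac (z : K) : ∃ p q : MvPolynomial (Fin n) ℂ, q ≠ 0 ∧
    z = T.polyHom p / T.polyHom q := by
  obtain ⟨a, b, hb, rfl⟩ := T.frac z
  obtain ⟨k, -, p, hp⟩ := exists_poly n a 0
  obtain ⟨l, -, q, hq⟩ := exists_poly n b 0
  have hk : T.polyHom (allX n ^ k) ≠ 0 := by rw [polyHom_allX_pow]; exact T.chi_ne_zero _
  have hl : T.polyHom (allX n ^ l) ≠ 0 := by rw [polyHom_allX_pow]; exact T.chi_ne_zero _
  have hp' : T.polyHom p = T.polyHom (allX n ^ k) * T.Φ a := by
    change T.Φ (polyToLP n p) = _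
    rw [hp, map_mul]; rfl
  have hq' : T.polyHom q = T.polyHom (allX n ^ l) * T.Φ b := by
    change T.Φ (polyToLP n q) = _
    rw [hq, map_mul]; rfl
  have hb' := T.Φ_ne_zero hb
  refine ⟨allX n ^ l * p, allX n ^ k * q, ?_, ?_⟩
  · intro h
    have h1 := congrArg T.polyHom h
    rw [map_mul, map_zero, hq'] at h1
    exact (mul_ne_zero hk (mul_ne_zero hl hb')) h1
  · rw [map_mul, map_mul, hp', hq']
    field_simp

/-- `K` as an algebra over the polynomial ring. -/
noncomputable abbrev polyAlg : Algebra (MvPolynomial (Fin n) ℂ) K := T.polyHom.toRingHom.toAlgebra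

lemma polyAlg_tower : letI := T.polyAlg; IsScalarTower ℂ (MvPolynomial (Fin n) ℂ) K := by
  letI := T.polyAlg
  exact IsScalarTower.of_algebraMap_eq fun c => (T.polyHom.commutes c).symm

lemma polyAlg_isFractionRing : letI := T.polyAlg; IsFractionRing (MvPolynomial (Fin n) ℂ) K := by
  letI := T.polyAlg
  have h0 : ∀ p, algebraMap (MvPolynomial (Fin n) ℂ) K p = T.polyHom p := fun _ => rfl
  refine ⟨?_, ?_, ?_⟩
  · rintro ⟨y, hy⟩
    rw [isUnit_iff_ne_zero, h0, Ne, map_eq_zero_iff T.polyHom T.polyHom_injective]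
    exact nonZeroDivisors.ne_zero hy
  · intro z
    obtain ⟨p, q, hq, rfl⟩ := T.exists_poly_frac z
    refine ⟨(p, ⟨q, mem_nonZeroDivisors_of_ne_zero hq⟩), ?_⟩
    simp only [h0]
    have : T.polyHom q ≠ 0 := by rwa [Ne, map_eq_zero_iff T.polyHom T.polyHom_injective]
    field_simp
  · intro x y hxy
    exact ⟨1, by rw [h0, h0] at hxy; rw [T.polyHom_injective hxy]⟩

/-- The Kähler differentials of `K` have the basis `dxᵢ`. -/
lemma exists_basis : ∃ b : Module.Basis (Fin n) K Ω[K⁄ℂ],
    ∀ i, b i = KaehlerDifferential.D ℂ K (T.chi (Pi.single i 1)) := by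
  letI := T.polyAlg
  haveI := T.polyAlg_tower
  haveI := T.polyAlg_isFractionRing
  let b₀ := KaehlerDifferential.mvPolynomialBasis ℂ (Fin n)
  let f := KaehlerDifferential.map ℂ ℂ (MvPolynomial (Fin n) ℂ) K
  haveI : IsLocalizedModule (nonZeroDivisors (MvPolynomial (Fin n) ℂ)) f := inferInstance
  refine ⟨b₀.ofIsLocalizedModule K (nonZeroDivisors (MvPolynomial (Fin n) ℂ)) f, fun i => ?_⟩
  rw [Module.Basis.ofIsLocalizedModule_apply, KaehlerDifferential.mvPolynomialBasis_apply,
    KaehlerDifferential.map_D, ← T.polyHom_X]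
  rfl

/-- The basis `dlog xᵢ` of the Kähler differentials. -/
lemma exists_logBasis : ∃ b : Module.Basis (Fin n) K Ω[K⁄ℂ],
    ∀ i, b i = (T.chi (Pi.single i 1))⁻¹ • KaehlerDifferential.D ℂ K (T.chi (Pi.single i 1)) := by
  obtain ⟨b, hb⟩ := T.exists_basis
  refine ⟨b.unitsSMul fun i => (Units.mk0 _ (T.chi_ne_zero (Pi.single i 1)))⁻¹, fun i => ?_⟩
  rw [Module.Basis.unitsSMul_apply, hb]
  simp [Units.smul_def]

end TorusField

end Pool.Agent.Helper19.Fano
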